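import Mathlib

section

set_option linter.unusedSectionVars false

open Finset
open scoped Classical

noncomputable section
namespace Pool.Agent.MP_c00610_co

variable {α : Type} [Fintype α]

/-- idempotent relation -/
def Idem (R : α → α → Prop) : Prop := ∀ a b, R a b ↔ ∃ c, R a c ∧ R c b

/-- transitive and antisymmetric -/
structure PO (R : α → α → Prop) : Prop where
  tr : ∀ a b c, R a b → R b c → R a c
  anti : ∀ a b, R a b → R b a → a = b

def lt (R : α → α → Prop) (a b : α) : Prop := R a b ∧ a ≠ b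

def cov (R : α → α → Prop) (a b : α) : Prop := lt R a b ∧ ∀ c, lt R a c → ¬ lt R c b

def adj (R : α → α → Prop) (a b : α) : Prop := cov R a b ∨ cov R b a

def res (K : Finset α) (R : α → α → Prop) : α → α → Prop := fun a b => R a b ∧ a ∉ K ∧ b ∉ K

def fl (R : α → α → Prop) : α → α → Prop := fun a b => R b a

def above (R : α → α → Prop) (w : α) : Finset α := univ.filter fun z => lt R w z

def below (R : α → α → Prop) (w : α) : Finset α := univ.filter fun z => lt R z w

def upN (R : α → α → Prop) (v : α) : Finset α := univ.filter fun z => cov R v z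

def dnN (R : α → α → Prop) (v : α) : Finset α := univ.filter fun z => cov R z v

def nbr (R : α → α → Prop) (v : α) : Finset α := univ.filter fun z => adj R v z

def irr (R : α → α → Prop) : Finset α := univ.filter fun z => ¬ R z z

@[simp] lemma mem_above {R : α → α → Prop} {w z : α} : z ∈ above R w ↔ lt R w z := by
  simp [above]

@[simp] lemma mem_below {R : α → α → Prop} {w z : α} : z ∈ below R w ↔ lt R z w := by
  simp [below]

@[simp] lemma mem_upN {R : α → α → Prop} {w z : α} : z ∈ upN R w ↔ cov R w z := by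
  simp [upN]

@[simp] lemma mem_dnN {R : α → α → Prop} {w z : α} : z ∈ dnN R w ↔ cov R z w := by
  simp [dnN]

@[simp] lemma mem_nbr {R : α → α → Prop} {w z : α} : z ∈ nbr R w ↔ adj R w z := by
  simp [nbr]

@[simp] lemma mem_irr {R : α → α → Prop} {z : α} : z ∈ irr R ↔ ¬ R z z := by
  simp [irr]

lemma Idem.tr {R : α → α → Prop} (h : Idem R) (a b c : α) (h1 : R a b) (h2 : R b c) : R a c :=
  (h a c).2 ⟨b, h1, h2⟩

lemma lt_fl {R : α → α → Prop} {a b : α} : lt (fl R) a b ↔ lt R b a := by
  unfold lt fl; constructor <;> rintro ⟨h1, h2⟩ <;> exact ⟨h1, h2.symm⟩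

lemma cov_fl {R : α → α → Prop} {a b : α} : cov (fl R) a b ↔ cov R b a := by
  unfold cov; simp only [lt_fl]
  constructor
  · rintro ⟨h1, h2⟩; exact ⟨h1, fun c h3 h4 => h2 c h4 h3⟩
  · rintro ⟨h1, h2⟩; exact ⟨h1, fun c h3 h4 => h2 c h4 h3⟩

lemma adj_symm {R : α → α → Prop} {a b : α} (h : adj R a b) : adj R b a := h.symm

lemma PO.fl {R : α → α → Prop} (h : PO R) : PO (fl R) :=
  ⟨fun a b c h1 h2 => h.tr c b a h2 h1, fun a b h1 h2 => h.anti a b h2 h1⟩

lemma PO.res {R : α → α → Prop} (h : PO R) (K : Finset α) : PO (res K R) :=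
  ⟨fun a b c h1 h2 => ⟨h.tr a b c h1.1 h2.1, h1.2.1, h2.2.2⟩,
    fun a b h1 h2 => h.anti a b h1.1 h2.1⟩

lemma lt_res {R : α → α → Prop} {K : Finset α} {a b : α} :
    lt (res K R) a b ↔ lt R a b ∧ a ∉ K ∧ b ∉ K := by
  unfold lt res; tauto

lemma lt_irrefl' {R : α → α → Prop} {a : α} : ¬ lt R a a := fun h => h.2 rfl

lemma PO.lt_trans {R : α → α → Prop} (h : PO R) {a b c : α} (h1 : lt R a b) (h2 : lt R b c) :
    lt R a c := by
  refine ⟨h.tr _ _ _ h1.1 h2.1, ?_⟩
  rintro rfl
  exact h1.2 (h.anti _ _ h1.1 h2.1)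

lemma PO.lt_asymm {R : α → α → Prop} (h : PO R) {a b : α} (h1 : lt R a b) : ¬ lt R b a :=
  fun h2 => lt_irrefl' (h.lt_trans h1 h2)

lemma PO.exists_cov_up {R : α → α → Prop} (h : PO R) {x y : α} (hxy : lt R x y) :
    ∃ z, cov R x z ∧ (z = y ∨ lt R z y) := by
  obtain ⟨z, hz, hmin⟩ := exists_min_image (univ.filter fun z => lt R x z ∧ (z = y ∨ lt R z y))
    (fun z => (below R z).card) ⟨y, by simp [hxy]⟩
  simp only [mem_filter, mem_univ, true_and] at hz hmin
  refine ⟨z, ⟨hz.1, fun c hc hcz => ?_⟩, hz.2⟩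
  have h1 : c = y ∨ lt R c y := by
    rcases hz.2 with rfl | h2
    · exact Or.inr hcz
    · exact Or.inr (h.lt_trans hcz h2)
  have h2 := hmin c ⟨hc, h1⟩
  have h3 : below R c ⊂ below R z := by
    refine ⟨fun w hw => ?_, fun hsub => ?_⟩
    · rw [mem_below] at hw ⊢; exact h.lt_trans hw hcz
    · have : c ∈ below R c := hsub (by simpa using hcz)
      rw [mem_below] at this; exact lt_irrefl' this
  have := card_lt_card h3
  omega

lemma PO.exists_cov_dn {R : α → α → Prop} (h : PO R) {x y : α} (hxy : lt R x y) :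
    ∃ z, cov R z y ∧ (z = x ∨ lt R x z) := by
  obtain ⟨z, hz, hz'⟩ := h.fl.exists_cov_up (x := y) (y := x) (lt_fl.2 hxy)
  exact ⟨z, cov_fl.1 hz, by simpa [lt_fl] using hz'⟩

lemma PO.cov_induction {R : α → α → Prop} (h : PO R) (T : α → α → Prop)
    (hT : ∀ a b c, T a b → T b c → T a c) (hc : ∀ a b, cov R a b → T a b) :
    ∀ a b, lt R a b → T a b := by
  suffices H : ∀ m : ℕ, ∀ a b, (above R a).card = m → lt R a b → T a b from
    fun a b hab => H _ a b rfl hab
  intro m
  induction m using Nat.strong_induction_on with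
  | _ m ih =>
    intro a b hm hab
    obtain ⟨z, hz, hz'⟩ := h.exists_cov_up hab
    rcases hz' with rfl | hz'
    · exact hc _ _ hz
    · refine hT _ _ _ (hc _ _ hz) (ih _ ?_ z b rfl hz')
      rw [← hm]
      refine card_lt_card ⟨fun w hw => ?_, fun hsub => ?_⟩
      · rw [mem_above] at hw ⊢; exact h.lt_trans hz.1 hw
      · have : z ∈ above R z := hsub (by simpa using hz.1)
        rw [mem_above] at this; exact lt_irrefl' this

lemma rel_ext {R1 R2 : α → α → Prop} (hlt : ∀ a b, lt R1 a b ↔ lt R2 a b)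
    (hd : ∀ a, R1 a a ↔ R2 a a) : R1 = R2 := by
  funext a b
  apply propext
  by_cases hab : a = b
  · subst hab; exact hd a
  · have := hlt a b
    unfold lt at this
    tauto

/-- two orders whose covers are relations of the other are equal -/
lemma det_of_cov {R1 R2 : α → α → Prop} (h1 : PO R1) (h2 : PO R2)
    (h12 : ∀ a b, cov R1 a b → lt R2 a b) (h21 : ∀ a b, cov R2 a b → lt R1 a b)
    (hd : ∀ a, R1 a a ↔ R2 a a) : R1 = R2 := by
  refine rel_ext (fun a b => ⟨?_, ?_⟩) hd
  · exact h1.cov_induction (lt R2) (fun _ _ _ => h2.lt_trans) h12 a b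
  · exact h2.cov_induction (lt R1) (fun _ _ _ => h1.lt_trans) h21 a b

/-- determination by the restriction off `K` and the covers at `K` -/
lemma det_of_res {R1 R2 : α → α → Prop} (h1 : PO R1) (h2 : PO R2) (K : Finset α)
    (hlt : ∀ a b, a ∉ K → b ∉ K → (lt R1 a b ↔ lt R2 a b))
    (hup : ∀ v ∈ K, upN R1 v = upN R2 v) (hdn : ∀ v ∈ K, dnN R1 v = dnN R2 v)
    (hd : ∀ a, R1 a a ↔ R2 a a) : R1 = R2 := by
  refine det_of_cov h1 h2 (fun a b hab => ?_) (fun a b hab => ?_) hd
  · by_cases ha : a ∈ K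
    · have : b ∈ upN R2 a := by rw [← hup a ha]; simpa using hab
      exact (mem_upN.1 this).1
    by_cases hb : b ∈ K
    · have : a ∈ dnN R2 b := by rw [← hdn b hb]; simpa using hab
      exact (mem_dnN.1 this).1
    exact (hlt a b ha hb).1 hab.1
  · by_cases ha : a ∈ K
    · have : b ∈ upN R1 a := by rw [hup a ha]; simpa using hab
      exact (mem_upN.1 this).1
    by_cases hb : b ∈ K
    · have : a ∈ dnN R1 b := by rw [hdn b hb]; simpa using hab
      exact (mem_dnN.1 this).1
    exact (hlt a b ha hb).2 hab.1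

lemma PO.common_between {R : α → α → Prop} (h : PO R) {x y z : α} (hxy : lt R x y)
    (hx : adj R x z) (hy : adj R y z) : lt R x z ∧ lt R z y := by
  rcases hx with hx | hx <;> rcases hy with hy | hy
  · exact absurd hy.1 (hx.2 y hxy)
  · exact ⟨hx.1, hy.1⟩
  · exact absurd (h.lt_trans hy.1 hx.1) (h.lt_asymm hxy)
  · exact absurd hxy (hy.2 x hx.1)

lemma PO.no_triangle {R : α → α → Prop} (h : PO R) {x y z : α} (hxy : adj R x y)
    (hx : adj R x z) (hy : adj R y z) : False := by
  rcases hxy with hxy | hxy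
  · have := h.common_between hxy.1 hx hy
    exact hxy.2 z this.1 this.2
  · have := h.common_between hxy.1 hy hx
    exact hxy.2 z this.1 this.2

lemma adj_irrefl {R : α → α → Prop} {x : α} : ¬ adj R x x := by
  rintro (h | h) <;> exact lt_irrefl' h.1

/-- irreflexive comparable points have a reflexive point strictly between -/
lemma Idem.not_cov_irr {R : α → α → Prop} (h : Idem R) {x y : α} (hx : ¬ R x x) (hy : ¬ R y y) :
    ¬ cov R x y := by
  rintro ⟨hxy, hc⟩
  obtain ⟨c, h1, h2⟩ := (h x y).1 hxy.1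
  refine hc c ⟨h1, ?_⟩ ⟨h2, ?_⟩
  · rintro rfl; exact hx h1
  · rintro rfl; exact hy h2

lemma Idem.not_adj_irr {R : α → α → Prop} (h : Idem R) {x y : α} (hx : ¬ R x x) (hy : ¬ R y y) :
    ¬ adj R x y := by
  rintro (h1 | h1)
  · exact h.not_cov_irr hx hy h1
  · exact h.not_cov_irr hy hx h1

/-- criterion for a restriction to stay idempotent -/
lemma idem_res {R : α → α → Prop} (h : PO R) (K : Finset α)
    (hK : ∀ x y, x ∉ K → y ∉ K → ¬ R x x → ¬ R y y → lt R x y → ∃ z, z ∉ K ∧ lt R x z ∧ lt R z y) :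
    Idem (res K R) := by
  intro a b
  constructor
  · rintro ⟨hab, ha, hb⟩
    by_cases haa : R a a
    · exact ⟨a, ⟨haa, ha, ha⟩, ⟨hab, ha, hb⟩⟩
    by_cases hbb : R b b
    · exact ⟨b, ⟨hab, ha, hb⟩, ⟨hbb, hb, hb⟩⟩
    have hne : a ≠ b := by rintro rfl; exact haa hab
    obtain ⟨z, hz, h1, h2⟩ := hK a b ha hb haa hbb ⟨hab, hne⟩
    exact ⟨z, ⟨h1.1, ha, hz⟩, ⟨h2.1, hz, hb⟩⟩
  · rintro ⟨c, h1, h2⟩
    exact ⟨h.tr _ _ _ h1.1 h2.1, h1.2.1, h2.2.2⟩

/-- deleting irreflexive points is free -/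
lemma idem_res_irr {R : α → α → Prop} (h : PO R) (hI : Idem R) (K : Finset α)
    (hK : ∀ k ∈ K, ¬ R k k) : Idem (res K R) := by
  refine idem_res h K fun x y _ _ hx hy hxy => ?_
  obtain ⟨z, hz, hz'⟩ := h.exists_cov_up hxy
  have hzz : R z z := by
    by_contra hzz
    exact hI.not_cov_irr hx hzz hz
  rcases hz' with rfl | hz'
  · exact absurd hzz hy
  · exact ⟨z, fun hzK => hK z hzK hzz, hz.1, hz'⟩

/-- all idempotent relations supported on `V` -/
def idemOn (V : Finset α) : Finset (α → α → Prop) :=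
  univ.filter fun R => Idem R ∧ ∀ a b, R a b → a ∈ V ∧ b ∈ V

/-- the number of idempotent relations on `m` points -/
def I (m : ℕ) : ℕ := (univ.filter fun R : Fin m → Fin m → Prop => Idem R).card

lemma card_idemOn_le (V : Finset α) : (idemOn V).card ≤ I V.card := by
  let e : Fin V.card ≃ V := (V.equivFin).symm
  unfold I
  refine card_le_card_of_injOn (fun R => fun i j => R (e i) (e j)) ?_ ?_
  · intro R hR
    simp only [idemOn, coe_filter, mem_univ, true_and, Set.mem_ofPred_eq] at hR ⊢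
    intro i j
    constructor
    · intro hij
      obtain ⟨c, h1, h2⟩ := (hR.1 _ _).1 hij
      have hc : c ∈ V := (hR.2 _ _ h1).2
      refine ⟨e.symm ⟨c, hc⟩, ?_, ?_⟩
      · simpa using h1
      · simpa using h2
    · rintro ⟨c, h1, h2⟩
      exact hR.1.tr _ _ _ h1 h2
  · intro R1 hR1 R2 hR2 hEq
    simp only [idemOn, coe_filter, mem_univ, true_and, Set.mem_ofPred_eq] at hR1 hR2
    funext a b
    apply propext
    have key : ∀ (ha : a ∈ V) (hb : b ∈ V), R1 a b ↔ R2 a b := by
      intro ha hb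
      have := congrFun (congrFun hEq (e.symm ⟨a, ha⟩)) (e.symm ⟨b, hb⟩)
      simpa using this
    constructor
    · intro h; exact (key (hR1.2 _ _ h).1 (hR1.2 _ _ h).2).1 h
    · intro h; exact (key (hR2.2 _ _ h).1 (hR2.2 _ _ h).2).2 h

lemma res_mem_idemOn {R : α → α → Prop} {K : Finset α} (h : Idem (res K R)) :
    res K R ∈ idemOn Kᶜ := by
  simp only [idemOn, mem_filter, mem_univ, true_and, mem_compl]
  exact ⟨h, fun a b hab => hab.2⟩

lemma card_idemOn_compl_le (K : Finset α) :
    (idemOn Kᶜ).card ≤ I (Fintype.card α - K.card) := by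
  have := card_idemOn_le Kᶜ
  rwa [card_compl] at this

end Pool.Agent.MP_c00610_co

end
end

section

set_option linter.unusedSectionVars false

open Finset
open scoped Classical

noncomputable section
namespace Pool.Agent.MP_c00610_co

variable {α : Type} [Fintype α]

/-- admissible samples of upper and lower covers of `v` -/
structure Adm (R : α → α → Prop) (q : ℕ) (v : α) (Qu Qd : Finset α) : Prop where
  su : Qu ⊆ upN R v
  sd : Qd ⊆ dnN R v
  cu : Qu.card ≤ q + 1
  cd : Qd.card ≤ q + 1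
  fu : Qu.card ≤ q → Qu = upN R v
  fd : Qd.card ≤ q → Qd = dnN R v

def candU (R : α → α → Prop) (q : ℕ) (K Qu Qd : Finset α) : Finset α :=
  univ.filter fun z => q < Qu.card ∧ z ∉ K ∧
    (∀ u ∈ Qu, u ∉ K → z ≠ u ∧ ¬ lt R z u ∧ ¬ lt R u z) ∧ (∀ d ∈ Qd, d ∉ K → lt R d z)

def candD (R : α → α → Prop) (q : ℕ) (K Qu Qd : Finset α) : Finset α :=
  univ.filter fun z => q < Qd.card ∧ z ∉ K ∧
    (∀ d ∈ Qd, d ∉ K → z ≠ d ∧ ¬ lt R z d ∧ ¬ lt R d z) ∧ (∀ u ∈ Qu, u ∉ K → lt R z u)

def cand (R : α → α → Prop) (q : ℕ) (K Qu Qd : Finset α) : Finset α :=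
  candU R q K Qu Qd ∪ candD R q K Qu Qd

def Hom (R : α → α → Prop) (Q : Finset α) : Finset α :=
  univ.filter fun z => z ∉ Q ∧ ((∀ u ∈ Q, lt R z u) ∨ (∀ u ∈ Q, lt R u z) ∨
    (∀ u ∈ Q, ¬ lt R z u ∧ ¬ lt R u z))

def Antichain (R : α → α → Prop) (Q : Finset α) : Prop := ∀ a ∈ Q, ∀ b ∈ Q, ¬ lt R a b

def st4 (R : α → α → Prop) : Finset α :=
  univ.filter fun z => ∃ a b c, lt R z a ∧ lt R a b ∧ lt R b c

def en4 (R : α → α → Prop) : Finset α :=
  univ.filter fun z => ∃ a b c, lt R a b ∧ lt R b c ∧ lt R c z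

def Wset (R : α → α → Prop) : Finset (Finset α) :=
  ({∅, irr R, st4 R, en4 R} ∪ univ.image (above R) ∪ univ.image (below R)) ∪
    univ.image (fun p : α × α => above R p.1 ∩ below R p.2)

lemma mem_candU {R : α → α → Prop} {q : ℕ} {K Qu Qd : Finset α} {z : α} :
    z ∈ candU R q K Qu Qd ↔ q < Qu.card ∧ z ∉ K ∧
    (∀ u ∈ Qu, u ∉ K → z ≠ u ∧ ¬ lt R z u ∧ ¬ lt R u z) ∧ (∀ d ∈ Qd, d ∉ K → lt R d z) := by
  simp only [candU, mem_filter, mem_univ, true_and]

lemma mem_candD {R : α → α → Prop} {q : ℕ} {K Qu Qd : Finset α} {z : α} :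
    z ∈ candD R q K Qu Qd ↔ q < Qd.card ∧ z ∉ K ∧
    (∀ d ∈ Qd, d ∉ K → z ≠ d ∧ ¬ lt R z d ∧ ¬ lt R d z) ∧ (∀ u ∈ Qu, u ∉ K → lt R z u) := by
  simp only [candD, mem_filter, mem_univ, true_and]

lemma mem_cand {R : α → α → Prop} {q : ℕ} {K Qu Qd : Finset α} {z : α} :
    z ∈ cand R q K Qu Qd ↔ z ∈ candU R q K Qu Qd ∨ z ∈ candD R q K Qu Qd := by
  simp only [cand, mem_union]

lemma mem_Hom {R : α → α → Prop} {Q : Finset α} {z : α} :
    z ∈ Hom R Q ↔ z ∉ Q ∧ ((∀ u ∈ Q, lt R z u) ∨ (∀ u ∈ Q, lt R u z) ∨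
    (∀ u ∈ Q, ¬ lt R z u ∧ ¬ lt R u z)) := by
  simp only [Hom, mem_filter, mem_univ, true_and]

lemma mem_st4 {R : α → α → Prop} {z : α} :
    z ∈ st4 R ↔ ∃ a b c, lt R z a ∧ lt R a b ∧ lt R b c := by
  simp only [st4, mem_filter, mem_univ, true_and]

lemma mem_en4 {R : α → α → Prop} {z : α} :
    z ∈ en4 R ↔ ∃ a b c, lt R a b ∧ lt R b c ∧ lt R c z := by
  simp only [en4, mem_filter, mem_univ, true_and]

lemma card_Wset_le (R : α → α → Prop) :
    (Wset R).card ≤ (Fintype.card α + 2) ^ 2 := by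
  unfold Wset
  have h1 : ({∅, irr R, st4 R, en4 R} : Finset (Finset α)).card ≤ 4 := card_le_four
  have h2 : (univ.image (above R)).card ≤ Fintype.card α := card_image_le.trans (by simp)
  have h3 : (univ.image (below R)).card ≤ Fintype.card α := card_image_le.trans (by simp)
  have h4 : (univ.image (fun p : α × α => above R p.1 ∩ below R p.2)).card ≤
      Fintype.card α * Fintype.card α := card_image_le.trans (by simp)
  have h5 := card_union_le (({∅, irr R, st4 R, en4 R} ∪ univ.image (above R) ∪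
    univ.image (below R))) (univ.image (fun p : α × α => above R p.1 ∩ below R p.2))
  have h6 := card_union_le (({∅, irr R, st4 R, en4 R} ∪ univ.image (above R)))
    (univ.image (below R))
  have h7 := card_union_le ({∅, irr R, st4 R, en4 R} : Finset (Finset α)) (univ.image (above R))
  nlinarith

lemma candU_res (R : α → α → Prop) (q : ℕ) (K Qu Qd : Finset α) :
    candU (res K R) q K Qu Qd = candU R q K Qu Qd := by
  ext z
  simp only [mem_candU, lt_res]
  constructor
  · rintro ⟨h1, h2, h3, h4⟩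
    refine ⟨h1, h2, fun u hu huK => ?_, fun d hd hdK => (h4 d hd hdK).1⟩
    have := h3 u hu huK
    tauto
  · rintro ⟨h1, h2, h3, h4⟩
    refine ⟨h1, h2, fun u hu huK => ?_, fun d hd hdK => ⟨h4 d hd hdK, hdK, h2⟩⟩
    have := h3 u hu huK
    tauto

lemma candD_res (R : α → α → Prop) (q : ℕ) (K Qu Qd : Finset α) :
    candD (res K R) q K Qu Qd = candD R q K Qu Qd := by
  ext z
  simp only [mem_candD, lt_res]
  constructor
  · rintro ⟨h1, h2, h3, h4⟩
    refine ⟨h1, h2, fun u hu huK => ?_, fun d hd hdK => (h4 d hd hdK).1⟩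
    have := h3 u hu huK
    tauto
  · rintro ⟨h1, h2, h3, h4⟩
    refine ⟨h1, h2, fun u hu huK => ?_, fun d hd hdK => ⟨h4 d hd hdK, h2, hdK⟩⟩
    have := h3 u hu huK
    tauto

lemma cand_res (R : α → α → Prop) (q : ℕ) (K Qu Qd : Finset α) :
    cand (res K R) q K Qu Qd = cand R q K Qu Qd := by
  unfold cand; rw [candU_res, candD_res]

lemma Adm.up_mem {R : α → α → Prop} {q : ℕ} {v : α} {Qu Qd : Finset α} (h : Adm R q v Qu Qd)
    (hR : PO R) (K : Finset α) {z : α} (hz : cov R v z) (hQ : z ∉ Qu) (hK : z ∉ K) :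
    z ∈ candU R q K Qu Qd := by
  rw [mem_candU]
  refine ⟨?_, hK, fun u hu _ => ⟨?_, ?_, ?_⟩, fun d hd _ => ?_⟩
  · by_contra hq
    have := h.fu (by omega)
    rw [this] at hQ
    exact hQ (mem_upN.2 hz)
  · rintro rfl; exact hQ hu
  · exact (mem_upN.1 (h.su hu)).2 z hz.1
  · exact hz.2 u (mem_upN.1 (h.su hu)).1
  · exact hR.lt_trans (mem_dnN.1 (h.sd hd)).1 hz.1

lemma Adm.dn_mem {R : α → α → Prop} {q : ℕ} {v : α} {Qu Qd : Finset α} (h : Adm R q v Qu Qd)
    (hR : PO R) (K : Finset α) {z : α} (hz : cov R z v) (hQ : z ∉ Qd) (hK : z ∉ K) :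
    z ∈ candD R q K Qu Qd := by
  rw [mem_candD]
  refine ⟨?_, hK, fun u hu _ => ⟨?_, ?_, ?_⟩, fun d hd _ => ?_⟩
  · by_contra hq
    have := h.fd (by omega)
    rw [this] at hQ
    exact hQ (mem_dnN.2 hz)
  · rintro rfl; exact hQ hu
  · exact fun hh => hz.2 u hh (mem_dnN.1 (h.sd hu)).1
  · exact fun hh => (mem_dnN.1 (h.sd hu)).2 z hh hz.1
  · exact hR.lt_trans hz.1 (mem_upN.1 (h.su hd)).1

lemma antichain_upN (R : α → α → Prop) (v : α) : Antichain R (upN R v) :=
  fun a ha _ hb hab => (mem_upN.1 hb).2 a (mem_upN.1 ha).1 hab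

lemma antichain_dnN (R : α → α → Prop) (v : α) : Antichain R (dnN R v) :=
  fun _ ha b hb hab => (mem_dnN.1 ha).2 b hab (mem_dnN.1 hb).1

lemma exists_adm (R : α → α → Prop) (q : ℕ) (v : α) (A B : Finset α) (hA : A ⊆ upN R v)
    (hB : B ⊆ dnN R v) (hA' : A.card ≤ q + 1) (hB' : B.card ≤ q + 1) :
    ∃ Qu Qd, Adm R q v Qu Qd ∧ A ⊆ Qu ∧ B ⊆ Qd := by
  obtain ⟨Qu, h1, h2, h3⟩ := exists_subsuperset_card_eq hA
    (n := min (q + 1) (upN R v).card) (le_min hA' (card_le_card hA)) (min_le_right _ _)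
  obtain ⟨Qd, h4, h5, h6⟩ := exists_subsuperset_card_eq hB
    (n := min (q + 1) (dnN R v).card) (le_min hB' (card_le_card hB)) (min_le_right _ _)
  refine ⟨Qu, Qd, ⟨h2, h5, by omega, by omega, fun h => ?_, fun h => ?_⟩, h1, h4⟩
  · exact eq_of_subset_of_card_le h2 (by omega)
  · exact eq_of_subset_of_card_le h5 (by omega)

/-- size bound for the candidate set -/
lemma card_cand_le {R : α → α → Prop} {q e : ℕ} {v : α} {Qu Qd : Finset α}
    (hom : ∀ Q, Antichain R Q → Q.card = q → 2 * (Hom R Q).card ≤ Fintype.card α + 2 * e)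
    (h : Adm R q v Qu Qd) (K : Finset α) (y : α) (hK : K ⊆ {v, y}) :
    2 * (cand R q K Qu Qd).card ≤ Fintype.card α + 2 * e := by
  have key : ∀ Q : Finset α, v ∉ Q → q < Q.card → ∃ Q' ⊆ Q, Q'.card = q ∧ ∀ u ∈ Q', u ∉ K := by
    intro Q hv hq
    have h1 : q ≤ (Q.erase y).card := by
      have := pred_card_le_card_erase (s := Q) (a := y)
      omega
    obtain ⟨Q', h2, h3⟩ := exists_subset_card_eq h1
    refine ⟨Q', h2.trans (erase_subset _ _), h3, fun u hu huK => ?_⟩
    have h4 := hK huK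
    have h5 := h2 hu
    simp only [mem_insert, mem_singleton, mem_erase] at h4 h5
    rcases h4 with rfl | rfl
    · exact hv h5.2
    · exact h5.1 rfl
  by_cases hu : q < Qu.card
  · obtain ⟨Q', h1, h2, h3⟩ := key Qu (fun hv => lt_irrefl' (mem_upN.1 (h.su hv)).1) hu
    have hA : Antichain R Q' := fun a ha b hb =>
      antichain_upN R v a (h.su (h1 ha)) b (h.su (h1 hb))
    refine le_trans (Nat.mul_le_mul_left 2 (card_le_card fun z hz => ?_)) (hom Q' hA h2)
    rw [mem_Hom]
    rcases mem_cand.1 hz with hz | hz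
    · rw [mem_candU] at hz
      refine ⟨fun hzQ => (hz.2.2.1 z (h1 hzQ) (h3 z hzQ)).1 rfl, Or.inr (Or.inr fun u hu => ?_)⟩
      exact (hz.2.2.1 u (h1 hu) (h3 u hu)).2
    · rw [mem_candD] at hz
      refine ⟨fun hzQ => lt_irrefl' (hz.2.2.2 z (h1 hzQ) (h3 z hzQ)), Or.inl fun u hu => ?_⟩
      exact hz.2.2.2 u (h1 hu) (h3 u hu)
  by_cases hd : q < Qd.card
  · obtain ⟨Q', h1, h2, h3⟩ := key Qd (fun hv => lt_irrefl' (mem_dnN.1 (h.sd hv)).1) hd
    have hA : Antichain R Q' := fun a ha b hb =>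
      antichain_dnN R v a (h.sd (h1 ha)) b (h.sd (h1 hb))
    refine le_trans (Nat.mul_le_mul_left 2 (card_le_card fun z hz => ?_)) (hom Q' hA h2)
    rw [mem_Hom]
    rcases mem_cand.1 hz with hz | hz
    · rw [mem_candU] at hz
      exact absurd hz.1 hu
    · rw [mem_candD] at hz
      refine ⟨fun hzQ => (hz.2.2.1 z (h1 hzQ) (h3 z hzQ)).1 rfl, Or.inr (Or.inr fun u hu => ?_)⟩
      exact (hz.2.2.1 u (h1 hu) (h3 u hu)).2
  · have : cand R q K Qu Qd = ∅ := by
      ext z
      simp only [mem_cand, mem_candU, mem_candD, notMem_empty, iff_false]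
      tauto
    rw [this]; simp

/-- the hypotheses satisfied by a relation in none of the bad classes -/
structure Nice (R : α → α → Prop) (q e : ℕ) : Prop where
  po : PO R
  idem : Idem R
  hom : ∀ Q, Antichain R Q → Q.card = q → 2 * (Hom R Q).card ≤ Fintype.card α + 2 * e
  big : ∀ v Qu Qd, Adm R q v Qu Qd → Idem (res {v} R) → ∀ W ∈ Wset (res {v} R),
    (∀ z ∈ W, ¬ adj R v z) → Fintype.card α ≤ 2 * (cand R q {v} Qu Qd \ W).card + 2 * e
  pair : ∀ x y, x ≠ y → ∀ Qu Qd Pu Pd, Adm R q x Qu Qd → Adm R q y Pu Pd →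
    Idem (res {x, y} R) → (nbr R x ∩ nbr R y).card ≤ 2 →
    (cand R q {x} Qu Qd ∩ cand R q {y} Pu Pd).card ≤ 10 * e
  irrBig : 16 * e < (irr R).card
  nBig : 250 * e + 10 < Fintype.card α

lemma card_le_cover2 {A B C : Finset α} (h : ∀ z ∈ A, z ∈ B ∨ z ∈ C) :
    A.card ≤ B.card + C.card :=
  (card_le_card (fun z hz => mem_union.2 (h z hz))).trans (card_union_le _ _)

lemma card_le_cover3 {A B C D : Finset α} (h : ∀ z ∈ A, z ∈ B ∨ z ∈ C ∨ z ∈ D) :
    A.card ≤ B.card + C.card + D.card := by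
  have h1 := card_le_cover2 (A := A) (B := B) (C := C ∪ D) (fun z hz => by
    rcases h z hz with h | h
    · exact Or.inl h
    · exact Or.inr (mem_union.2 h))
  have h2 := card_union_le C D
  omega

lemma card_compl_union (A B : Finset α) :
    (A ∪ B)ᶜ.card + A.card + B.card = Fintype.card α + (A ∩ B).card := by
  have h1 := card_union_add_card_inter A B
  have h2 := card_add_card_compl (A ∪ B)
  omega

namespace Nice

variable {R : α → α → Prop} {q e : ℕ}

lemma le_cand (h : Nice R q e) {v : α} {Qu Qd : Finset α} (ha : Adm R q v Qu Qd) :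
    2 * (cand R q {v} Qu Qd).card ≤ Fintype.card α + 2 * e :=
  card_cand_le h.hom ha {v} v (by simp)

lemma inter_small (h : Nice R q e) {v : α} {Qu Qd : Finset α} (ha : Adm R q v Qu Qd)
    (hI : Idem (res {v} R)) {W : Finset α} (hW : W ∈ Wset (res {v} R))
    (hn : ∀ z ∈ W, ¬ adj R v z) : (cand R q {v} Qu Qd ∩ W).card ≤ 2 * e := by
  have h1 := h.big v Qu Qd ha hI W hW hn
  have h2 := h.le_cand ha
  have h3 := card_sdiff_add_card_inter (cand R q {v} Qu Qd) W
  omega

lemma ge_cand' (h : Nice R q e) {v : α} {Qu Qd : Finset α} (ha : Adm R q v Qu Qd)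
    (hI : Idem (res {v} R)) : Fintype.card α ≤ 2 * (cand R q {v} Qu Qd).card + 2 * e := by
  have := h.big v Qu Qd ha hI ∅ (by simp [Wset]) (by simp)
  simpa using this

lemma irr_common (h : Nice R q e) {x y : α} (hx : ¬ R x x) (hy : ¬ R y y) (hxy : x ≠ y) :
    3 ≤ (nbr R x ∩ nbr R y).card := by
  by_contra hlt
  have key : ∀ v, ¬ R v v → ∀ Qu Qd, Adm R q v Qu Qd →
      (cand R q {v} Qu Qd ∩ irr R).card ≤ 2 * e ∧
      Fintype.card α ≤ 2 * (cand R q {v} Qu Qd).card + 2 * e := by
    intro v hv Qu Qd ha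
    have hI : Idem (res {v} R) := idem_res_irr h.po h.idem _ (by simpa using hv)
    refine ⟨le_trans (card_le_card ?_) (h.inter_small ha hI (W := irr (res {v} R))
      (by simp [Wset]) ?_), h.ge_cand' ha hI⟩
    · intro z hz
      simp only [mem_inter, mem_irr, res] at hz ⊢
      tauto
    · intro z hz
      simp only [mem_irr, res, mem_singleton] at hz
      by_cases hzv : z = v
      · subst hzv; exact adj_irrefl
      · exact h.idem.not_adj_irr hv (by tauto)
  obtain ⟨Qu, Qd, ha, -⟩ := exists_adm R q x ∅ ∅ (by simp) (by simp) (by simp) (by simp)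
  obtain ⟨Pu, Pd, hb, -⟩ := exists_adm R q y ∅ ∅ (by simp) (by simp) (by simp) (by simp)
  have hI : Idem (res {x, y} R) := idem_res_irr h.po h.idem _ (by simp [hx, hy])
  have h1 := h.pair x y hxy Qu Qd Pu Pd ha hb hI (by omega)
  obtain ⟨h2, h3⟩ := key x hx Qu Qd ha
  obtain ⟨h4, h5⟩ := key y hy Pu Pd hb
  have h6 := card_compl_union (cand R q {x} Qu Qd) (cand R q {y} Pu Pd)
  have h7 := card_le_cover3 (A := irr R) (B := cand R q {x} Qu Qd ∩ irr R)
    (C := cand R q {y} Pu Pd ∩ irr R) (D := (cand R q {x} Qu Qd ∪ cand R q {y} Pu Pd)ᶜ)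
    (fun z hz => by simp only [mem_inter, mem_compl, mem_union]; tauto)
  have h8 := h.irrBig
  omega

lemma idem_res_small (h : Nice R q e) (K : Finset α) (hK : K.card ≤ 2) : Idem (res K R) := by
  refine idem_res h.po K fun x y _ _ hx hy hxy => ?_
  have h1 := h.irr_common hx hy hxy.2
  obtain ⟨z, hz, hzK⟩ := exists_mem_notMem_of_card_lt_card
    (s := K) (t := nbr R x ∩ nbr R y) (by omega)
  simp only [mem_inter, mem_nbr] at hz
  exact ⟨z, hzK, h.po.common_between hxy hz.1 hz.2⟩

lemma ge_cand (h : Nice R q e) {v : α} {Qu Qd : Finset α} (ha : Adm R q v Qu Qd) :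
    Fintype.card α ≤ 2 * (cand R q {v} Qu Qd).card + 2 * e :=
  h.ge_cand' ha (h.idem_res_small _ (by simp))

lemma pair' (h : Nice R q e) {x y : α} (hxy : x ≠ y) {Qu Qd Pu Pd : Finset α}
    (ha : Adm R q x Qu Qd) (hb : Adm R q y Pu Pd) (hc : (nbr R x ∩ nbr R y).card ≤ 2) :
    (cand R q {x} Qu Qd ∩ cand R q {y} Pu Pd).card ≤ 10 * e :=
  h.pair x y hxy Qu Qd Pu Pd ha hb (h.idem_res_small _ card_le_two) hc

lemma pair_adj (h : Nice R q e) {x y : α} (hxy : adj R x y) {Qu Qd Pu Pd : Finset α}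
    (ha : Adm R q x Qu Qd) (hb : Adm R q y Pu Pd) :
    (cand R q {x} Qu Qd ∩ cand R q {y} Pu Pd).card ≤ 10 * e := by
  refine h.pair' (by rintro rfl; exact adj_irrefl hxy) ha hb ?_
  have : nbr R x ∩ nbr R y = ∅ := by
    ext z
    simp only [mem_inter, mem_nbr, notMem_empty, iff_false]
    exact fun hz => h.po.no_triangle hxy hz.1 hz.2
  rw [this]; simp

lemma exists_adj (h : Nice R q e) (v : α) : ∃ z, adj R v z := by
  obtain ⟨Qu, Qd, ha, -⟩ := exists_adm R q v ∅ ∅ (by simp) (by simp) (by simp) (by simp)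
  have h1 := h.ge_cand ha
  have h2 := h.nBig
  obtain ⟨z, hz⟩ : (cand R q {v} Qu Qd).Nonempty := card_pos.1 (by omega)
  rcases mem_cand.1 hz with hz | hz
  · obtain ⟨u, hu⟩ : Qu.Nonempty := card_pos.1 (by have := (mem_candU.1 hz).1; omega)
    exact ⟨u, Or.inl (mem_upN.1 (ha.su hu))⟩
  · obtain ⟨u, hu⟩ : Qd.Nonempty := card_pos.1 (by have := (mem_candD.1 hz).1; omega)
    exact ⟨u, Or.inr (mem_dnN.1 (ha.sd hu))⟩

/-- the two sides -/
lemma exists_sides (h : Nice R q e) : ∃ (side : α → Bool) (X : Bool → Finset α),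
    (∀ b, X (!b) = (X b)ᶜ) ∧ (∀ b, Fintype.card α ≤ 2 * (X b).card + 2 * e) ∧
    ∀ v Qu Qd, Adm R q v Qu Qd → (X (side v) \ cand R q {v} Qu Qd).card ≤ 24 * e := by
  have hn := h.nBig
  obtain ⟨v0⟩ : Nonempty α := Fintype.card_pos_iff.1 (by omega)
  obtain ⟨Q0, P0, h0, -⟩ := exists_adm R q v0 ∅ ∅ (by simp) (by simp) (by simp) (by simp)
  set B := cand R q {v0} Q0 P0 with hB
  have hB1 : 2 * B.card ≤ Fintype.card α + 2 * e := h.le_cand h0
  have hB2 : Fintype.card α ≤ 2 * B.card + 2 * e := h.ge_cand h0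
  have hB3 := card_add_card_compl B
  refine ⟨fun v => decide (∃ z, adj R v z ∧ adj R v0 z), fun b => if b then B else Bᶜ, ?_, ?_, ?_⟩
  · intro b; cases b <;> simp
  · intro b; cases b
    · simp only [Bool.false_eq_true, if_false]; omega
    · simp only [if_true]; omega
  · intro v Qu Qd ha
    have h1 := h.le_cand ha
    have h2 := h.ge_cand ha
    by_cases hv : ∃ z, adj R v z ∧ adj R v0 z
    · simp only [hv, decide_true, if_true]
      obtain ⟨z, hz1, hz2⟩ := hv
      obtain ⟨Pu, Pd, hb, -⟩ := exists_adm R q z ∅ ∅ (by simp) (by simp) (by simp) (by simp)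
      have h3 := h.pair_adj hz1 ha hb
      have h4 := h.pair_adj hz2 h0 hb
      have h5 := h.ge_cand hb
      have h6 := card_compl_union (cand R q {v} Qu Qd) (cand R q {z} Pu Pd)
      have h7 := card_le_cover2 (A := B \ cand R q {v} Qu Qd) (B := B ∩ cand R q {z} Pu Pd)
        (C := (cand R q {v} Qu Qd ∪ cand R q {z} Pu Pd)ᶜ)
        (fun z hz => by simp only [mem_inter, mem_compl, mem_union, mem_sdiff] at hz ⊢; tauto)
      rw [← hB] at h4
      omega
    · simp only [hv, decide_false, Bool.false_eq_true, if_false]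
      have hne : v ≠ v0 := by
        rintro rfl
        obtain ⟨z, hz⟩ := h.exists_adj v
        exact hv ⟨z, hz, hz⟩
      have h3 := h.pair' hne ha h0 (by
        have : nbr R v ∩ nbr R v0 = ∅ := by
          ext z
          simp only [mem_inter, mem_nbr, notMem_empty, iff_false]
          exact fun hz => hv ⟨z, hz⟩
        rw [this]; simp)
      have h6 := card_compl_union (cand R q {v} Qu Qd) B
      have h7 : (Bᶜ \ cand R q {v} Qu Qd).card ≤ (cand R q {v} Qu Qd ∪ B)ᶜ.card :=
        card_le_card (fun z hz => by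
          simp only [mem_compl, mem_union, mem_sdiff] at hz ⊢; tauto)
      rw [← hB] at h3
      omega

end Nice

end Pool.Agent.MP_c00610_co

end
end

section

set_option linter.unusedSectionVars false

open Finset
open scoped Classical

noncomputable section
namespace Pool.Agent.MP_c00610_co

variable {α : Type} [Fintype α]

/-- second-level facts -/
structure Two (R : α → α → Prop) (side : α → Bool) (X : Bool → Finset α) (e : ℕ) : Prop where
  po : PO R
  p1 : ∀ x y, adj R x y → side y = !side x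
  p2 : ∀ b, X (!b) = (X b)ᶜ
  p3 : ∀ b, 122 * e + 4 < (X b).card
  p4u : ∀ v u, cov R v u → (X (side v) ∩ above R u).card ≤ 24 * e
  p4d : ∀ d v, cov R d v → (X (side v) ∩ below R d).card ≤ 24 * e
  p5 : ∀ d v u, cov R d v → cov R v u → (X (side v) \ (above R d ∪ below R u)).card ≤ 24 * e
  p6u : ∀ v w, v ≠ w → 26 * e + 1 < (X (side v) ∩ above R w).card → ∃ z, lt R w z ∧ adj R v z
  p6d : ∀ v w, v ≠ w → 26 * e + 1 < (X (side v) ∩ below R w).card → ∃ z, lt R z w ∧ adj R v z
  p6b : ∀ v w w', v ≠ w → v ≠ w' → 26 * e + 1 < (X (side v) ∩ (above R w ∩ below R w')).card →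
    ∃ z, lt R w z ∧ lt R z w' ∧ adj R v z
  p7u : ∀ v, (∀ z, ¬ lt R z v) → (∀ z ∈ st4 R, ¬ adj R v z) →
    (X (side v) ∩ st4 R).card ≤ 26 * e + 1
  p7d : ∀ v, (∀ z, ¬ lt R v z) → (∀ z ∈ en4 R, ¬ adj R v z) →
    (X (side v) ∩ en4 R).card ≤ 26 * e + 1
  p8 : ∀ x y, ¬ R x x → ¬ R y y → side x = side y

lemma card_le_insert_of {A B : Finset α} (v : α) (h : ∀ z ∈ A, z ≠ v → z ∈ B) :
    A.card ≤ B.card + 1 := by
  refine (card_le_card (t := insert v B) fun z hz => ?_).trans (card_insert_le _ _)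
  by_cases hzv : z = v
  · simp [hzv]
  · exact mem_insert_of_mem (h z hz hzv)

lemma Nice.exists_two {R : α → α → Prop} {q e : ℕ} (h : Nice R q e) :
    ∃ side X, Two R side X e := by
  obtain ⟨side, X, hX1, hX2, hX3⟩ := h.exists_sides
  have hn := h.nBig
  have same : ∀ x y, x ≠ y → side x = side y → 3 ≤ (nbr R x ∩ nbr R y).card := by
    intro x y hxy hs
    by_contra hlt
    obtain ⟨Qu, Qd, ha, -⟩ := exists_adm R q x ∅ ∅ (by simp) (by simp) (by simp) (by simp)
    obtain ⟨Pu, Pd, hb, -⟩ := exists_adm R q y ∅ ∅ (by simp) (by simp) (by simp) (by simp)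
    have h1 := h.pair' hxy ha hb (by omega)
    have h2 := hX3 x Qu Qd ha
    have h3 := hX3 y Pu Pd hb
    rw [← hs] at h3
    have h4 := hX2 (side x)
    have h5 := card_le_cover3 (A := X (side x)) (B := X (side x) \ cand R q {x} Qu Qd)
      (C := X (side x) \ cand R q {y} Pu Pd) (D := cand R q {x} Qu Qd ∩ cand R q {y} Pu Pd)
      (fun z hz => by simp only [mem_inter, mem_sdiff]; tauto)
    omega
  have p1 : ∀ x y, adj R x y → side y = !side x := by
    intro x y hxy
    by_contra hs
    have hs' : side x = side y := by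
      revert hs; cases side x <;> cases side y <;> simp
    have h1 := same x y (by rintro rfl; exact adj_irrefl hxy) hs'
    obtain ⟨z, hz⟩ : (nbr R x ∩ nbr R y).Nonempty := card_pos.1 (by omega)
    simp only [mem_inter, mem_nbr] at hz
    exact h.po.no_triangle hxy hz.1 hz.2
  have nb : ∀ v, ∀ W ∈ Wset (res {v} R), (∀ z ∈ W, ¬ adj R v z) →
      (X (side v) ∩ W).card ≤ 26 * e := by
    intro v W hW hn
    obtain ⟨Qu, Qd, ha, -⟩ := exists_adm R q v ∅ ∅ (by simp) (by simp) (by simp) (by simp)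
    have h1 := h.inter_small ha (h.idem_res_small _ (by simp)) hW hn
    have h2 := hX3 v Qu Qd ha
    have h3 := card_le_cover2 (A := X (side v) ∩ W) (B := X (side v) \ cand R q {v} Qu Qd)
      (C := cand R q {v} Qu Qd ∩ W) (fun z hz => by
        simp only [mem_inter, mem_sdiff] at hz ⊢; tauto)
    omega
  refine ⟨side, X, h.po, p1, hX1, fun b => by have := hX2 b; omega, ?_, ?_, ?_, ?_, ?_, ?_, ?_,
    ?_, ?_⟩
  · intro v u hvu
    obtain ⟨Qu, Qd, ha, hu, -⟩ := exists_adm R q v {u} ∅ (by simpa using hvu) (by simp)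
      (by simp) (by simp)
    refine le_trans (card_le_card fun z hz => ?_) (hX3 v Qu Qd ha)
    simp only [mem_inter, mem_above, mem_sdiff] at hz ⊢
    refine ⟨hz.1, fun hc => ?_⟩
    have hu' : u ∈ Qu := hu (by simp)
    have huv : u ∉ ({v} : Finset α) := by
      simp only [mem_singleton]; exact fun hh => hvu.1.2 hh.symm
    rcases mem_cand.1 hc with hc | hc
    · exact ((mem_candU.1 hc).2.2.1 u hu' huv).2.2 hz.2
    · exact h.po.lt_asymm hz.2 ((mem_candD.1 hc).2.2.2 u hu' huv)
  · intro d v hdv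
    obtain ⟨Qu, Qd, ha, -, hd⟩ := exists_adm R q v ∅ {d} (by simp) (by simpa using hdv)
      (by simp) (by simp)
    refine le_trans (card_le_card fun z hz => ?_) (hX3 v Qu Qd ha)
    simp only [mem_inter, mem_below, mem_sdiff] at hz ⊢
    refine ⟨hz.1, fun hc => ?_⟩
    have hd' : d ∈ Qd := hd (by simp)
    have hdv' : d ∉ ({v} : Finset α) := by
      simp only [mem_singleton]; exact fun hh => hdv.1.2 hh
    rcases mem_cand.1 hc with hc | hc
    · exact h.po.lt_asymm hz.2 ((mem_candU.1 hc).2.2.2 d hd' hdv')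
    · exact ((mem_candD.1 hc).2.2.1 d hd' hdv').2.1 hz.2
  · intro d v u hdv hvu
    obtain ⟨Qu, Qd, ha, hu, hd⟩ := exists_adm R q v {u} {d} (by simpa using hvu)
      (by simpa using hdv) (by simp) (by simp)
    refine le_trans (card_le_card fun z hz => ?_) (hX3 v Qu Qd ha)
    simp only [mem_union, mem_above, mem_below, mem_sdiff] at hz ⊢
    refine ⟨hz.1, fun hc => hz.2 ?_⟩
    have hu' : u ∈ Qu := hu (by simp)
    have huv : u ∉ ({v} : Finset α) := by
      simp only [mem_singleton]; exact fun hh => hvu.1.2 hh.symm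
    have hd' : d ∈ Qd := hd (by simp)
    have hdv' : d ∉ ({v} : Finset α) := by
      simp only [mem_singleton]; exact fun hh => hdv.1.2 hh
    rcases mem_cand.1 hc with hc | hc
    · exact Or.inl ((mem_candU.1 hc).2.2.2 d hd' hdv')
    · exact Or.inr ((mem_candD.1 hc).2.2.2 u hu' huv)
  · intro v w hvw hbig
    by_contra hno
    push Not at hno
    have h1 := nb v (above (res {v} R) w) (by simp [Wset]) (fun z hz => by
      rw [mem_above, lt_res] at hz; exact hno z hz.1)
    have h2 := card_le_insert_of (A := X (side v) ∩ above R w)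
      (B := X (side v) ∩ above (res {v} R) w) v (fun z hz hzv => by
        simp only [mem_inter, mem_above, lt_res, mem_singleton] at hz ⊢
        exact ⟨hz.1, hz.2, hvw.symm, hzv⟩)
    omega
  · intro v w hvw hbig
    by_contra hno
    push Not at hno
    have h1 := nb v (below (res {v} R) w) (by simp [Wset]) (fun z hz => by
      rw [mem_below, lt_res] at hz; exact hno z hz.1)
    have h2 := card_le_insert_of (A := X (side v) ∩ below R w)
      (B := X (side v) ∩ below (res {v} R) w) v (fun z hz hzv => by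
        simp only [mem_inter, mem_below, lt_res, mem_singleton] at hz ⊢
        exact ⟨hz.1, hz.2, hzv, hvw.symm⟩)
    omega
  · intro v w w' hvw hvw' hbig
    by_contra hno
    push Not at hno
    have h1 := nb v (above (res {v} R) w ∩ below (res {v} R) w')
      (mem_union_right _ (mem_image.2 ⟨(w, w'), mem_univ _, rfl⟩)) (fun z hz => by
      rw [mem_inter, mem_above, mem_below, lt_res, lt_res] at hz; exact hno z hz.1.1 hz.2.1)
    have h2 := card_le_insert_of (A := X (side v) ∩ (above R w ∩ below R w'))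
      (B := X (side v) ∩ (above (res {v} R) w ∩ below (res {v} R) w')) v (fun z hz hzv => by
        simp only [mem_inter, mem_above, mem_below, lt_res, mem_singleton] at hz ⊢
        exact ⟨hz.1, ⟨hz.2.1, hvw.symm, hzv⟩, hz.2.2, hzv, hvw'.symm⟩)
    omega
  · intro v hv hno
    have h1 := nb v (st4 (res {v} R)) (by simp [Wset]) (fun z hz => by
      obtain ⟨a, b, c, h1, h2, h3⟩ := mem_st4.1 hz
      rw [lt_res] at h1 h2 h3
      exact hno z (mem_st4.2 ⟨a, b, c, h1.1, h2.1, h3.1⟩))
    have h2 := card_le_insert_of (A := X (side v) ∩ st4 R)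
      (B := X (side v) ∩ st4 (res {v} R)) v (fun z hz hzv => by
        rw [mem_inter] at hz ⊢
        obtain ⟨a, b, c, k1, k2, k3⟩ := mem_st4.1 hz.2
        have ha : a ≠ v := fun hh => hv _ (hh ▸ k1)
        have hb : b ≠ v := fun hh => hv _ (hh ▸ k2)
        have hc : c ≠ v := fun hh => hv _ (hh ▸ k3)
        refine ⟨hz.1, mem_st4.2 ⟨a, b, c, ?_, ?_, ?_⟩⟩ <;>
          simp only [lt_res, mem_singleton] <;> tauto)
    omega
  · intro v hv hno
    have h1 := nb v (en4 (res {v} R)) (by simp [Wset]) (fun z hz => by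
      obtain ⟨a, b, c, h1, h2, h3⟩ := mem_en4.1 hz
      rw [lt_res] at h1 h2 h3
      exact hno z (mem_en4.2 ⟨a, b, c, h1.1, h2.1, h3.1⟩))
    have h2 := card_le_insert_of (A := X (side v) ∩ en4 R)
      (B := X (side v) ∩ en4 (res {v} R)) v (fun z hz hzv => by
        rw [mem_inter] at hz ⊢
        obtain ⟨a, b, c, k1, k2, k3⟩ := mem_en4.1 hz.2
        have ha : a ≠ v := fun hh => hv _ (hh ▸ k1)
        have hb : b ≠ v := fun hh => hv _ (hh ▸ k2)
        have hc : c ≠ v := fun hh => hv _ (hh ▸ k3)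
        refine ⟨hz.1, mem_en4.2 ⟨a, b, c, ?_, ?_, ?_⟩⟩ <;>
          simp only [lt_res, mem_singleton] <;> tauto)
    omega
  · intro x y hx hy
    by_cases hxy : x = y
    · rw [hxy]
    have h1 := h.irr_common hx hy hxy
    obtain ⟨z, hz⟩ : (nbr R x ∩ nbr R y).Nonempty := card_pos.1 (by omega)
    simp only [mem_inter, mem_nbr] at hz
    rw [p1 z x hz.1.symm, p1 z y hz.2.symm]

/-- the layered shape -/
def Shape (R : α → α → Prop) (A O : Finset α) : Prop :=
  (irr R ⊆ A ∨ irr R ⊆ Aᶜ) ∧ ∀ x y, cov R x y →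
    (x ∈ A ∧ y ∉ A ∧ (x ∈ O ∨ y ∈ O)) ∨ (x ∉ A ∧ y ∈ A ∧ x ∉ O ∧ y ∉ O)

namespace Two

variable {R : α → α → Prop} {side : α → Bool} {X : Bool → Finset α} {e : ℕ}

lemma side_cov (h : Two R side X e) {x y : α} (hxy : cov R x y) : side y = !side x :=
  h.p1 x y (Or.inl hxy)

lemma mid_of_same (h : Two R side X e) {x y : α} (hxy : lt R x y) (hs : side x = side y) :
    ∃ m, lt R x m ∧ lt R m y := by
  by_contra hno
  push Not at hno
  have := h.side_cov ⟨hxy, hno⟩
  rw [hs] at this
  revert this; cases side y <;> simp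

lemma chain4 (h : Two R side X e) {a b c d : α} (hab : cov R a b) (hbc : cov R b c)
    (hcd : cov R c d) :
    (X (side b) \ above R a).card ≤ 48 * e ∧ (X (side c) \ below R d).card ≤ 48 * e := by
  have s1 := h.side_cov hab
  have s2 := h.side_cov hbc
  have s3 := h.side_cov hcd
  have sd : side d = side b := by rw [s3, s2]; simp
  have sc : side a = side c := by rw [s2, s1]; simp
  constructor
  · have h1 := h.p4d c d hcd
    rw [sd] at h1
    have h2 := h.p5 a b c hab hbc
    have h3 := card_le_cover2 (A := X (side b) \ above R a) (B := X (side b) ∩ below R c)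
      (C := X (side b) \ (above R a ∪ below R c)) (fun z hz => by
        simp only [mem_inter, mem_sdiff, mem_union] at hz ⊢; tauto)
    omega
  · have h1 := h.p4u a b hab
    rw [sc] at h1
    have h2 := h.p5 b c d hbc hcd
    have h3 := card_le_cover2 (A := X (side c) \ below R d) (B := X (side c) ∩ above R b)
      (C := X (side c) \ (above R b ∪ below R d)) (fun z hz => by
        simp only [mem_inter, mem_sdiff, mem_union] at hz ⊢; tauto)
    omega

lemma step_up (h : Two R side X e) {x y z : α} (h1 : x = y ∨ lt R x y) (h2 : lt R y z) :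
    lt R x z := by
  rcases h1 with rfl | h1
  · exact h2
  · exact h.po.lt_trans h1 h2

lemma step_dn (h : Two R side X e) {x y z : α} (h2 : lt R x y) (h1 : z = y ∨ lt R y z) :
    lt R x z := by
  rcases h1 with rfl | h1
  · exact h2
  · exact h.po.lt_trans h2 h1

lemma cov_chain_up (h : Two R side X e) {z a b c : α} (h1 : lt R z a) (h2 : lt R a b)
    (h3 : lt R b c) : ∃ a' b' c', cov R z a' ∧ cov R a' b' ∧ cov R b' c' ∧
      (c' = c ∨ lt R c' c) := by
  obtain ⟨a', ha, ha'⟩ := h.po.exists_cov_up h1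
  obtain ⟨b', hb, hb'⟩ := h.po.exists_cov_up (h.step_up ha' h2)
  obtain ⟨c', hc, hc'⟩ := h.po.exists_cov_up (h.step_up hb' h3)
  exact ⟨a', b', c', ha, hb, hc, hc'⟩

lemma cov_chain_dn (h : Two R side X e) {z a b c : α} (h1 : lt R a b) (h2 : lt R b c)
    (h3 : lt R c z) : ∃ a' b' c', cov R a' b' ∧ cov R b' c' ∧ cov R c' z := by
  obtain ⟨c', hc, hc'⟩ := h.po.exists_cov_dn h3
  obtain ⟨b', hb, hb'⟩ := h.po.exists_cov_dn (h.step_dn h2 hc')
  obtain ⟨a', ha, ha'⟩ := h.po.exists_cov_dn (h.step_dn h1 hb')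
  exact ⟨a', b', c', ha, hb, hc⟩

lemma no5 (h : Two R side X e) {a b c d f : α} (h1 : lt R a b) (h2 : lt R b c) (h3 : lt R c d)
    (h4 : lt R d f) : False := by
  obtain ⟨b', c', d', hb, hc, hd, hd'⟩ := h.cov_chain_up h1 h2 h3
  obtain ⟨f', hf, -⟩ := h.po.exists_cov_up (h.step_up hd' h4)
  have k1 := (h.chain4 hb hc hd).2
  have k2 := h.p4d d' f' hf
  have s1 := h.side_cov hd
  have s2 := h.side_cov hf
  have s3 : side f' = side c' := by rw [s2, s1]; simp
  rw [s3] at k2
  have k3 := card_sdiff_add_card_inter (X (side c')) (below R d')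
  have k4 := h.p3 (side c')
  omega

lemma same_start (h : Two R side X e) {a b c d a' b' c' d' : α} (hab : cov R a b)
    (hbc : cov R b c) (hcd : cov R c d) (hab' : cov R a' b') (hbc' : cov R b' c')
    (hcd' : cov R c' d') : side a' = side a := by
  by_contra hs
  have s1 := h.side_cov hab
  have t1 := h.side_cov hab'
  have t2 := h.side_cov hbc'
  have t3 := h.side_cov hcd'
  have u1 : side c' = side b := by
    rw [t2, t1, s1]; revert hs; cases side a <;> cases side a' <;> simp
  have u2 : side d' = side a := by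
    rw [t3, u1, s1]; simp
  have k1 := (h.chain4 hab hbc hcd).1
  have k2 := (h.chain4 hab' hbc' hcd').2
  rw [u1] at k2
  have k3 := h.p3 (side b)
  have k4 := card_le_cover3 (A := X (side b)) (B := X (side b) \ above R a)
    (C := X (side b) \ below R d') (D := X (side b) ∩ (above R a ∩ below R d')) (fun z hz => by
      simp only [mem_inter, mem_sdiff]; tauto)
  have n1 : b ≠ a := fun hh => hab.1.2 hh.symm
  have n2 : b ≠ d' := by
    rintro rfl
    rw [u2] at s1; revert s1; cases side a <;> simp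
  obtain ⟨y, hy1, hy2, hy3⟩ := h.p6b b a d' n1 n2 (by omega)
  have sy : side y = side a := by rw [h.p1 b y hy3, s1]; simp
  obtain ⟨m, hm1, hm2⟩ := h.mid_of_same hy1 sy.symm
  obtain ⟨m', hm3, hm4⟩ := h.mid_of_same hy2 (by rw [sy, u2])
  exact h.no5 hm1 hm2 hm3 hm4

lemma irr_side (h : Two R side X e) (s : Bool) :
    irr R ⊆ univ.filter (fun v => side v = s) ∨ irr R ⊆ (univ.filter (fun v => side v = s))ᶜ := by
  by_cases hs : ∃ x, ¬ R x x ∧ side x = s
  · obtain ⟨x, hx, hxs⟩ := hs
    left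
    intro y hy
    simp only [mem_filter, mem_univ, true_and]
    rw [← hxs]; exact h.p8 y x (mem_irr.1 hy) hx
  · right
    intro y hy
    simp only [mem_compl, mem_filter, mem_univ, true_and]
    exact fun hh => hs ⟨y, mem_irr.1 hy, hh⟩

lemma shape_no4 (h : Two R side X e)
    (hno : ∀ a b c d, lt R a b → lt R b c → lt R c d → False) :
    ∃ A O, O ⊆ A ∧ Shape R A O := by
  have key : ∀ dx x ux dy y uy, cov R dx x → cov R x ux → cov R dy y → cov R y uy →
      side y = side x := by
    intro dx x ux dy y uy h1 h2 h3 h4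
    by_contra hs
    have s1 := h.side_cov h1
    have s2 := h.side_cov h2
    have s3 := h.side_cov h3
    have s4 := h.side_cov h4
    have t1 : side uy = side x := by
      rw [s4]; revert hs; cases side x <;> cases side y <;> simp
    have t2 : side dy = side x := by
      revert hs s3; cases side x <;> cases side y <;> cases side dy <;> simp
    have k1 := h.p5 dx x ux h1 h2
    have k2 := h.p3 (side x)
    have k3 := card_le_cover3 (A := X (side x)) (B := X (side x) \ (above R dx ∪ below R ux))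
      (C := X (side x) ∩ above R dx) (D := X (side x) ∩ below R ux) (fun z hz => by
        simp only [mem_inter, mem_sdiff, mem_union]; tauto)
    by_cases hc : 26 * e + 1 < (X (side x) ∩ above R dx).card
    · have n1 : uy ≠ dx := by
        rintro rfl
        rw [t1] at s1; revert s1; cases side x <;> simp
      obtain ⟨b, hb1, hb2⟩ := h.p6u uy dx n1 (by rw [t1]; exact hc)
      have sb : side dx = side b := by
        rw [h.p1 uy b hb2, t1, s1]; simp
      obtain ⟨m, hm1, hm2⟩ := h.mid_of_same hb1 sb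
      rcases hb2 with hb2 | hb2
      · exact hno _ _ _ _ h3.1 h4.1 hb2.1
      · exact hno _ _ _ _ hm1 hm2 hb2.1
    · have hc' : 26 * e + 1 < (X (side x) ∩ below R ux).card := by omega
      have n1 : dy ≠ ux := by
        rintro rfl
        rw [t2] at s2; revert s2; cases side x <;> simp
      obtain ⟨b, hb1, hb2⟩ := h.p6d dy ux n1 (by rw [t2]; exact hc')
      have sb : side b = side ux := by
        rw [h.p1 dy b hb2, t2, s2]
      obtain ⟨m, hm1, hm2⟩ := h.mid_of_same hb1 sb
      rcases hb2 with hb2 | hb2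
      · exact hno _ _ _ _ hb2.1 hm1 hm2
      · exact hno _ _ _ _ hb2.1 h3.1 h4.1
  obtain ⟨s, hs⟩ : ∃ s : Bool, ∀ d v u, cov R d v → cov R v u → side v ≠ s := by
    by_cases hM : ∃ d v u, cov R d v ∧ cov R v u
    · obtain ⟨d0, v0, u0, h1, h2⟩ := hM
      refine ⟨!side v0, fun d v u h3 h4 => ?_⟩
      rw [key d0 v0 u0 d v u h1 h2 h3 h4]
      cases side v0 <;> simp
    · exact ⟨true, fun d v u h3 h4 => absurd ⟨d, v, u, h3, h4⟩ hM⟩
  refine ⟨univ.filter (fun v => side v = s),
    univ.filter (fun v => side v = s ∧ ∀ d, ¬ cov R d v), ?_, h.irr_side s, ?_⟩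
  · intro v hv
    simp only [mem_filter, mem_univ, true_and] at hv ⊢
    exact hv.1
  · intro x y hxy
    have s1 := h.side_cov hxy
    simp only [mem_filter, mem_univ, true_and]
    by_cases hx : side x = s
    · left
      refine ⟨hx, ?_, Or.inl ⟨hx, fun d hd => hs d x y hd hxy hx⟩⟩
      rw [s1, hx]; cases s <;> simp
    · right
      refine ⟨hx, ?_, fun hh => hx hh.1, fun hh => hh.2 x hxy⟩
      rw [s1]; revert hx; cases s <;> cases side x <;> simp

lemma shape_4 (h : Two R side X e) {a b c d : α} (hab : cov R a b) (hbc : cov R b c)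
    (hcd : cov R c d) : ∃ A O, O.card ≤ 148 * e + 2 ∧ Shape R A O := by
  have s1 := h.side_cov hab
  have s2 := h.side_cov hbc
  have s3 := h.side_cov hcd
  have sd : side d = side b := by rw [s3, s2]; simp
  have sc : side c = side a := by rw [s2, s1]; simp
  obtain ⟨k1, k2⟩ := h.chain4 hab hbc hcd
  have hD : ∀ z ∈ st4 R, side z = side a ∧ ∀ w, ¬ lt R w z := by
    intro z hz
    obtain ⟨a1, b1, c1, h1, h2, h3⟩ := mem_st4.1 hz
    obtain ⟨a', b', c', h4, h5, h6, -⟩ := h.cov_chain_up h1 h2 h3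
    exact ⟨h.same_start hab hbc hcd h4 h5 h6, fun w hw => h.no5 hw h1 h2 h3⟩
  have hT : ∀ z ∈ en4 R, side z = side b ∧ ∀ w, ¬ lt R z w := by
    intro z hz
    obtain ⟨a1, b1, c1, h1, h2, h3⟩ := mem_en4.1 hz
    obtain ⟨a', b', c', h4, h5, h6⟩ := h.cov_chain_dn h1 h2 h3
    refine ⟨?_, fun w hw => h.no5 h1 h2 h3 hw⟩
    rw [h.side_cov h6, h.side_cov h5, h.side_cov h4, h.same_start hab hbc hcd h4 h5 h6, s1]
    simp
  have ha4 : a ∈ st4 R := mem_st4.2 ⟨b, c, d, hab.1, hbc.1, hcd.1⟩
  have hd4 : d ∈ en4 R := mem_en4.2 ⟨a, b, c, hab.1, hbc.1, hcd.1⟩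
  have hXb : X (side b) = (X (side a))ᶜ := by rw [s1, h.p2]
  have cD : (st4 R).card ≤ 74 * e + 1 := by
    have h1 := h.p7u a (hD a ha4).2 (fun z hz hadj => by
      have := h.p1 a z hadj
      rw [(hD z hz).1] at this
      revert this; cases side a <;> simp)
    have h2 := card_le_cover2 (A := st4 R) (B := X (side a) ∩ st4 R)
      (C := X (side b) \ above R a) (fun z hz => by
        have := (hD z hz).2 a
        simp only [hXb, mem_inter, mem_sdiff, mem_compl, mem_above]; tauto)
    omega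
  have cT : (en4 R).card ≤ 74 * e + 1 := by
    have h1 := h.p7d d (hT d hd4).2 (fun z hz hadj => by
      have := h.p1 d z hadj
      rw [(hT z hz).1, sd] at this
      revert this; cases side b <;> simp)
    have h2 := card_le_cover2 (A := en4 R) (B := X (side d) ∩ en4 R)
      (C := X (side c) \ below R d) (fun z hz => by
        have := (hT z hz).2 d
        simp only [sd, sc, hXb, mem_inter, mem_sdiff, mem_compl, mem_below]; tauto)
    omega
  refine ⟨univ.filter (fun v => side v = side a), st4 R ∪ en4 R,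
    (card_union_le _ _).trans (by omega), h.irr_side _, ?_⟩
  intro x y hxy
  have t1 := h.side_cov hxy
  simp only [mem_filter, mem_univ, true_and, mem_union]
  by_cases hx : side x = side a
  · left
    have hy : side y = side b := by rw [t1, hx, s1]
    refine ⟨hx, by rw [t1, hx]; cases side a <;> simp, ?_⟩
    by_contra hno
    push Not at hno
    have k3 := h.p3 (side a)
    have k4 := h.p3 (side b)
    have k5 := card_sdiff_add_card_inter (X (side c)) (below R d)
    have k6 := card_sdiff_add_card_inter (X (side b)) (above R a)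
    have n1 : x ≠ d := by
      rintro rfl
      rw [sd, s1] at hx; revert hx; cases side a <;> simp
    have n2 : y ≠ a := by
      rintro rfl
      rw [s1] at hy; revert hy; cases side y <;> simp
    obtain ⟨z', hz1, hz2⟩ := h.p6d x d n1 (by rw [hx]; rw [sc] at k5 k2; omega)
    obtain ⟨z, hz3, hz4⟩ := h.p6u y a n2 (by rw [hy]; omega)
    have sz' : side z' = side d := by rw [h.p1 x z' hz2, hx, sd, s1]
    have sz : side a = side z := by rw [h.p1 y z hz4, hy, s1]; simp
    obtain ⟨m, hm1, hm2⟩ := h.mid_of_same hz1 sz'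
    obtain ⟨m', hm3, hm4⟩ := h.mid_of_same hz3 sz
    rcases hz2 with hz2 | hz2
    · exact hno.1.1 (mem_st4.2 ⟨z', m, d, hz2.1, hm1, hm2⟩)
    rcases hz4 with hz4 | hz4
    · have := h.same_start hab hbc hcd hz2 hxy hz4
      rw [sz', sd, s1] at this
      revert this; cases side a <;> simp
    · exact hno.2.2 (mem_en4.2 ⟨a, m', z, hm3, hm4, hz4.1⟩)
  · right
    have hy : side y = side a := by
      rw [t1]; revert hx; cases side a <;> cases side x <;> simp
    refine ⟨hx, hy, ?_, ?_⟩
    · rintro (hh | hh)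
      · exact hx (hD x hh).1
      · exact (hT x hh).2 y hxy.1
    · rintro (hh | hh)
      · exact (hD y hh).2 x hxy.1
      · have := (hT y hh).1
        rw [hy, s1] at this
        revert this; cases side a <;> simp

end Two

theorem Nice.shape {R : α → α → Prop} {q e : ℕ} (h : Nice R q e) :
    ∃ A O, (O ⊆ A ∨ O.card ≤ 148 * e + 2) ∧ Shape R A O := by
  obtain ⟨side, X, h2⟩ := h.exists_two
  by_cases h4 : ∃ a b c d, lt R a b ∧ lt R b c ∧ lt R c d
  · obtain ⟨a, b, c, d, h1, h3, h5⟩ := h4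
    obtain ⟨b', c', d', k1, k2, k3, -⟩ := h2.cov_chain_up h1 h3 h5
    obtain ⟨A, O, k4, k5⟩ := h2.shape_4 k1 k2 k3
    exact ⟨A, O, Or.inr k4, k5⟩
  · obtain ⟨A, O, k4, k5⟩ := h2.shape_no4 (fun a b c d h1 h3 h5 => h4 ⟨a, b, c, d, h1, h3, h5⟩)
    exact ⟨A, O, Or.inl k4, k5⟩

end Pool.Agent.MP_c00610_co

end
end

section

set_option linter.unusedSectionVars false

open Finset
open scoped Classical

noncomputable section
namespace Pool.Agent.MP_c00610_co

variable {α : Type} [Fintype α]

lemma card_le_of_cover {ρ ι β : Type} (B : Finset ρ) (Side : Finset ι) (T : ι → Finset β)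
    (F : ι → β → Finset ρ) (N M : ℝ) (hM : 0 ≤ M)
    (hcov : ∀ R ∈ B, ∃ s ∈ Side, ∃ t ∈ T s, R ∈ F s t)
    (hT : ∀ s ∈ Side, ((T s).card : ℝ) ≤ N)
    (hF : ∀ s ∈ Side, ∀ t ∈ T s, ((F s t).card : ℝ) ≤ M) :
    (B.card : ℝ) ≤ Side.card * N * M := by
  have h1 : B ⊆ Side.biUnion fun s => (T s).biUnion (F s) := by
    intro R hR
    obtain ⟨s, hs, t, ht, h⟩ := hcov R hR
    exact mem_biUnion.2 ⟨s, hs, mem_biUnion.2 ⟨t, ht, h⟩⟩
  have h2 : B.card ≤ ∑ s ∈ Side, ∑ t ∈ T s, (F s t).card :=
    (card_le_card h1).trans (card_biUnion_le.trans (sum_le_sum fun s _ => card_biUnion_le))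
  calc (B.card : ℝ) ≤ ∑ s ∈ Side, ∑ t ∈ T s, ((F s t).card : ℝ) := by exact_mod_cast h2
    _ ≤ ∑ s ∈ Side, N * M := by
        refine sum_le_sum fun s hs => ?_
        calc ∑ t ∈ T s, ((F s t).card : ℝ) ≤ ∑ t ∈ T s, M := sum_le_sum (hF s hs)
          _ = (T s).card * M := by simp
          _ ≤ N * M := mul_le_mul_of_nonneg_right (hT s hs) hM
    _ = Side.card * N * M := by simp [mul_assoc]

/-- subsets of size at most `k` -/
def small (α : Type) [Fintype α] (k : ℕ) : Finset (Finset α) := univ.filter fun Q => Q.card ≤ k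

@[simp] lemma mem_small {k : ℕ} {Q : Finset α} : Q ∈ small α k ↔ Q.card ≤ k := by
  simp [small]

lemma card_small_le_pow (k : ℕ) : (small α k).card ≤ (Fintype.card α + 1) ^ k := by
  induction k with
  | zero =>
    have : small α 0 ⊆ {∅} := by
      intro Q hQ
      simpa using hQ
    simpa using card_le_card this
  | succ k ih =>
    have h1 : small α (k + 1) ⊆ ((univ : Finset (Option α)) ×ˢ small α k).image
        (fun p => match p.1 with | none => p.2 | some a => insert a p.2) := by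
      intro Q hQ
      rw [mem_small] at hQ
      rcases Q.eq_empty_or_nonempty with rfl | ⟨a, ha⟩
      · exact mem_image.2 ⟨(none, ∅), by simp, rfl⟩
      · refine mem_image.2 ⟨(some a, Q.erase a), ?_, insert_erase ha⟩
        simp only [mem_product, mem_univ, mem_small, true_and]
        rw [card_erase_of_mem ha]; omega
    refine (card_le_card h1).trans (card_image_le.trans ?_)
    rw [card_product, card_univ, Fintype.card_option, pow_succ, mul_comm]
    exact Nat.mul_le_mul_right _ ih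

lemma card_small_le_entropy (k : ℕ) (t : ℝ) (h0 : 0 < t) (h1 : t ≤ 1) :
    ((small α k).card : ℝ) * t ^ k ≤ (1 + t) ^ Fintype.card α := by
  have h2 : (1 + t) ^ Fintype.card α = ∑ Q : Finset α, t ^ Q.card := by
    have := Finset.prod_one_add (s := (univ : Finset α)) (f := fun _ => t)
    simp only [prod_const, card_univ, powerset_univ] at this
    exact this
  rw [h2]
  calc ((small α k).card : ℝ) * t ^ k = ∑ Q ∈ small α k, t ^ k := by simp
    _ ≤ ∑ Q ∈ small α k, t ^ Q.card :=
        sum_le_sum fun Q hQ => pow_le_pow_of_le_one h0.le h1 (mem_small.1 hQ)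
    _ ≤ ∑ Q : Finset α, t ^ Q.card :=
        sum_le_sum_of_subset_of_nonneg (subset_univ _) fun Q _ _ => by positivity

/-- all idempotent relations -/
def idemAll (α : Type) [Fintype α] : Finset (α → α → Prop) := univ.filter fun R => Idem R

/-- non-antisymmetric idempotent relations -/
def B0 (α : Type) [Fintype α] : Finset (α → α → Prop) :=
  univ.filter fun R => Idem R ∧ ∃ x y, x ≠ y ∧ R x y ∧ R y x

lemma card_B0 : ((B0 α).card : ℝ) ≤ (Fintype.card α : ℝ) ^ 2 * I (Fintype.card α - 1) := by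
  have := card_le_of_cover (B0 α) (univ : Finset (α × α)) (fun s => idemOn ({s.2} : Finset α)ᶜ)
    (fun s t => univ.filter fun R => Idem R ∧ s.1 ≠ s.2 ∧ R s.1 s.2 ∧ R s.2 s.1 ∧ res {s.2} R = t)
    (I (Fintype.card α - 1)) 1 zero_le_one ?_ ?_ ?_
  · simpa [sq] using this
  · intro R hR
    simp only [B0, mem_filter, mem_univ, true_and] at hR
    obtain ⟨hI, x, y, hxy, h1, h2⟩ := hR
    refine ⟨(x, y), mem_univ _, res {y} R, res_mem_idemOn ?_, by simp [hI, hxy, h1, h2]⟩
    intro a b
    simp only [res, mem_singleton]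
    constructor
    · rintro ⟨hab, ha, hb⟩
      obtain ⟨c, h3, h4⟩ := (hI a b).1 hab
      by_cases hc : c = y
      · subst hc
        exact ⟨x, ⟨hI.tr _ _ _ h3 h2, ha, hxy⟩, hI.tr _ _ _ h1 h4, hxy, hb⟩
      · exact ⟨c, ⟨h3, ha, hc⟩, h4, hc, hb⟩
    · rintro ⟨c, h3, h4⟩
      exact ⟨hI.tr _ _ _ h3.1 h4.1, h3.2.1, h4.2.2⟩
  · intro s _
    have := card_idemOn_compl_le ({s.2} : Finset α)
    rw [card_singleton] at this
    exact_mod_cast this
  · intro s _ t _
    norm_cast
    rw [card_le_one]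
    intro R1 hR1 R2 hR2
    simp only [mem_filter, mem_univ, true_and] at hR1 hR2
    obtain ⟨x, y⟩ := s
    simp only at hR1 hR2
    have key : ∀ (S1 S2 : α → α → Prop), Idem S1 → S1 x y → S1 y x → Idem S2 → S2 x y → S2 y x →
        res {y} S1 = res {y} S2 → ∀ a b, S1 a b → S2 a b := by
      intro S1 S2 i1 p1 q1 i2 p2 q2 hres a b hab
      have hh : ∀ a b, a ≠ y → b ≠ y → S1 a b → S2 a b := by
        intro a b ha hb hab
        have : res {y} S2 a b := by rw [← hres]; exact ⟨hab, by simpa, by simpa⟩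
        exact this.1
      by_cases ha : a = y <;> by_cases hb : b = y
      · subst ha; subst hb; exact i2.tr _ _ _ q2 p2
      · subst ha
        exact i2.tr _ _ _ q2 (hh x b hR1.2.1 hb (i1.tr _ _ _ p1 hab))
      · subst hb
        exact i2.tr _ _ _ (hh a x ha hR1.2.1 (i1.tr _ _ _ hab q1)) p2
      · exact hh a b ha hb hab
    funext a b
    apply propext
    have hres : res {y} R1 = res {y} R2 := hR1.2.2.2.2.trans hR2.2.2.2.2.symm
    exact ⟨key R1 R2 hR1.1 hR1.2.2.1 hR1.2.2.2.1 hR2.1 hR2.2.2.1 hR2.2.2.2.1 hres a b,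
      key R2 R1 hR2.1 hR2.2.2.1 hR2.2.2.2.1 hR1.1 hR1.2.2.1 hR1.2.2.2.1 hres.symm a b⟩

/-- reflexive closure of the restriction -/
def rc (K : Finset α) (R : α → α → Prop) : α → α → Prop :=
  fun a b => a ∉ K ∧ b ∉ K ∧ (R a b ∨ a = b)

lemma rc_mem_idemOn {R : α → α → Prop} (h : PO R) (K : Finset α) : rc K R ∈ idemOn Kᶜ := by
  simp only [idemOn, mem_filter, mem_univ, true_and, mem_compl]
  refine ⟨fun a b => ⟨fun hab => ⟨a, ⟨hab.1, hab.1, Or.inr rfl⟩, hab⟩, ?_⟩,
    fun a b hab => ⟨hab.1, hab.2.1⟩⟩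
  rintro ⟨c, ⟨h1, h2, h3⟩, h4, h5, h6⟩
  refine ⟨h1, h5, ?_⟩
  rcases h3 with h3 | rfl
  · rcases h6 with h6 | rfl
    · exact Or.inl (h.tr _ _ _ h3 h6)
    · exact Or.inl h3
  · exact h6

lemma lt_iff_of_rc {R1 R2 : α → α → Prop} {K : Finset α} (h : rc K R1 = rc K R2) {a b : α}
    (ha : a ∉ K) (hb : b ∉ K) : lt R1 a b ↔ lt R2 a b := by
  have := congrFun (congrFun h a) b
  simp only [rc, ha, hb, not_false_eq_true, true_and, eq_iff_iff] at this
  unfold lt
  tauto

lemma diag_iff_of_irr {R1 R2 : α → α → Prop} (h : irr R1 = irr R2) (a : α) :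
    R1 a a ↔ R2 a a := by
  have : a ∈ irr R1 ↔ a ∈ irr R2 := by rw [h]
  simp only [mem_irr] at this
  tauto

/-- an antichain with too many homogeneous points -/
def B1 (α : Type) [Fintype α] (q e : ℕ) : Finset (α → α → Prop) :=
  univ.filter fun R => PO R ∧ ∃ Q, Antichain R Q ∧ Q.card = q ∧
    Fintype.card α + 2 * e < 2 * (Hom R Q).card

lemma card_B1 (q e : ℕ) : ((B1 α q e).card : ℝ) ≤
    ((Fintype.card α : ℝ) + 1) ^ q * 2 ^ Fintype.card α * 2 ^ Fintype.card α *
      I (Fintype.card α - q) *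
      (4 ^ Fintype.card α * (2 : ℝ) ^ ((q : ℝ) * (Fintype.card α / 2 - e))) := by
  have := card_le_of_cover (B1 α q e)
    (((small α q).filter fun Q => Q.card = q) ×ˢ (univ : Finset (Finset α)) ×ˢ
      (univ : Finset (Finset α)))
    (fun s => idemOn s.1ᶜ)
    (fun s t => univ.filter fun R => PO R ∧ Antichain R s.1 ∧ Hom R s.1 = s.2.1 ∧
      Fintype.card α + 2 * e < 2 * s.2.1.card ∧ irr R = s.2.2 ∧ rc s.1 R = t)
    (I (Fintype.card α - q))
    (4 ^ Fintype.card α * (2 : ℝ) ^ ((q : ℝ) * (Fintype.card α / 2 - e))) (by positivity) ?_ ?_ ?_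
  · refine this.trans ?_
    gcongr
    rw [card_product, card_product, card_univ, Fintype.card_finset]
    have h1 : ((small α q).filter fun Q => Q.card = q).card ≤ (Fintype.card α + 1) ^ q :=
      (card_filter_le _ _).trans (card_small_le_pow q)
    push_cast
    rw [← mul_assoc]
    gcongr
    exact_mod_cast h1
  · intro R hR
    simp only [B1, mem_filter, mem_univ, true_and] at hR
    obtain ⟨hP, Q, h1, h2, h3⟩ := hR
    exact ⟨(Q, Hom R Q, irr R), by simp [h2], rc Q R, rc_mem_idemOn hP Q, by simp [hP, h1, h3]⟩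
  · intro s hs
    simp only [mem_product, mem_filter] at hs
    have := card_idemOn_compl_le s.1
    rw [hs.1.2] at this
    exact_mod_cast this
  · rintro ⟨Q, H, S⟩ hs t _
    simp only [mem_product, mem_filter] at hs
    have hq : Q.card = q := hs.1.2
    by_cases hH : Fintype.card α + 2 * e < 2 * H.card
    swap
    · simp only [hH, false_and, and_false, filter_false, card_empty, Nat.cast_zero]
      positivity
    let opt : α → Finset (Finset α × Finset α) := fun z =>
      if z ∈ H then {(Q, ∅), (∅, Q), (∅, ∅)}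
      else (Q.powerset ×ˢ {∅}) ∪ ({∅} ×ˢ Q.powerset)
    have h1 : (univ.filter fun R : α → α → Prop => PO R ∧ Antichain R Q ∧ Hom R Q = H ∧
        Fintype.card α + 2 * e < 2 * H.card ∧ irr R = S ∧ rc Q R = t).card ≤
        (Fintype.piFinset opt).card := by
      refine card_le_card_of_injOn
        (fun R z => (Q.filter (fun u => lt R z u), Q.filter (fun u => lt R u z))) ?_ ?_
      · intro R hR
        simp only [coe_filter, mem_univ, true_and, Set.mem_ofPred_eq] at hR
        obtain ⟨hP, hA, hHom, -, -, -⟩ := hR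
        simp only [mem_coe, Fintype.mem_piFinset]
        intro z
        by_cases hz : z ∈ H
        · simp only [opt, hz, if_true, mem_insert, mem_singleton, Prod.mk.injEq]
          rw [← hHom, mem_Hom] at hz
          rcases hz.2 with h | h | h
          · left
            exact ⟨filter_true_of_mem h, filter_false_of_mem fun u hu => hP.lt_asymm (h u hu)⟩
          · right; left
            exact ⟨filter_false_of_mem fun u hu => hP.lt_asymm (h u hu), filter_true_of_mem h⟩
          · right; right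
            exact ⟨filter_false_of_mem fun u hu => (h u hu).1,
              filter_false_of_mem fun u hu => (h u hu).2⟩
        · simp only [opt, hz, if_false, mem_union, mem_product, mem_powerset, filter_subset,
            mem_singleton, true_and, and_true]
          by_contra hno
          push Not at hno
          obtain ⟨u, hu⟩ := hno.1
          obtain ⟨w, hw⟩ := hno.2
          rw [mem_filter] at hu hw
          exact hA u hu.1 w hw.1 (hP.lt_trans hu.2 hw.2)
      · intro R1 hR1 R2 hR2 hEq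
        simp only [coe_filter, mem_univ, true_and, Set.mem_ofPred_eq] at hR1 hR2
        refine rel_ext (fun a b => ?_) (diag_iff_of_irr (hR1.2.2.2.2.1.trans hR2.2.2.2.2.1.symm))
        by_cases hb : b ∈ Q
        · have := congrArg (fun p => b ∈ p.1) (congrFun hEq a)
          simpa [hb] using this
        by_cases ha : a ∈ Q
        · have := congrArg (fun p => a ∈ p.2) (congrFun hEq b)
          simpa [ha] using this
        exact lt_iff_of_rc (hR1.2.2.2.2.2.trans hR2.2.2.2.2.2.symm) ha hb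
    have h2 : (Fintype.piFinset opt).card ≤ 4 ^ Fintype.card α * (2 ^ q) ^ Hᶜ.card := by
      rw [Fintype.card_piFinset]
      calc ∏ z, (opt z).card ≤ ∏ z, (4 * if z ∈ Hᶜ then 2 ^ q else 1) := by
            refine prod_le_prod' fun z _ => ?_
            by_cases hz : z ∈ H
            · simp only [opt, hz, if_true, mem_compl, not_true, if_false]
              exact card_le_three.trans (by norm_num)
            · simp only [opt, hz, if_false, mem_compl, not_false_eq_true, if_true]
              refine (card_union_le _ _).trans ?_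
              simp only [card_product, card_powerset, card_singleton, hq]
              omega
        _ = 4 ^ Fintype.card α * (2 ^ q) ^ Hᶜ.card := by
            rw [prod_mul_distrib, prod_const, card_univ, prod_ite_mem, univ_inter, prod_const]
    have h3 : ((2 ^ q : ℝ)) ^ Hᶜ.card ≤ (2 : ℝ) ^ ((q : ℝ) * (Fintype.card α / 2 - e)) := by
      rw [← pow_mul, ← Real.rpow_natCast]
      apply Real.rpow_le_rpow_of_exponent_le (by norm_num)
      push_cast
      refine mul_le_mul_of_nonneg_left ?_ (by positivity)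
      have h4 := card_add_card_compl H
      have h5 : (H.card : ℝ) + Hᶜ.card = Fintype.card α := by exact_mod_cast h4
      have h6 : (Fintype.card α : ℝ) + 2 * e < 2 * H.card := by exact_mod_cast hH
      linarith
    calc _ ≤ ((4 ^ Fintype.card α * (2 ^ q) ^ Hᶜ.card : ℕ) : ℝ) := by exact_mod_cast h1.trans h2
      _ ≤ _ := by push_cast; gcongr

/-- few irreflexive points, and `v` of low degree -/
def Bs1 (v : α) (k g : ℕ) : Finset (α → α → Prop) :=
  univ.filter fun R => PO R ∧ (irr R).card ≤ k ∧ (upN R v).card ≤ g ∧ (dnN R v).card ≤ g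

lemma card_Bs1 (v : α) (k g : ℕ) : ((Bs1 v k g).card : ℝ) ≤
    (small α k).card * (small α g).card * (small α g).card * I (Fintype.card α - 1) := by
  have := card_le_of_cover (Bs1 v k g) (small α k ×ˢ small α g ×ˢ small α g)
    (fun _ => idemOn ({v} : Finset α)ᶜ)
    (fun s t => univ.filter fun R => PO R ∧ irr R = s.1 ∧ upN R v = s.2.1 ∧ dnN R v = s.2.2 ∧
      rc {v} R = t)
    (I (Fintype.card α - 1)) 1 zero_le_one ?_ ?_ ?_
  · simpa [card_product, mul_assoc] using this
  · intro R hR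
    simp only [Bs1, mem_filter, mem_univ, true_and] at hR
    obtain ⟨hP, h1, h2, h3⟩ := hR
    exact ⟨(irr R, upN R v, dnN R v), by simp [h1, h2, h3], rc {v} R, rc_mem_idemOn hP _,
      by simp [hP]⟩
  · intro s _
    have := card_idemOn_compl_le ({v} : Finset α)
    rw [card_singleton] at this
    exact_mod_cast this
  · intro s _ t _
    norm_cast
    rw [card_le_one]
    intro R1 hR1 R2 hR2
    simp only [mem_filter, mem_univ, true_and] at hR1 hR2
    refine det_of_res hR1.1 hR2.1 {v} (fun a b ha hb => ?_) (fun w hw => ?_) (fun w hw => ?_)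
      (diag_iff_of_irr (hR1.2.1.trans hR2.2.1.symm))
    · exact lt_iff_of_rc (hR1.2.2.2.2.trans hR2.2.2.2.2.symm) ha hb
    · rw [mem_singleton.1 hw, hR1.2.2.1, hR2.2.2.1]
    · rw [mem_singleton.1 hw, hR1.2.2.2.1, hR2.2.2.2.1]

/-- few irreflexive points, and a large antichain -/
def Bs2 (α : Type) [Fintype α] (k g : ℕ) : Finset (α → α → Prop) :=
  univ.filter fun R => PO R ∧ (irr R).card ≤ k ∧ ∃ J, Antichain R J ∧ g ≤ J.card

lemma card_Bs2 (k g : ℕ) : (Bs2 α k g).card * 2 ^ g ≤ (small α k).card * (idemAll α).card := by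
  set P := (Bs2 α k g).image (rc ∅) with hP
  have h1 : (Bs2 α k g).card ≤ (small α k).card * P.card := by
    refine card_le_mul_card_image (f := rc ∅) _ _ fun t _ => ?_
    refine card_le_card_of_injOn irr ?_ ?_
    · intro R hR
      simp only [Bs2, coe_filter, mem_filter, mem_univ, true_and, Set.mem_ofPred_eq] at hR
      simpa using hR.1.2.1
    · intro R1 hR1 R2 hR2 hEq
      simp only [coe_filter, Set.mem_ofPred_eq] at hR1 hR2
      exact rel_ext (fun a b => lt_iff_of_rc (hR1.2.trans hR2.2.symm) (by simp) (by simp))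
        (diag_iff_of_irr hEq)
  have h2 : 2 ^ g * P.card ≤ ((idemAll α).filter fun R => rc ∅ R ∈ P).card := by
    refine mul_card_image_le_card_of_maps_to (f := rc ∅) (fun R hR => (mem_filter.1 hR).2) _ ?_
    intro t ht
    obtain ⟨R, hR, rfl⟩ := mem_image.1 ht
    simp only [Bs2, mem_filter, mem_univ, true_and] at hR
    obtain ⟨hPO, -, J, hJ, hg⟩ := hR
    have h3 : 2 ^ g ≤ J.powerset.card := by
      rw [card_powerset]; exact Nat.pow_le_pow_right (by norm_num) hg
    refine h3.trans (card_le_card_of_injOn (fun T => fun a b => lt R a b ∨ (a = b ∧ a ∉ T)) ?_ ?_)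
    · intro T hT
      simp only [coe_powerset, Set.mem_preimage, Set.mem_powerset_iff, coe_subset] at hT
      have hrc : rc ∅ (fun a b => lt R a b ∨ (a = b ∧ a ∉ T)) = rc ∅ R := by
        funext a b
        simp only [rc, lt, notMem_empty, not_false_eq_true, true_and, eq_iff_iff]
        tauto
      simp only [idemAll, coe_filter, mem_filter, mem_univ, true_and, Set.mem_ofPred_eq, hrc, ht,
        and_true]
      intro a b
      constructor
      · intro hab
        by_cases ha : a ∈ T
        · by_cases hb : b ∈ T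
          · rcases hab with hab | hab
            · exact absurd hab (hJ a (hT ha) b (hT hb))
            · exact absurd ha hab.2
          · exact ⟨b, hab, Or.inr ⟨rfl, hb⟩⟩
        · exact ⟨a, Or.inr ⟨rfl, ha⟩, hab⟩
      · rintro ⟨c, h4 | ⟨rfl, h4⟩, h5 | ⟨rfl, h5⟩⟩
        · exact Or.inl (hPO.lt_trans h4 h5)
        · exact Or.inl h4
        · exact Or.inl h5
        · exact Or.inr ⟨rfl, h4⟩
    · intro T1 _ T2 _ hEq
      ext a
      have := congrFun (congrFun hEq a) a
      simp only [lt_irrefl', true_and, false_or, eq_iff_iff] at this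
      tauto
  have h3 : ((idemAll α).filter fun R => rc ∅ R ∈ P).card ≤ (idemAll α).card := card_filter_le _ _
  calc (Bs2 α k g).card * 2 ^ g ≤ (small α k).card * P.card * 2 ^ g := by gcongr
    _ = (small α k).card * (2 ^ g * P.card) := by ring
    _ ≤ _ := Nat.mul_le_mul_left _ (h2.trans h3)

end Pool.Agent.MP_c00610_co

end
end

section

set_option linter.unusedSectionVars false

open Finset
open scoped Classical

noncomputable section
namespace Pool.Agent.MP_c00610_co

variable {α : Type} [Fintype α]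

lemma candU_congr {R1 R2 : α → α → Prop} {K : Finset α} (h : res K R1 = res K R2) (q : ℕ)
    (Qu Qd : Finset α) : candU R1 q K Qu Qd = candU R2 q K Qu Qd := by
  rw [← candU_res R1, h, candU_res]

lemma candD_congr {R1 R2 : α → α → Prop} {K : Finset α} (h : res K R1 = res K R2) (q : ℕ)
    (Qu Qd : Finset α) : candD R1 q K Qu Qd = candD R2 q K Qu Qd := by
  rw [← candD_res R1, h, candD_res]

lemma lt_iff_of_res {R1 R2 : α → α → Prop} {K : Finset α} (h : res K R1 = res K R2) {a b : α}
    (ha : a ∉ K) (hb : b ∉ K) : lt R1 a b ↔ lt R2 a b := by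
  have h1 := lt_res (R := R1) (K := K) (a := a) (b := b)
  have h2 := lt_res (R := R2) (K := K) (a := a) (b := b)
  rw [h] at h1
  tauto

lemma diag_iff_of_res {R1 R2 : α → α → Prop} {K : Finset α} (h : res K R1 = res K R2) {a : α}
    (ha : a ∉ K) : R1 a a ↔ R2 a a := by
  have := congrFun (congrFun h a) a
  simpa [res, ha] using this

lemma exists_notMem_of_adm {Q K : Finset α} {q : ℕ} {v y : α} (hq : 1 ≤ q) (hQ : q < Q.card)
    (hv : v ∉ Q) (hK : K ⊆ {v, y}) : ∃ u ∈ Q, u ∉ K := by
  obtain ⟨u, hu, hu'⟩ := exists_mem_notMem_of_card_lt_card (s := {y}) (t := Q) (by simp; omega)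
  refine ⟨u, hu, fun huK => ?_⟩
  have := hK huK
  simp only [mem_insert, mem_singleton] at this hu'
  rcases this with rfl | rfl
  · exact hv hu
  · exact hu' rfl

lemma cov_transfer {R1 R2 : α → α → Prop} (h1 : PO R1) (h2 : PO R2) {K : Finset α}
    (h : res K R1 = res K R2) {q : ℕ} (hq : 1 ≤ q) {v y : α} (hK : K ⊆ {v, y})
    {Qu Qd : Finset α} (a1 : Adm R1 q v Qu Qd) (a2 : Adm R2 q v Qu Qd)
    (hn : ∀ z ∈ cand R1 q K Qu Qd, adj R1 v z → adj R2 v z) {z : α} (hz : z ∉ K) :
    (cov R1 v z → cov R2 v z) ∧ (cov R1 z v → cov R2 z v) := by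
  constructor
  · intro hc
    by_cases hQ : z ∈ Qu
    · exact mem_upN.1 (a2.su hQ)
    have k1 := a1.up_mem h1 K hc hQ hz
    rcases hn z (mem_cand.2 (Or.inl k1)) (Or.inl hc) with k2 | k2
    · exact k2
    exfalso
    rw [candU_congr h, mem_candU] at k1
    by_cases hQ' : z ∈ Qd
    · exact lt_irrefl' (k1.2.2.2 z hQ' hz)
    have k3 := mem_candD.1 (a2.dn_mem h2 K k2 hQ' hz)
    obtain ⟨u, hu, huK⟩ := exists_notMem_of_adm hq k1.1
      (fun hv => lt_irrefl' (mem_upN.1 (a1.su hv)).1) hK
    exact (k1.2.2.1 u hu huK).2.1 (k3.2.2.2 u hu huK)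
  · intro hc
    by_cases hQ : z ∈ Qd
    · exact mem_dnN.1 (a2.sd hQ)
    have k1 := a1.dn_mem h1 K hc hQ hz
    rcases hn z (mem_cand.2 (Or.inr k1)) (Or.inr hc) with k2 | k2
    swap
    · exact k2
    exfalso
    rw [candD_congr h, mem_candD] at k1
    by_cases hQ' : z ∈ Qu
    · exact lt_irrefl' (k1.2.2.2 z hQ' hz)
    have k3 := mem_candU.1 (a2.up_mem h2 K k2 hQ' hz)
    obtain ⟨u, hu, huK⟩ := exists_notMem_of_adm hq k1.1
      (fun hv => lt_irrefl' (mem_dnN.1 (a1.sd hv)).1) hK
    exact (k1.2.2.1 u hu huK).2.2 (k3.2.2.2 u hu huK)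

lemma cand_congr {R1 R2 : α → α → Prop} {K : Finset α} (h : res K R1 = res K R2) (q : ℕ)
    (Qu Qd : Finset α) : cand R1 q K Qu Qd = cand R2 q K Qu Qd := by
  unfold cand; rw [candU_congr h, candD_congr h]

lemma cov_transfer_iff {R1 R2 : α → α → Prop} (h1 : PO R1) (h2 : PO R2) {K : Finset α}
    (h : res K R1 = res K R2) {q : ℕ} (hq : 1 ≤ q) {v y : α} (hK : K ⊆ {v, y})
    {Qu Qd : Finset α} (a1 : Adm R1 q v Qu Qd) (a2 : Adm R2 q v Qu Qd)
    (hn : ∀ z ∈ cand R1 q K Qu Qd, adj R1 v z ↔ adj R2 v z) {z : α} (hz : z ∉ K) :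
    (cov R1 v z ↔ cov R2 v z) ∧ (cov R1 z v ↔ cov R2 z v) := by
  have k1 := cov_transfer h1 h2 h hq hK a1 a2 (fun z hz => (hn z hz).1) hz
  have k2 := cov_transfer h2 h1 h.symm hq hK a2 a1
    (fun z hz => (hn z (by rwa [cand_congr h])).2) hz
  tauto

/-- a vertex with too few candidate neighbours -/
def B4 (α : Type) [Fintype α] (q e : ℕ) : Finset (α → α → Prop) :=
  univ.filter fun R => PO R ∧ ∃ v Qu Qd, Adm R q v Qu Qd ∧ Idem (res {v} R) ∧
    ∃ W ∈ Wset (res {v} R), (∀ z ∈ W, ¬ adj R v z) ∧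
      2 * (cand R q {v} Qu Qd \ W).card + 2 * e < Fintype.card α

lemma card_B4 (q e : ℕ) (hq : 1 ≤ q) : ((B4 α q e).card : ℝ) ≤
    (Fintype.card α * ((Fintype.card α : ℝ) + 1) ^ (q + 1) * (Fintype.card α + 1) ^ (q + 1) * 2) *
      (I (Fintype.card α - 1) * (Fintype.card α + 2) ^ 2) *
      (2 : ℝ) ^ ((Fintype.card α : ℝ) / 2 - e) := by
  have := card_le_of_cover (B4 α q e)
    ((univ : Finset α) ×ˢ small α (q + 1) ×ˢ small α (q + 1) ×ˢ (univ : Finset Prop))
    (fun s => (idemOn ({s.1} : Finset α)ᶜ).biUnion fun t => (Wset t).image fun W => (t, W))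
    (fun s t => univ.filter fun R => PO R ∧ Adm R q s.1 s.2.1 s.2.2.1 ∧ (R s.1 s.1 ↔ s.2.2.2) ∧
      res {s.1} R = t.1 ∧ (∀ z ∈ t.2, ¬ adj R s.1 z) ∧
      2 * (cand t.1 q {s.1} s.2.1 s.2.2.1 \ t.2).card + 2 * e < Fintype.card α)
    (I (Fintype.card α - 1) * (Fintype.card α + 2) ^ 2)
    ((2 : ℝ) ^ ((Fintype.card α : ℝ) / 2 - e)) (by positivity) ?_ ?_ ?_
  · refine this.trans ?_
    gcongr
    simp only [card_product, card_univ, Fintype.card_prop]
    have h1 : ((small α (q + 1)).card : ℝ) ≤ (Fintype.card α + 1) ^ (q + 1) := by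
      exact_mod_cast card_small_le_pow (q + 1)
    push_cast
    rw [← mul_assoc, ← mul_assoc]
    gcongr
  · intro R hR
    simp only [B4, mem_filter, mem_univ, true_and] at hR
    obtain ⟨hP, v, Qu, Qd, ha, hI, W, hW, h1, h2⟩ := hR
    refine ⟨(v, Qu, Qd, R v v), by simp [ha.cu, ha.cd, em], (res {v} R, W), ?_, ?_⟩
    · exact mem_biUnion.2 ⟨res {v} R, res_mem_idemOn hI, mem_image.2 ⟨W, hW, rfl⟩⟩
    · simp only [mem_filter, mem_univ, true_and, cand_res]
      exact ⟨hP, ha, h1, h2⟩
  · intro s _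
    have h1 := card_idemOn_compl_le ({s.1} : Finset α)
    rw [card_singleton] at h1
    have h2 := card_biUnion_le_card_mul (idemOn ({s.1} : Finset α)ᶜ)
      (fun t => (Wset t).image fun W => (t, W)) ((Fintype.card α + 2) ^ 2)
      (fun t _ => card_image_le.trans (card_Wset_le t))
    have h3 := h2.trans (Nat.mul_le_mul_right _ h1)
    exact_mod_cast h3
  · rintro ⟨v, Qu, Qd, ρ⟩ _ ⟨t, W⟩ _
    simp only
    by_cases hs : 2 * (cand t q {v} Qu Qd \ W).card + 2 * e < Fintype.card α
    swap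
    · simp only [hs, and_false, filter_false, card_empty, Nat.cast_zero]
      positivity
    have h1 : (univ.filter fun R : α → α → Prop => PO R ∧ Adm R q v Qu Qd ∧ (R v v ↔ ρ) ∧
        res {v} R = t ∧ (∀ z ∈ W, ¬ adj R v z) ∧
        2 * (cand t q {v} Qu Qd \ W).card + 2 * e < Fintype.card α).card ≤
        (cand t q {v} Qu Qd \ W).powerset.card := by
      refine card_le_card_of_injOn (fun R => (cand t q {v} Qu Qd \ W).filter (adj R v)) ?_ ?_
      · intro R _
        exact mem_coe.2 (mem_powerset.2 (filter_subset _ _))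
      · intro R1 hR1 R2 hR2 hEq
        simp only [coe_filter, mem_univ, true_and, Set.mem_ofPred_eq] at hR1 hR2
        obtain ⟨p1, a1, r1, e1, w1, -⟩ := hR1
        obtain ⟨p2, a2, r2, e2, w2, -⟩ := hR2
        have hres : res {v} R1 = res {v} R2 := e1.trans e2.symm
        have hn : ∀ z ∈ cand R1 q {v} Qu Qd, adj R1 v z ↔ adj R2 v z := by
          intro z hz
          by_cases hzW : z ∈ W
          · exact ⟨fun hh => absurd hh (w1 z hzW), fun hh => absurd hh (w2 z hzW)⟩
          · have hz' : z ∈ cand t q {v} Qu Qd := by rw [← e1, cand_res]; exact hz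
            have := congrArg (fun S => z ∈ S) hEq
            simpa [hz', hzW] using this
        have key : ∀ z, (cov R1 v z ↔ cov R2 v z) ∧ (cov R1 z v ↔ cov R2 z v) := by
          intro z
          by_cases hzv : z = v
          · subst hzv
            simp [cov, lt_irrefl']
          · exact cov_transfer_iff p1 p2 hres hq (y := v) (by simp) a1 a2 hn (by simpa using hzv)
        refine det_of_res p1 p2 {v} (fun a b ha hb => lt_iff_of_res hres ha hb)
          (fun w hw => ?_) (fun w hw => ?_) (fun a => ?_)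
        · rw [mem_singleton.1 hw]; ext z; simp [(key z).1]
        · rw [mem_singleton.1 hw]; ext z; simp [(key z).2]
        · by_cases hav : a = v
          · rw [hav, r1, r2]
          · exact diag_iff_of_res hres (by simpa using hav)
    rw [card_powerset] at h1
    refine le_trans (by exact_mod_cast h1 : _ ≤ ((2 : ℝ) ^ (cand t q {v} Qu Qd \ W).card)) ?_
    rw [← Real.rpow_natCast]
    apply Real.rpow_le_rpow_of_exponent_le (by norm_num)
    have : (2 : ℝ) * (cand t q {v} Qu Qd \ W).card + 2 * e < Fintype.card α := by exact_mod_cast hs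
    linarith

/-- disjoint pairs of subsets -/
def dpairs (A B : Finset α) : Finset (Finset α × Finset α) :=
  (A.powerset ×ˢ B.powerset).filter fun p => Disjoint p.1 p.2

lemma card_dpairs (A B : Finset α) :
    ((dpairs A B).card : ℝ) ≤ 2 ^ A.card * 2 ^ B.card * (3 / 4) ^ (A ∩ B).card := by
  let opt : α → Finset (Prop × Prop) := fun z =>
    if z ∈ A then (if z ∈ B then {(True, False), (False, True), (False, False)}
      else {(True, False), (False, False)})
    else (if z ∈ B then {(False, True), (False, False)} else {(False, False)})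
  have h1 : (dpairs A B).card ≤ (Fintype.piFinset opt).card := by
    refine card_le_card_of_injOn (fun p z => (z ∈ p.1, z ∈ p.2)) ?_ ?_
    · rintro ⟨X, Y⟩ hp
      simp only [dpairs, coe_filter, mem_product, mem_powerset, Set.mem_ofPred_eq] at hp
      simp only [mem_coe, Fintype.mem_piFinset]
      intro z
      have k1 : z ∈ X → z ∈ A := fun h => hp.1.1 h
      have k2 : z ∈ Y → z ∈ B := fun h => hp.1.2 h
      have k3 : z ∈ X → z ∉ Y := fun h => disjoint_left.1 hp.2 h
      by_cases hA : z ∈ A <;> by_cases hB : z ∈ B <;> by_cases hX : z ∈ X <;>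
        by_cases hY : z ∈ Y <;> simp_all [opt]
    · rintro ⟨X, Y⟩ _ ⟨X', Y'⟩ _ hEq
      simp only [Prod.mk.injEq]
      constructor
      · ext z
        have := congrArg Prod.fst (congrFun hEq z)
        simpa using this
      · ext z
        have := congrArg Prod.snd (congrFun hEq z)
        simpa using this
  rw [Fintype.card_piFinset] at h1
  calc ((dpairs A B).card : ℝ) ≤ ∏ z, ((opt z).card : ℝ) := by exact_mod_cast h1
    _ ≤ ∏ z, ((if z ∈ A then (2 : ℝ) else 1) * (if z ∈ B then 2 else 1) *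
          (if z ∈ A ∩ B then 3 / 4 else 1)) := by
        refine prod_le_prod (fun z _ => by positivity) fun z _ => ?_
        by_cases hA : z ∈ A <;> by_cases hB : z ∈ B
        · simp only [opt, hA, hB, if_true, mem_inter, and_self]
          have : (({(True, False), (False, True), (False, False)} :
            Finset (Prop × Prop)).card : ℝ) ≤ 3 := by exact_mod_cast card_le_three
          linarith
        · simp only [opt, hA, hB, if_true, if_false, mem_inter, and_false]
          have : (({(True, False), (False, False)} : Finset (Prop × Prop)).card : ℝ) ≤ 2 := by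
            exact_mod_cast card_le_two
          linarith
        · simp only [opt, hA, hB, if_true, if_false, mem_inter, false_and]
          have : (({(False, True), (False, False)} : Finset (Prop × Prop)).card : ℝ) ≤ 2 := by
            exact_mod_cast card_le_two
          linarith
        · simp [opt, hA, hB]
    _ = _ := by
        rw [prod_mul_distrib, prod_mul_distrib, prod_ite_mem, prod_ite_mem, prod_ite_mem]
        simp only [univ_inter, prod_const]

/-- two vertices with almost no common neighbours but many common candidates -/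
def B5 (α : Type) [Fintype α] (q e : ℕ) : Finset (α → α → Prop) :=
  univ.filter fun R => PO R ∧
    (∀ Q, Antichain R Q → Q.card = q → 2 * (Hom R Q).card ≤ Fintype.card α + 2 * e) ∧
    ∃ x y, x ≠ y ∧ ∃ Qu Qd Pu Pd, Adm R q x Qu Qd ∧ Adm R q y Pu Pd ∧
    Idem (res {x, y} R) ∧ (nbr R x ∩ nbr R y).card ≤ 2 ∧
    10 * e < (cand R q {x} Qu Qd ∩ cand R q {y} Pu Pd).card

lemma cand_inter_sub {R : α → α → Prop} {q : ℕ} {x y : α} {Qu Qd Pu Pd : Finset α} :
    cand R q {x} Qu Qd ∩ cand R q {y} Pu Pd ⊆ cand R q {x, y} Qu Qd ∩ cand R q {x, y} Pu Pd := by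
  intro z hz
  simp only [mem_inter, mem_cand, mem_candU, mem_candD, mem_insert, mem_singleton] at hz ⊢
  have hx : z ≠ x := by tauto
  have hy : z ≠ y := by tauto
  constructor
  · rcases hz.1 with h | h
    · exact Or.inl ⟨h.1, by tauto, fun u hu hK => h.2.2.1 u hu (by tauto),
        fun u hu hK => h.2.2.2 u hu (by tauto)⟩
    · exact Or.inr ⟨h.1, by tauto, fun u hu hK => h.2.2.1 u hu (by tauto),
        fun u hu hK => h.2.2.2 u hu (by tauto)⟩
  · rcases hz.2 with h | h
    · exact Or.inl ⟨h.1, by tauto, fun u hu hK => h.2.2.1 u hu (by tauto),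
        fun u hu hK => h.2.2.2 u hu (by tauto)⟩
    · exact Or.inr ⟨h.1, by tauto, fun u hu hK => h.2.2.1 u hu (by tauto),
        fun u hu hK => h.2.2.2 u hu (by tauto)⟩

lemma card_B5 (q e : ℕ) (hq : 1 ≤ q) : ((B5 α q e).card : ℝ) ≤
    ((Fintype.card α : ℝ) ^ 2 * ((Fintype.card α : ℝ) + 1) ^ (4 * q + 6) * 16) *
      I (Fintype.card α - 2) * (2 : ℝ) ^ ((Fintype.card α : ℝ) - 2 * e) := by
  have := card_le_of_cover (B5 α q e)
    (((univ : Finset (α × α)).filter fun p => p.1 ≠ p.2) ×ˢ
      (small α (q + 1) ×ˢ small α (q + 1)) ×ˢ (small α (q + 1) ×ˢ small α (q + 1)) ×ˢ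
      small α 2 ×ˢ (univ : Finset ((Prop × Prop) × (Prop × Prop))))
    (fun s => idemOn ({s.1.1, s.1.2} : Finset α)ᶜ)
    (fun s t => univ.filter fun R => PO R ∧ Adm R q s.1.1 s.2.1.1 s.2.1.2 ∧
      Adm R q s.1.2 s.2.2.1.1 s.2.2.1.2 ∧ nbr R s.1.1 ∩ nbr R s.1.2 = s.2.2.2.1 ∧
      ((R s.1.1 s.1.1, R s.1.2 s.1.2), (cov R s.1.1 s.1.2, cov R s.1.2 s.1.1)) = s.2.2.2.2 ∧
      res {s.1.1, s.1.2} R = t ∧
      (cand t q {s.1.1, s.1.2} s.2.1.1 s.2.1.2).card +
        (cand t q {s.1.1, s.1.2} s.2.2.1.1 s.2.2.1.2).card ≤ Fintype.card α + 2 * e ∧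
      10 * e ≤ (cand t q {s.1.1, s.1.2} s.2.1.1 s.2.1.2 ∩
        cand t q {s.1.1, s.1.2} s.2.2.1.1 s.2.2.1.2).card)
    (I (Fintype.card α - 2))
    ((2 : ℝ) ^ ((Fintype.card α : ℝ) - 2 * e)) (by positivity) ?_ ?_ ?_
  · refine this.trans ?_
    gcongr
    simp only [card_product, card_univ, Fintype.card_prod, Fintype.card_prop]
    have h1 : ((small α (q + 1)).card : ℝ) ≤ (Fintype.card α + 1) ^ (q + 1) := by
      exact_mod_cast card_small_le_pow (q + 1)
    have h2 : ((small α 2).card : ℝ) ≤ (Fintype.card α + 1) ^ 2 := by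
      exact_mod_cast card_small_le_pow 2
    have h3 : ((((univ : Finset (α × α)).filter fun p => p.1 ≠ p.2).card : ℝ)) ≤
        (Fintype.card α : ℝ) ^ 2 := by
      have := card_filter_le (univ : Finset (α × α)) (fun p => p.1 ≠ p.2)
      rw [card_univ, Fintype.card_prod] at this
      rw [sq]; exact_mod_cast this
    push_cast
    calc _ ≤ (Fintype.card α : ℝ) ^ 2 * (((Fintype.card α + 1) ^ (q + 1) *
          (Fintype.card α + 1) ^ (q + 1)) * (((Fintype.card α + 1) ^ (q + 1) *
          (Fintype.card α + 1) ^ (q + 1)) * ((Fintype.card α + 1) ^ 2 * 16))) := by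
          gcongr
      _ = _ := by ring
  · intro R hR
    simp only [B5, mem_filter, mem_univ, true_and] at hR
    obtain ⟨hP, hom, x, y, hxy, Qu, Qd, Pu, Pd, ha, hb, hI, h1, h2⟩ := hR
    refine ⟨((x, y), (Qu, Qd), (Pu, Pd), nbr R x ∩ nbr R y,
      ((R x x, R y y), (cov R x y, cov R y x))), by simp [ha.cu, ha.cd, hb.cu, hb.cd, hxy, h1],
      res {x, y} R, res_mem_idemOn hI, ?_⟩
    simp only [mem_filter, mem_univ, true_and, cand_res]
    have k1 := card_cand_le hom ha {x, y} y (by simp)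
    have k2 := card_cand_le hom hb {x, y} x (by rw [pair_comm])
    have k3 := card_le_card (cand_inter_sub (R := R) (q := q) (x := x) (y := y) (Qu := Qu)
      (Qd := Qd) (Pu := Pu) (Pd := Pd))
    exact ⟨hP, ha, hb, by omega, by omega⟩
  · intro s hs
    simp only [mem_product, mem_filter] at hs
    have h1 := card_idemOn_compl_le ({s.1.1, s.1.2} : Finset α)
    rw [card_pair hs.1.2] at h1
    exact_mod_cast h1
  · rintro ⟨⟨x, y⟩, ⟨Qu, Qd⟩, ⟨Pu, Pd⟩, T, ρ⟩ _ t _
    simp only
    set A := cand t q {x, y} Qu Qd with hA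
    set B := cand t q {x, y} Pu Pd with hB
    by_cases hs : A.card + B.card ≤ Fintype.card α + 2 * e ∧ 10 * e ≤ (A ∩ B).card
    swap
    · simp only [hs, and_false, filter_false, card_empty, Nat.cast_zero]
      positivity
    have h1 : (univ.filter fun R : α → α → Prop => PO R ∧ Adm R q x Qu Qd ∧ Adm R q y Pu Pd ∧
        nbr R x ∩ nbr R y = T ∧ ((R x x, R y y), (cov R x y, cov R y x)) = ρ ∧
        res {x, y} R = t ∧ A.card + B.card ≤ Fintype.card α + 2 * e ∧
        10 * e ≤ (A ∩ B).card).card ≤ (dpairs A B).card := by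
      refine card_le_card_of_injOn (fun R => (A.filter (fun z => adj R x z ∧ z ∉ T),
        B.filter (fun z => adj R y z ∧ z ∉ T))) ?_ ?_
      · intro R hR
        simp only [coe_filter, mem_univ, true_and, Set.mem_ofPred_eq] at hR
        simp only [dpairs, coe_filter, mem_product, mem_powerset, filter_subset, true_and,
          Set.mem_ofPred_eq]
        rw [disjoint_left]
        intro z hz1 hz2
        rw [mem_filter] at hz1 hz2
        apply hz1.2.2
        rw [← hR.2.2.2.1]
        simp [hz1.2.1, hz2.2.1]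
      · intro R1 hR1 R2 hR2 hEq
        simp only [coe_filter, mem_univ, true_and, Set.mem_ofPred_eq] at hR1 hR2
        obtain ⟨p1, a1, b1, t1, r1, e1, -⟩ := hR1
        obtain ⟨p2, a2, b2, t2, r2, e2, -⟩ := hR2
        have hres : res {x, y} R1 = res {x, y} R2 := e1.trans e2.symm
        have hr := r1.trans r2.symm
        simp only [Prod.mk.injEq, eq_iff_iff] at hr hEq
        have hT : ∀ z ∈ T, (adj R1 x z ∧ adj R1 y z) ∧ (adj R2 x z ∧ adj R2 y z) := by
          intro z hz
          have k1 : z ∈ nbr R1 x ∩ nbr R1 y := by rw [t1]; exact hz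
          have k2 : z ∈ nbr R2 x ∩ nbr R2 y := by rw [t2]; exact hz
          simp only [mem_inter, mem_nbr] at k1 k2
          exact ⟨k1, k2⟩
        have hnx : ∀ z ∈ cand R1 q {x, y} Qu Qd, adj R1 x z ↔ adj R2 x z := by
          intro z hz
          by_cases hzT : z ∈ T
          · have := hT z hzT
            exact ⟨fun _ => this.2.1, fun _ => this.1.1⟩
          · have hz' : z ∈ A := by rw [hA, ← e1, cand_res]; exact hz
            have := congrArg (fun S => z ∈ S) hEq.1
            simpa [hz', hzT] using this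
        have hny : ∀ z ∈ cand R1 q {x, y} Pu Pd, adj R1 y z ↔ adj R2 y z := by
          intro z hz
          by_cases hzT : z ∈ T
          · have := hT z hzT
            exact ⟨fun _ => this.2.2, fun _ => this.1.2⟩
          · have hz' : z ∈ B := by rw [hB, ← e1, cand_res]; exact hz
            have := congrArg (fun S => z ∈ S) hEq.2
            simpa [hz', hzT] using this
        have keyx : ∀ z, (cov R1 x z ↔ cov R2 x z) ∧ (cov R1 z x ↔ cov R2 z x) := by
          intro z
          by_cases hzx : z = x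
          · subst hzx
            simp [cov, lt_irrefl']
          by_cases hzy : z = y
          · subst hzy
            exact hr.2
          exact cov_transfer_iff p1 p2 hres hq (y := y) (by simp) a1 a2 hnx (by simp [hzx, hzy])
        have keyy : ∀ z, (cov R1 y z ↔ cov R2 y z) ∧ (cov R1 z y ↔ cov R2 z y) := by
          intro z
          by_cases hzy : z = y
          · subst hzy
            simp [cov, lt_irrefl']
          by_cases hzx : z = x
          · subst hzx
            exact hr.2.symm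
          exact cov_transfer_iff p1 p2 hres hq (y := x) (by rw [pair_comm]) b1 b2 hny
            (by simp [hzx, hzy])
        refine det_of_res p1 p2 {x, y} (fun a b ha hb => lt_iff_of_res hres ha hb)
          (fun w hw => ?_) (fun w hw => ?_) (fun a => ?_)
        · simp only [mem_insert, mem_singleton] at hw
          rcases hw with rfl | rfl
          · ext z; simp [(keyx z).1]
          · ext z; simp [(keyy z).1]
        · simp only [mem_insert, mem_singleton] at hw
          rcases hw with rfl | rfl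
          · ext z; simp [(keyx z).2]
          · ext z; simp [(keyy z).2]
        · by_cases hax : a = x
          · rw [hax]; exact hr.1.1
          by_cases hay : a = y
          · rw [hay]; exact hr.1.2
          exact diag_iff_of_res hres (by simp [hax, hay])
    refine le_trans (by exact_mod_cast h1) ((card_dpairs A B).trans ?_)
    have k1 : (2 : ℝ) ^ A.card * 2 ^ B.card ≤ (2 : ℝ) ^ ((Fintype.card α : ℝ) + 2 * e) := by
      rw [← pow_add, ← Real.rpow_natCast]
      apply Real.rpow_le_rpow_of_exponent_le (by norm_num)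
      exact_mod_cast hs.1
    have k2 : ((3 : ℝ) / 4) ^ (A ∩ B).card ≤ (2 : ℝ) ^ (-(4 * e : ℝ)) := by
      calc ((3 : ℝ) / 4) ^ (A ∩ B).card ≤ ((3 : ℝ) / 4) ^ (10 * e) :=
            pow_le_pow_of_le_one (by norm_num) (by norm_num) hs.2
        _ = (((3 : ℝ) / 4) ^ 10) ^ e := by rw [pow_mul]
        _ ≤ (((2 : ℝ) ^ 4)⁻¹) ^ e := by gcongr; norm_num
        _ = (2 : ℝ) ^ (-(4 * e : ℝ)) := by
            rw [Real.rpow_neg (by norm_num), inv_pow, ← pow_mul, ← Real.rpow_natCast]
            push_cast; rfl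
    calc (2 : ℝ) ^ A.card * 2 ^ B.card * (3 / 4) ^ (A ∩ B).card
        ≤ (2 : ℝ) ^ ((Fintype.card α : ℝ) + 2 * e) * (2 : ℝ) ^ (-(4 * e : ℝ)) := by gcongr
      _ = _ := by rw [← Real.rpow_add (by norm_num)]; congr 1; ring

/-- layered relations -/
def Good (α : Type) [Fintype α] (k : ℕ) : Finset (α → α → Prop) :=
  univ.filter fun R => PO R ∧ ∃ A O, (O ⊆ A ∨ O.card ≤ k) ∧ Shape R A O

lemma card_Good (k : ℕ) : (Good α k).card ≤ ∑ A : Finset α,
    (2 ^ A.card + (small α k).card) * 2 ^ (A.card * Aᶜ.card) * (2 ^ A.card + 2 ^ Aᶜ.card) := by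
  have h1 : Good α k ⊆ univ.biUnion fun A : Finset α => univ.filter fun R =>
      PO R ∧ ∃ O, (O ⊆ A ∨ O.card ≤ k) ∧ Shape R A O := by
    intro R hR
    simp only [Good, mem_filter, mem_univ, true_and, mem_biUnion] at hR ⊢
    obtain ⟨hP, A, O, h⟩ := hR
    exact ⟨A, hP, O, h⟩
  refine (card_le_card h1).trans (card_biUnion_le.trans (sum_le_sum fun A _ => ?_))
  have h2 : (univ.filter fun R : α → α → Prop => PO R ∧ ∃ O, (O ⊆ A ∨ O.card ≤ k) ∧ Shape R A O)
      ⊆ (A.powerset ∪ small α k).biUnion fun O => univ.filter fun R => PO R ∧ Shape R A O := by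
    intro R hR
    simp only [mem_filter, mem_univ, true_and, mem_biUnion, mem_union, mem_powerset,
      mem_small] at hR ⊢
    obtain ⟨hP, O, h⟩ := hR
    exact ⟨O, h.1, hP, h.2⟩
  refine (card_le_card h2).trans ((card_biUnion_le_card_mul _ _
    (2 ^ (A.card * Aᶜ.card) * (2 ^ A.card + 2 ^ Aᶜ.card)) fun O _ => ?_).trans ?_)
  · have h3 : ((A ×ˢ Aᶜ).powerset ×ˢ (A.powerset ∪ Aᶜ.powerset)).card ≤
        2 ^ (A.card * Aᶜ.card) * (2 ^ A.card + 2 ^ Aᶜ.card) := by
      rw [card_product, card_powerset, card_product]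
      refine Nat.mul_le_mul_left _ ((card_union_le _ _).trans ?_)
      rw [card_powerset, card_powerset]
    refine le_trans (card_le_card_of_injOn
      (fun R => ((A ×ˢ Aᶜ).filter (fun p => adj R p.1 p.2), irr R)) ?_ ?_) h3
    · intro R hR
      simp only [coe_filter, mem_univ, true_and, Set.mem_ofPred_eq] at hR
      simp only [mem_coe, mem_product, mem_powerset, filter_subset, mem_union, true_and]
      exact hR.2.1
    · intro R1 hR1 R2 hR2 hEq
      simp only [coe_filter, mem_univ, true_and, Set.mem_ofPred_eq] at hR1 hR2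
      simp only [Prod.mk.injEq] at hEq
      have hadj : ∀ a b, a ∈ A → b ∉ A → (adj R1 a b ↔ adj R2 a b) := by
        intro a b ha hb
        have := congrArg (fun S => (a, b) ∈ S) hEq.1
        simpa [ha, hb] using this
      have key : ∀ S1 S2 : α → α → Prop, Shape S1 A O → Shape S2 A O →
          (∀ a b, a ∈ A → b ∉ A → adj S1 a b → adj S2 a b) → ∀ a b, cov S1 a b → lt S2 a b := by
        intro S1 S2 s1 s2 hh a b hab
        rcases s1.2 a b hab with h | h
        · rcases hh a b h.1 h.2.1 (Or.inl hab) with k | k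
          · exact k.1
          · have := s2.2 b a k
            tauto
        · rcases hh b a h.2.1 h.1 (Or.inr hab) with k | k
          · have := s2.2 b a k
            tauto
          · exact k.1
      exact det_of_cov hR1.1 hR2.1 (key R1 R2 hR1.2 hR2.2 fun a b ha hb => (hadj a b ha hb).1)
        (key R2 R1 hR2.2 hR1.2 fun a b ha hb => (hadj a b ha hb).2) (diag_iff_of_irr hEq.2)
  · rw [← mul_assoc]
    gcongr
    refine (card_union_le _ _).trans ?_
    rw [card_powerset]

/-- the cover of all idempotent relations -/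
lemma idemAll_subset (v : α) (q e g : ℕ) (hn : 250 * e + 10 < Fintype.card α) :
    idemAll α ⊆ B0 α ∪ B1 α q e ∪ Bs1 v (16 * e) g ∪ Bs2 α (16 * e) g ∪ B4 α q e ∪ B5 α q e ∪
      Good α (148 * e + 2) := by
  intro R hR
  simp only [idemAll, mem_filter, mem_univ, true_and] at hR
  by_contra hno
  simp only [mem_union, not_or] at hno
  obtain ⟨⟨⟨⟨⟨⟨h0, h1⟩, hs1⟩, hs2⟩, h4⟩, h5⟩, hg⟩ := hno
  have hP : PO R := by
    refine ⟨hR.tr, fun a b hab hba => ?_⟩
    by_contra hne
    exact h0 (by simp only [B0, mem_filter, mem_univ, true_and]; exact ⟨hR, a, b, hne, hab, hba⟩)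
  simp only [B1, Bs1, Bs2, B4, B5, Good, mem_filter, mem_univ, true_and, hP] at h1 hs1 hs2 h4 h5 hg
  push Not at h1 hs1 hs2 h4 h5
  have hN : Nice R q e := by
    refine ⟨hP, hR, h1, h4, fun x y hxy Qu Qd Pu Pd => h5 h1 x y hxy Qu Qd Pu Pd, ?_, hn⟩
    by_contra hS
    push Not at hS
    by_cases hu : (upN R v).card ≤ g
    · have := hs1 hS hu
      have := hs2 hS _ (antichain_dnN R v)
      omega
    · have := hs2 hS _ (antichain_upN R v)
      omega
  exact hg hN.shape

end Pool.Agent.MP_c00610_co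

end
end
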