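import Pool.Agent.Mg.Fc00610.G32f75a

section

set_option linter.unusedSectionVars false

open Finset
open scoped Classical

noncomputable section
namespace Pool.Agent.MP_c00610_co

variable {α : Type} [Fintype α]

def ltD (A O : Finset α) (E : Finset (α × α)) (x y : α) : Prop :=
  (x ∈ O ∧ y ∉ A ∧ (x, y) ∈ E) ∨ (x ∉ A ∧ y ∈ A ∧ y ∉ O ∧ (y, x) ∈ E) ∨
    (x ∈ O ∧ y ∈ A ∧ y ∉ O ∧ ∃ b, b ∉ A ∧ (x, b) ∈ E ∧ (y, b) ∈ E)

def mkRel (A O : Finset α) (E : Finset (α × α)) (S : Finset α) : α → α → Prop :=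
  fun x y => ltD A O E x y ∨ (x = y ∧ x ∉ S)

def Reg (A O : Finset α) (E : Finset (α × α)) : Prop :=
  (∀ b, b ∉ A → ∃ a ∈ O, (a, b) ∈ E) ∧ (∀ b, b ∉ A → ∃ a ∈ A, a ∉ O ∧ (a, b) ∈ E) ∧
    (∀ a ∈ A, ∃ b, b ∉ A ∧ (a, b) ∈ E)

lemma ltD_irrefl {A O : Finset α} {E : Finset (α × α)} (hO : O ⊆ A) (x : α) : ¬ ltD A O E x x := by
  rintro (h | h | h)
  · exact h.2.1 (hO h.1)
  · exact h.1 h.2.1
  · exact h.2.2.1 h.1

lemma ltD_trans {A O : Finset α} {E : Finset (α × α)} (hO : O ⊆ A) {x y z : α}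
    (h1 : ltD A O E x y) (h2 : ltD A O E y z) : ltD A O E x z := by
  rcases h1 with h1 | h1 | h1 <;> rcases h2 with h2 | h2 | h2
  · exact absurd (hO h2.1) h1.2.1
  · exact Or.inr (Or.inr ⟨h1.1, h2.2.1, h2.2.2.1, y, h1.2.1, h1.2.2, h2.2.2.2⟩)
  · exact absurd (hO h2.1) h1.2.1
  · exact absurd h2.1 h1.2.2.1
  · exact absurd h1.2.1 h2.1
  · exact absurd h2.1 h1.2.2.1
  · exact absurd h2.1 h1.2.2.1
  · exact absurd h1.2.1 h2.1
  · exact absurd h2.1 h1.2.2.1

lemma idem_mkRel {A O : Finset α} {E : Finset (α × α)} {S : Finset α} (hO : O ⊆ A)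
    (hS : S ⊆ A ∨ S ⊆ Aᶜ) : Idem (mkRel A O E S) := by
  intro x y
  constructor
  · intro h
    by_cases hx : x ∈ S
    swap
    · exact ⟨x, Or.inr ⟨rfl, hx⟩, h⟩
    by_cases hy : y ∈ S
    swap
    · exact ⟨y, h, Or.inr ⟨rfl, hy⟩⟩
    rcases h with h | h
    swap
    · exact absurd hx h.2
    rcases hS with hS | hS
    · rcases h with h | h | h
      · exact absurd (hS hy) h.2.1
      · exact absurd (hS hx) h.1
      · obtain ⟨h1, h2, h3, b, h4, h5, h6⟩ := h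
        exact ⟨b, Or.inl (Or.inl ⟨h1, h4, h5⟩), Or.inl (Or.inr (Or.inl ⟨h4, h2, h3, h6⟩))⟩
    · have hx' := mem_compl.1 (hS hx)
      have hy' := mem_compl.1 (hS hy)
      rcases h with h | h | h
      · exact absurd (hO h.1) hx'
      · exact absurd h.2.1 hy'
      · exact absurd h.2.1 hy'
  · rintro ⟨c, h1 | ⟨rfl, h1⟩, h2 | ⟨rfl, h2⟩⟩
    · exact Or.inl (ltD_trans hO h1 h2)
    · exact Or.inl h1
    · exact Or.inl h2
    · exact Or.inr ⟨rfl, h1⟩

lemma lt_mkRel {A O : Finset α} {E : Finset (α × α)} {S : Finset α} (hO : O ⊆ A) {x y : α} :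
    lt (mkRel A O E S) x y ↔ ltD A O E x y := by
  unfold lt mkRel
  constructor
  · rintro ⟨h | h, h'⟩
    · exact h
    · exact absurd h.1 h'
  · intro h
    exact ⟨Or.inl h, by rintro rfl; exact ltD_irrefl hO _ h⟩

lemma notMem_iff_mid {A O : Finset α} {E : Finset (α × α)} (hR : Reg A O E) (x : α) :
    x ∉ A ↔ ∃ y z, ltD A O E y x ∧ ltD A O E x z := by
  constructor
  · intro hx
    obtain ⟨a, ha, h1⟩ := hR.1 x hx
    obtain ⟨a', ha', h2, h3⟩ := hR.2.1 x hx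
    exact ⟨a, a', Or.inl ⟨ha, hx, h1⟩, Or.inr (Or.inl ⟨hx, ha', h2, h3⟩)⟩
  · rintro ⟨y, z, h1, h2⟩ hx
    have k1 : x ∉ O := by
      rcases h1 with h | h | h
      · exact absurd hx h.2.1
      · exact h.2.2.1
      · exact h.2.2.1
    rcases h2 with h | h | h
    · exact k1 h.1
    · exact h.1 hx
    · exact k1 h.1

lemma mem_O_iff {A O : Finset α} {E : Finset (α × α)} (hO : O ⊆ A) (hR : Reg A O E) (x : α) :
    x ∈ O ↔ x ∈ A ∧ ∃ z, ltD A O E x z := by
  constructor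
  · intro hx
    obtain ⟨b, h1, h2⟩ := hR.2.2 x (hO hx)
    exact ⟨hO hx, b, Or.inl ⟨hx, h1, h2⟩⟩
  · rintro ⟨hx, z, h | h | h⟩
    · exact h.1
    · exact absurd hx h.1
    · exact h.1

lemma mem_E_iff {A O : Finset α} {E : Finset (α × α)} (hO : O ⊆ A) (hE : E ⊆ A ×ˢ Aᶜ) (a b : α) :
    (a, b) ∈ E ↔ a ∈ A ∧ b ∉ A ∧ (ltD A O E a b ∨ ltD A O E b a) := by
  constructor
  · intro h
    have := hE h
    simp only [mem_product, mem_compl] at this
    refine ⟨this.1, this.2, ?_⟩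
    by_cases ha : a ∈ O
    · exact Or.inl (Or.inl ⟨ha, this.2, h⟩)
    · exact Or.inr (Or.inr (Or.inl ⟨this.2, this.1, ha, h⟩))
  · rintro ⟨ha, hb, h | h⟩
    · rcases h with h | h | h
      · exact h.2.2
      · exact absurd ha h.1
      · exact absurd h.2.1 hb
    · rcases h with h | h | h
      · exact absurd ha h.2.1
      · exact h.2.2.2
      · exact absurd (hO h.1) hb

def regs (A : Finset α) : Finset (Finset α × Finset (α × α)) :=
  (A.powerset ×ˢ (A ×ˢ Aᶜ).powerset).filter fun p => Reg A p.1 p.2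

lemma sum_regs_le : ∑ A : Finset α, (regs A).card * (A.powerset ∪ Aᶜ.powerset).card ≤
    (idemAll α).card := by
  have h1 : ((univ : Finset (Finset α)).sigma fun A => regs A ×ˢ (A.powerset ∪ Aᶜ.powerset)).card =
      ∑ A : Finset α, (regs A).card * (A.powerset ∪ Aᶜ.powerset).card := by
    rw [card_sigma]; simp only [card_product]
  rw [← h1]
  refine card_le_card_of_injOn (fun d => mkRel d.1 d.2.1.1 d.2.1.2 d.2.2) ?_ ?_
  · rintro ⟨A, ⟨O, E⟩, S⟩ hd
    simp only [regs, mem_coe, mem_sigma, mem_univ, mem_product, mem_filter, mem_powerset,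
      mem_union, true_and] at hd
    simp only [idemAll, coe_filter, mem_univ, true_and, Set.mem_ofPred_eq]
    exact idem_mkRel hd.1.1.1 hd.2
  · rintro ⟨A, ⟨O, E⟩, S⟩ hd ⟨A', ⟨O', E'⟩, S'⟩ hd' hEq
    simp only [regs, mem_coe, mem_sigma, mem_univ, mem_product, mem_filter, mem_powerset,
      mem_union, true_and] at hd hd'
    simp only at hEq
    have hlt : ∀ x y, ltD A O E x y ↔ ltD A' O' E' x y := by
      intro x y
      rw [← lt_mkRel (S := S) hd.1.1.1, ← lt_mkRel (S := S') hd'.1.1.1, hEq]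
    have hA : A = A' := by
      ext x
      rw [← not_iff_not, notMem_iff_mid hd.1.2, notMem_iff_mid hd'.1.2]
      simp only [hlt]
    subst hA
    have hO : O = O' := by
      ext x
      rw [mem_O_iff hd.1.1.1 hd.1.2, mem_O_iff hd'.1.1.1 hd'.1.2]
      simp only [hlt]
    subst hO
    have hE : E = E' := by
      ext ⟨a, b⟩
      rw [mem_E_iff hd.1.1.1 hd.1.1.2, mem_E_iff hd'.1.1.1 hd'.1.1.2]
      simp only [hlt]
    subst hE
    have hS : S = S' := by
      ext x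
      have := congrFun (congrFun hEq x) x
      simp only [mkRel, ltD_irrefl hd.1.1.1, true_and, false_or, eq_iff_iff] at this
      tauto
    subst hS
    rfl

lemma card_avoid {β : Type} [DecidableEq β] (P Z : Finset β) (hZ : Z ⊆ P) :
    ((P.powerset.filter fun E => Disjoint E Z).card : ℝ) = 2 ^ P.card * (1 / 2) ^ Z.card := by
  have h1 : (P.powerset.filter fun E => Disjoint E Z) = (P \ Z).powerset := by
    ext E
    simp only [mem_filter, mem_powerset, subset_sdiff]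
  rw [h1, card_powerset, card_sdiff_of_subset hZ]
  have h2 := card_le_card hZ
  obtain ⟨m, hm⟩ := Nat.exists_eq_add_of_le h2
  rw [hm, Nat.add_sub_cancel_left]
  push_cast
  rw [pow_add, one_div, inv_pow]
  field_simp

lemma card_avoid2 {β : Type} [DecidableEq β] (A : Finset α) (P : Finset β) (Z : Finset α → Finset β)
    (hZ : ∀ O ⊆ A, Z O ⊆ P) :
    (((A.powerset ×ˢ P.powerset).filter fun p => Disjoint p.2 (Z p.1)).card : ℝ) =
      2 ^ P.card * ∑ O ∈ A.powerset, (1 / 2) ^ (Z O).card := by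
  rw [card_eq_sum_ones, sum_filter, sum_product, mul_sum]
  push_cast
  refine sum_congr rfl fun O hO => ?_
  rw [← card_avoid P (Z O) (hZ O (mem_powerset.1 hO)), card_eq_sum_ones, sum_filter]
  push_cast
  rfl

lemma card_regs_ge (A : Finset α) :
    (2 : ℝ) ^ A.card * 2 ^ (A.card * Aᶜ.card) - 2 ^ (A.card * Aᶜ.card) *
      (2 * Aᶜ.card * (3 / 2) ^ A.card + A.card * (2 ^ A.card * (1 / 2) ^ Aᶜ.card)) ≤
      (regs A).card := by
  set U := A.powerset ×ˢ (A ×ˢ Aᶜ).powerset with hU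
  let U1 : α → Finset (Finset α × Finset (α × α)) := fun b =>
    U.filter fun p => Disjoint p.2 (p.1 ×ˢ {b})
  let U2 : α → Finset (Finset α × Finset (α × α)) := fun b =>
    U.filter fun p => Disjoint p.2 ((A \ p.1) ×ˢ {b})
  let U3 : α → Finset (Finset α × Finset (α × α)) := fun a =>
    U.filter fun p => Disjoint p.2 ({a} ×ˢ Aᶜ)
  have hcov : U ⊆ regs A ∪ Aᶜ.biUnion U1 ∪ Aᶜ.biUnion U2 ∪ A.biUnion U3 := by
    intro p hp
    by_contra hno
    simp only [mem_union, not_or, mem_biUnion, regs, mem_filter, ← hU, hp, true_and, U1, U2, U3,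
      mem_compl, not_exists, not_and, not_disjoint_iff] at hno
    obtain ⟨⟨⟨h0, h1⟩, h2⟩, h3⟩ := hno
    refine h0 ⟨fun b hb => ?_, fun b hb => ?_, fun a ha => ?_⟩
    · obtain ⟨⟨x, y⟩, k1, k2⟩ := h1 b hb
      simp only [mem_product, mem_singleton] at k2
      obtain ⟨k2, rfl⟩ := k2
      exact ⟨x, k2, k1⟩
    · obtain ⟨⟨x, y⟩, k1, k2⟩ := h2 b hb
      simp only [mem_product, mem_singleton, mem_sdiff] at k2
      obtain ⟨k2, rfl⟩ := k2
      exact ⟨x, k2.1, k2.2, k1⟩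
    · obtain ⟨⟨x, y⟩, k1, k2⟩ := h3 a ha
      simp only [mem_product, mem_singleton, mem_compl] at k2
      obtain ⟨rfl, k2⟩ := k2
      exact ⟨y, k2, k1⟩
  have hc : U.card ≤ (regs A).card + ∑ b ∈ Aᶜ, (U1 b).card + ∑ b ∈ Aᶜ, (U2 b).card +
      ∑ a ∈ A, (U3 a).card := by
    refine (card_le_card hcov).trans ((card_union_le _ _).trans ?_)
    gcongr
    · refine (card_union_le _ _).trans ?_
      gcongr
      · refine (card_union_le _ _).trans ?_
        gcongr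
        exact card_biUnion_le
      · exact card_biUnion_le
    · exact card_biUnion_le
  have hUc : (U.card : ℝ) = 2 ^ A.card * 2 ^ (A.card * Aᶜ.card) := by
    rw [hU, card_product, card_powerset, card_powerset, card_product]; push_cast; rfl
  have e1 : ∀ b ∈ Aᶜ, ((U1 b).card : ℝ) = 2 ^ (A.card * Aᶜ.card) * (3 / 2) ^ A.card := by
    intro b hb
    have := card_avoid2 A (A ×ˢ Aᶜ) (fun O => O ×ˢ {b})
      (fun O hO => product_subset_product hO (by simpa using hb))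
    simp only [U1, hU]
    rw [this, card_product]
    congr 1
    have h2 := Finset.prod_one_add (s := A) (f := fun _ => (1 / 2 : ℝ))
    simp only [prod_const] at h2
    simp only [card_product, card_singleton, mul_one]
    rw [← h2]; norm_num
  have e2 : ∀ b ∈ Aᶜ, ((U2 b).card : ℝ) = 2 ^ (A.card * Aᶜ.card) * (3 / 2) ^ A.card := by
    intro b hb
    have := card_avoid2 A (A ×ˢ Aᶜ) (fun O => (A \ O) ×ˢ {b})
      (fun O hO => product_subset_product sdiff_subset (by simpa using hb))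
    simp only [U2, hU]
    rw [this, card_product]
    congr 1
    have h2 := Finset.prod_add (fun _ : α => (1 : ℝ)) (fun _ => (1 / 2 : ℝ)) A
    simp only [prod_const, one_pow, one_mul] at h2
    simp only [card_product, card_singleton, mul_one]
    rw [← h2]; norm_num
  have e3 : ∀ a ∈ A, ((U3 a).card : ℝ) =
      2 ^ (A.card * Aᶜ.card) * (2 ^ A.card * (1 / 2) ^ Aᶜ.card) := by
    intro a ha
    have := card_avoid2 A (A ×ˢ Aᶜ) (fun _ => {a} ×ˢ Aᶜ)
      (fun O hO => product_subset_product (by simpa using ha) subset_rfl)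
    simp only [U3, hU]
    rw [this, card_product]
    congr 1
    simp
  have hc' : (U.card : ℝ) ≤ (regs A).card + ∑ b ∈ Aᶜ, ((U1 b).card : ℝ) +
      ∑ b ∈ Aᶜ, ((U2 b).card : ℝ) + ∑ a ∈ A, ((U3 a).card : ℝ) := by exact_mod_cast hc
  rw [sum_congr rfl e1, sum_congr rfl e2, sum_congr rfl e3, hUc] at hc'
  simp only [sum_const, nsmul_eq_mul] at hc'
  linarith

lemma card_Ss_ge (A : Finset α) :
    (2 : ℝ) ^ A.card + 2 ^ Aᶜ.card - 1 ≤ (A.powerset ∪ Aᶜ.powerset).card := by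
  have h1 := card_union_add_card_inter A.powerset Aᶜ.powerset
  have h2 : (A.powerset ∩ Aᶜ.powerset).card ≤ 1 := by
    rw [card_le_one_iff_subset_singleton]
    refine ⟨∅, fun S hS => ?_⟩
    simp only [mem_inter, mem_powerset] at hS
    rw [mem_singleton]
    by_contra hne
    obtain ⟨x, hx⟩ := nonempty_iff_ne_empty.2 hne
    exact mem_compl.1 (hS.2 hx) (hS.1 hx)
  rw [card_powerset, card_powerset] at h1
  have h3 : 2 ^ A.card + 2 ^ Aᶜ.card ≤ (A.powerset ∪ Aᶜ.powerset).card + 1 := by omega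
  have h4 : ((2 ^ A.card + 2 ^ Aᶜ.card : ℕ) : ℝ) ≤ ((A.powerset ∪ Aᶜ.powerset).card + 1 : ℕ) := by
    exact_mod_cast h3
  push_cast at h4
  linarith

/-- main term -/
def fT (a b : ℕ) : ℝ := 2 ^ a * 2 ^ (a * b) * (2 ^ a + 2 ^ b)

lemma err_le (a b : ℕ) : (2 : ℝ) ^ a * 2 ^ (a * b) + 2 ^ (a * b) *
    (2 * b * (3 / 2) ^ a + a * (2 ^ a * (1 / 2) ^ b)) * (2 ^ a + 2 ^ b) ≤
    (4 * (a + b) + 1) * (2 : ℝ) ^ (((a : ℝ) + b + 8 / 5) ^ 2 / 4 + 2) := by
  set M := (2 : ℝ) ^ (((a : ℝ) + b + 8 / 5) ^ 2 / 4 + 2) with hM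
  have ha : (0 : ℝ) ≤ a := Nat.cast_nonneg a
  have hb : (0 : ℝ) ≤ b := Nat.cast_nonneg b
  have key : ∀ x : ℝ, x ≤ ((a : ℝ) + b + 8 / 5) ^ 2 / 4 + 2 → (2 : ℝ) ^ x ≤ M := fun x hx =>
    Real.rpow_le_rpow_of_exponent_le (by norm_num) hx
  have p1 : (2 : ℝ) ^ a = (2 : ℝ) ^ (a : ℝ) := (Real.rpow_natCast _ _).symm
  have p2 : (2 : ℝ) ^ b = (2 : ℝ) ^ (b : ℝ) := (Real.rpow_natCast _ _).symm
  have p3 : (2 : ℝ) ^ (a * b) = (2 : ℝ) ^ ((a : ℝ) * b) := by
    rw [← Real.rpow_natCast]; push_cast; rfl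
  have p4 : (1 / 2 : ℝ) ^ b = (2 : ℝ) ^ (-(b : ℝ)) := by
    rw [Real.rpow_neg (by norm_num), Real.rpow_natCast, one_div, inv_pow]
  have p5 : (3 / 2 : ℝ) ^ a ≤ (2 : ℝ) ^ (3 / 5 * (a : ℝ)) := by
    rw [Real.rpow_mul (by norm_num), Real.rpow_natCast]
    gcongr
    have : (3 / 2 : ℝ) = ((3 / 2 : ℝ) ^ (5 : ℝ)) ^ (1 / 5 : ℝ) := by
      rw [← Real.rpow_mul (by norm_num)]; norm_num
    rw [this, show (3 / 5 : ℝ) = 3 * (1 / 5) by norm_num, Real.rpow_mul (by norm_num)]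
    gcongr
    norm_num
  have t0 : (2 : ℝ) ^ a * 2 ^ (a * b) ≤ M := by
    rw [p1, p3, ← Real.rpow_add (by norm_num)]
    apply key; nlinarith [sq_nonneg ((a : ℝ) - b - 1)]
  have t1 : (2 : ℝ) ^ (a * b) * (3 / 2) ^ a * 2 ^ a ≤ M := by
    calc _ ≤ (2 : ℝ) ^ (a * b) * (2 : ℝ) ^ (3 / 5 * (a : ℝ)) * 2 ^ a := by gcongr
      _ ≤ M := by
        rw [p1, p3, ← Real.rpow_add (by norm_num), ← Real.rpow_add (by norm_num)]
        apply key; nlinarith [sq_nonneg ((a : ℝ) - b - 8 / 5)]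
  have t2 : (2 : ℝ) ^ (a * b) * (3 / 2) ^ a * 2 ^ b ≤ M := by
    calc _ ≤ (2 : ℝ) ^ (a * b) * (2 : ℝ) ^ (3 / 5 * (a : ℝ)) * 2 ^ b := by gcongr
      _ ≤ M := by
        rw [p2, p3, ← Real.rpow_add (by norm_num), ← Real.rpow_add (by norm_num)]
        apply key; nlinarith [sq_nonneg ((a : ℝ) - b + 2 / 5)]
  have t3 : (2 : ℝ) ^ (a * b) * (2 ^ a * (1 / 2) ^ b) * 2 ^ a ≤ M := by
    rw [p1, p3, p4, ← Real.rpow_add (by norm_num), ← Real.rpow_add (by norm_num),
      ← Real.rpow_add (by norm_num)]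
    apply key; nlinarith [sq_nonneg ((a : ℝ) - b - 3)]
  have t4 : (2 : ℝ) ^ (a * b) * (2 ^ a * (1 / 2) ^ b) * 2 ^ b ≤ M := by
    rw [p1, p2, p3, p4, ← Real.rpow_add (by norm_num), ← Real.rpow_add (by norm_num),
      ← Real.rpow_add (by norm_num)]
    apply key; nlinarith [sq_nonneg ((a : ℝ) - b - 1)]
  have hM0 : 0 ≤ M := by positivity
  nlinarith [mul_le_mul_of_nonneg_left t1 hb, mul_le_mul_of_nonneg_left t2 hb,
    mul_le_mul_of_nonneg_left t3 ha, mul_le_mul_of_nonneg_left t4 ha, mul_nonneg ha hM0]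

lemma lower_bound : ∑ A : Finset α, fT A.card Aᶜ.card -
    2 ^ Fintype.card α * ((4 * Fintype.card α + 1) *
      (2 : ℝ) ^ (((Fintype.card α : ℝ) + 8 / 5) ^ 2 / 4 + 2)) ≤ (idemAll α).card := by
  have h1 : ((∑ A : Finset α, (regs A).card * (A.powerset ∪ Aᶜ.powerset).card : ℕ) : ℝ) ≤
      (idemAll α).card := by exact_mod_cast sum_regs_le
  refine le_trans ?_ h1
  push_cast
  have h2 : (2 : ℝ) ^ Fintype.card α * ((4 * Fintype.card α + 1) *
      (2 : ℝ) ^ (((Fintype.card α : ℝ) + 8 / 5) ^ 2 / 4 + 2)) =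
      ∑ _A : Finset α, ((4 * Fintype.card α + 1) *
      (2 : ℝ) ^ (((Fintype.card α : ℝ) + 8 / 5) ^ 2 / 4 + 2)) := by
    simp
  rw [h2, ← sum_sub_distrib]
  refine sum_le_sum fun A _ => ?_
  have k1 := card_regs_ge A
  have k2 := card_Ss_ge A
  have k3 := err_le A.card Aᶜ.card
  have k4 : (A.card : ℝ) + Aᶜ.card = Fintype.card α := by exact_mod_cast card_add_card_compl A
  rw [k4] at k3
  have k5 : (0 : ℝ) ≤ 2 ^ A.card + 2 ^ Aᶜ.card - 1 := by
    have : (1 : ℝ) ≤ 2 ^ A.card := one_le_pow₀ (by norm_num)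
    have : (0 : ℝ) ≤ 2 ^ Aᶜ.card := by positivity
    linarith
  have k6 := mul_le_mul_of_nonneg_right k1 k5
  have k7 := mul_le_mul_of_nonneg_left k2 (Nat.cast_nonneg (α := ℝ) (regs A).card)
  have k8 : (0 : ℝ) ≤ 2 ^ (A.card * Aᶜ.card) *
      (2 * Aᶜ.card * (3 / 2) ^ A.card + A.card * (2 ^ A.card * (1 / 2) ^ Aᶜ.card)) := by positivity
  unfold fT
  nlinarith

end Pool.Agent.MP_c00610_co

end
end

section

set_option linter.unusedSectionVars false

open Finset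
open scoped Classical

noncomputable section
namespace Pool.Agent.MP_c00610_co

lemma pw_le {a b : ℝ} (h : a ≤ b) : (2 : ℝ) ^ a ≤ 2 ^ b :=
  Real.rpow_le_rpow_of_exponent_le (by norm_num) h

lemma pw_add (a b : ℝ) : (2 : ℝ) ^ a * 2 ^ b = 2 ^ (a + b) :=
  (Real.rpow_add (by norm_num) a b).symm

lemma pw_nat (m : ℕ) : (2 : ℝ) ^ m = (2 : ℝ) ^ (m : ℝ) := (Real.rpow_natCast _ _).symm

lemma pw_pos (a : ℝ) : 0 < (2 : ℝ) ^ a := by positivity

lemma card_small_le_exp {α : Type} [Fintype α] (k s : ℕ) :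
    ((small α k).card : ℝ) ≤
      (2 : ℝ) ^ (3 / 2 * (1 / 2) ^ s * (Fintype.card α : ℝ) + s * k) := by
  have ht0 : (0 : ℝ) < (1 / 2) ^ s := by positivity
  have ht1 : ((1 : ℝ) / 2) ^ s ≤ 1 := pow_le_one₀ (by norm_num) (by norm_num)
  have h1 := card_small_le_entropy (α := α) k _ ht0 ht1
  have h2 : 1 + ((1 : ℝ) / 2) ^ s ≤ (2 : ℝ) ^ (3 / 2 * (1 / 2 : ℝ) ^ s) := by
    rw [Real.rpow_def_of_pos (by norm_num)]
    have := Real.add_one_le_exp (Real.log 2 * (3 / 2 * (1 / 2 : ℝ) ^ s))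
    have h3 := Real.log_two_gt_d9
    nlinarith
  have h3 : (1 + ((1 : ℝ) / 2) ^ s) ^ Fintype.card α ≤
      (2 : ℝ) ^ (3 / 2 * (1 / 2) ^ s * (Fintype.card α : ℝ)) := by
    rw [Real.rpow_mul (by norm_num), Real.rpow_natCast]
    gcongr
  have h4 : (((1 : ℝ) / 2) ^ s) ^ k * (2 : ℝ) ^ ((s : ℝ) * k) = 1 := by
    rw [← pow_mul, ← Nat.cast_mul, Real.rpow_natCast, ← mul_pow]; simp
  rw [← pw_add]
  calc ((small α k).card : ℝ) = (small α k).card * (((1 : ℝ) / 2) ^ s) ^ k *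
        (2 : ℝ) ^ ((s : ℝ) * k) := by rw [mul_assoc, h4, mul_one]
    _ ≤ _ := mul_le_mul_of_nonneg_right (h1.trans h3) (pw_pos _).le

/-- the main term -/
def fS (n : ℕ) : ℝ := ∑ a ∈ range (n + 1), n.choose a * fT a (n - a)

lemma sum_subsets {α : Type} [Fintype α] (φ : ℕ → ℕ → ℝ) :
    ∑ A : Finset α, φ A.card Aᶜ.card =
      ∑ a ∈ range (Fintype.card α + 1), (Fintype.card α).choose a * φ a (Fintype.card α - a) := by
  have := sum_powerset_apply_card (fun a => φ a (Fintype.card α - a)) (x := (univ : Finset α))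
  simp only [powerset_univ, card_univ, nsmul_eq_mul] at this
  rw [← this]
  exact sum_congr rfl fun A _ => by rw [card_compl]

/-- the crude scale -/
def F (n : ℕ) : ℝ := (2 : ℝ) ^ ((n : ℝ) ^ 2 / 4 + 2 * n)

lemma F_pos (n : ℕ) : 0 < F n := pw_pos _

def r (n : ℕ) : ℝ := I n / F n

lemma r_nonneg (n : ℕ) : 0 ≤ r n := div_nonneg (Nat.cast_nonneg _) (F_pos n).le

lemma I_sub (n k : ℕ) (hk : k ≤ n) :
    (I (n - k) : ℝ) = (2 : ℝ) ^ (-(k : ℝ) * n / 2 + (k : ℝ) ^ 2 / 4 - 2 * k) * (F n * r (n - k)) := by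
  have h1 : F (n - k) = (2 : ℝ) ^ (-(k : ℝ) * n / 2 + (k : ℝ) ^ 2 / 4 - 2 * k) * F n := by
    unfold F
    rw [pw_add, Nat.cast_sub hk]
    congr 1; ring
  rw [← mul_assoc, ← h1, r, mul_div_cancel₀ _ (F_pos _).ne']

/-- the error factor -/
def w (q n : ℕ) : ℝ :=
  ((n : ℝ) + 2) ^ (4 * q + 12) * (2 : ℝ) ^ ((q : ℝ) ^ 2 / 4 + 10 - n / 20000)

lemma w_pos (q n : ℕ) : 0 < w q n := by unfold w; positivity

lemma le_w (q n m : ℕ) (p x : ℝ) (hm : m ≤ 4 * q + 12) (hp : p ≤ ((n : ℝ) + 2) ^ m)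
    (hx : x ≤ (q : ℝ) ^ 2 / 4 + 10 - n / 20000) : p * (2 : ℝ) ^ x ≤ w q n := by
  unfold w
  have : (1 : ℝ) ≤ n + 2 := by linarith [Nat.cast_nonneg (α := ℝ) n]
  exact mul_le_mul (hp.trans (pow_le_pow_right₀ this hm)) (pw_le hx) (pw_pos _).le (by positivity)

lemma le_w' (q n : ℕ) (x : ℝ) (hx : x ≤ 10 - n / 20000) : (2 : ℝ) ^ x ≤ w q n := by
  have := le_w q n 0 1 x (by omega) (by simp) (by nlinarith [sq_nonneg (q : ℝ)])
  rwa [one_mul] at this

lemma sum_small_term {α : Type} [Fintype α] :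
    ∑ A : Finset α, (2 : ℝ) ^ (A.card * Aᶜ.card) * (2 ^ A.card + 2 ^ Aᶜ.card) ≤
      (2 : ℝ) ^ (5 / 4 - (Fintype.card α : ℝ) / 2) * F (Fintype.card α) := by
  have h1 : ∀ A : Finset α, (2 : ℝ) ^ (A.card * Aᶜ.card) * (2 ^ A.card + 2 ^ Aᶜ.card) ≤
      (2 : ℝ) ^ (((Fintype.card α : ℝ) + 1) ^ 2 / 4 + 1) := by
    intro A
    have k4 : (A.card : ℝ) + Aᶜ.card = Fintype.card α := by
      exact_mod_cast card_add_card_compl A
    rw [mul_add, pw_nat, pw_nat A.card, pw_nat Aᶜ.card, pw_add, pw_add, ← pw_add _ 1,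
      Real.rpow_one, mul_two]
    push_cast
    refine add_le_add (pw_le ?_) (pw_le ?_)
    · rw [← k4]; nlinarith [sq_nonneg ((A.card : ℝ) - Aᶜ.card - 1)]
    · rw [← k4]; nlinarith [sq_nonneg ((A.card : ℝ) - Aᶜ.card + 1)]
  refine (sum_le_sum fun A _ => h1 A).trans ?_
  simp only [sum_const, card_univ, Fintype.card_finset, nsmul_eq_mul]
  push_cast
  rw [pw_nat, pw_add, F, pw_add]
  apply pw_le
  nlinarith

lemma fT_le (a b : ℕ) : fT a b ≤ 3 * (2 : ℝ) ^ (((a : ℝ) + b) ^ 2 / 4 + (a + b)) := by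
  have k1 : (2 : ℝ) ^ a * 2 ^ (a * b) * 2 ^ a ≤
      (2 : ℝ) ^ (1 : ℝ) * (2 : ℝ) ^ (((a : ℝ) + b) ^ 2 / 4 + (a + b)) := by
    rw [pw_nat (_ * _), pw_nat a, pw_add, pw_add, pw_add]
    apply pw_le
    push_cast
    nlinarith [sq_nonneg ((a : ℝ) - b - 2)]
  have k2 : (2 : ℝ) ^ a * 2 ^ (a * b) * 2 ^ b ≤
      (2 : ℝ) ^ (((a : ℝ) + b) ^ 2 / 4 + (a + b)) := by
    rw [pw_nat (_ * _), pw_nat a, pw_nat b, pw_add, pw_add]
    apply pw_le
    push_cast
    nlinarith [sq_nonneg ((a : ℝ) - b)]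
  rw [Real.rpow_one] at k1
  unfold fT
  linarith

lemma fS_le (n : ℕ) : fS n ≤ 3 * F n := by
  have h1 : ∀ a ∈ range (n + 1), (n.choose a : ℝ) * fT a (n - a) ≤
      n.choose a * (3 * (2 : ℝ) ^ ((n : ℝ) ^ 2 / 4 + n)) := by
    intro a ha
    have h2 := fT_le a (n - a)
    rw [Nat.cast_sub (by simpa [Nat.lt_succ_iff] using ha), add_sub_cancel] at h2
    gcongr
  refine (sum_le_sum h1).trans ?_
  rw [← sum_mul]
  have h3 : ∑ a ∈ range (n + 1), (n.choose a : ℝ) = 2 ^ n := by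
    exact_mod_cast Nat.sum_range_choose n
  rw [h3, pw_nat, mul_left_comm, pw_add, F]
  apply le_of_eq
  congr 2; ring

lemma I_eq (n : ℕ) : I n = (idemAll (Fin n)).card := by
  unfold I idemAll
  congr 1
  ext R
  simp

lemma div_bounds (n m : ℕ) (hm : 0 < m) :
    (n : ℝ) / m - 1 ≤ (n / m : ℕ) ∧ ((n / m : ℕ) : ℝ) ≤ n / m := by
  refine ⟨?_, Nat.cast_div_le⟩
  have h1 := Nat.lt_mul_div_succ n hm
  have h2 : (n : ℝ) < m * ((n / m : ℕ) + 1) := by exact_mod_cast h1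
  have h3 : (0 : ℝ) < m := by exact_mod_cast hm
  rw [sub_le_iff_le_add, div_le_iff₀ h3]
  linarith

section
variable {α : Type} [Fintype α] {q n : ℕ}

lemma t0 (hc : Fintype.card α = n) (hn : 1 ≤ n) :
    ((B0 α).card : ℝ) ≤ w q n * (F n * r (n - 1)) := by
  have := card_B0 (α := α)
  rw [hc, I_sub n 1 hn, ← mul_assoc] at this
  refine this.trans (mul_le_mul_of_nonneg_right ?_ (mul_nonneg (F_pos _).le (r_nonneg _)))
  have hx : (0 : ℝ) ≤ n := Nat.cast_nonneg n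
  refine le_w q n 2 _ _ (by omega) (by gcongr; linarith) ?_
  push_cast
  nlinarith [sq_nonneg (q : ℝ)]

lemma t1 (hc : Fintype.card α = n) (hq : 100000 ≤ q) (hn : q ≤ n) :
    ((B1 α q (n / 20000)).card : ℝ) ≤ w q n * (F n * r (n - q)) := by
  have := card_B1 (α := α) q (n / 20000)
  rw [hc, I_sub n q hn, show (4 : ℝ) ^ n = 2 ^ n * 2 ^ n by rw [← mul_pow]; norm_num,
    pw_nat n] at this
  have he := (div_bounds n 20000 (by norm_num)).1
  generalize ((n / 20000 : ℕ) : ℝ) = e at *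
  refine this.trans ?_
  have hx : (0 : ℝ) ≤ n := Nat.cast_nonneg n
  have hqr : (100000 : ℝ) ≤ q := by exact_mod_cast hq
  calc _ = (((n : ℝ) + 1) ^ q * ((2 : ℝ) ^ (n : ℝ) * (2 : ℝ) ^ (n : ℝ) * (2 : ℝ) ^ (n : ℝ) *
        (2 : ℝ) ^ (n : ℝ) * (2 : ℝ) ^ (-(q : ℝ) * n / 2 + (q : ℝ) ^ 2 / 4 - 2 * q) *
        (2 : ℝ) ^ ((q : ℝ) * (n / 2 - e)))) * (F n * r (n - q)) := by ring
    _ ≤ _ := by
      refine mul_le_mul_of_nonneg_right ?_ (mul_nonneg (F_pos _).le (r_nonneg _))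
      rw [pw_add, pw_add, pw_add, pw_add, pw_add]
      refine le_w q n q _ _ (by omega) (by gcongr; linarith) ?_
      push_cast at he
      have k1 := mul_le_mul_of_nonneg_left he (by linarith : (0 : ℝ) ≤ q)
      have k2 := mul_le_mul_of_nonneg_right hqr hx
      linarith

lemma t2 (hc : Fintype.card α = n) (hn : 1 ≤ n) (v : α) :
    ((Bs1 v (16 * (n / 20000)) (n / 50)).card : ℝ) ≤ w q n * (F n * r (n - 1)) := by
  have := card_Bs1 v (16 * (n / 20000)) (n / 50)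
  have s1 := card_small_le_exp (α := α) (16 * (n / 20000)) 7
  have s2 := card_small_le_exp (α := α) (n / 50) 4
  rw [hc] at s1 s2
  rw [hc, I_sub n 1 hn, ← mul_assoc] at this
  refine this.trans (mul_le_mul_of_nonneg_right ?_ (mul_nonneg (F_pos _).le (r_nonneg _)))
  refine le_trans (mul_le_mul_of_nonneg_right (mul_le_mul (mul_le_mul s1 s2 (Nat.cast_nonneg _)
    (pw_pos _).le) s2 (Nat.cast_nonneg _) (by positivity)) (pw_pos _).le) ?_
  rw [pw_add, pw_add, pw_add]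
  apply le_w'
  have he := (div_bounds n 20000 (by norm_num)).2
  have hg := (div_bounds n 50 (by norm_num)).2
  have hx : (0 : ℝ) ≤ n := Nat.cast_nonneg n
  rw [Nat.cast_mul]
  generalize ((n / 20000 : ℕ) : ℝ) = e at *
  generalize ((n / 50 : ℕ) : ℝ) = g at *
  push_cast at he hg ⊢
  linarith

lemma t3 (hc : Fintype.card α = n) :
    ((Bs2 α (16 * (n / 20000)) (n / 50)).card : ℝ) ≤ w q n * (idemAll α).card := by
  have h1 := card_Bs2 (α := α) (16 * (n / 20000)) (n / 50)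
  have s1 := card_small_le_exp (α := α) (16 * (n / 20000)) 7
  rw [hc] at s1
  have h2 : ((Bs2 α (16 * (n / 20000)) (n / 50)).card : ℝ) * 2 ^ (n / 50) ≤
      (small α (16 * (n / 20000))).card * (idemAll α).card := by exact_mod_cast h1
  have h3 : (2 : ℝ) ^ (n / 50) * (2 : ℝ) ^ (-((n / 50 : ℕ) : ℝ)) = 1 := by
    rw [pw_nat, pw_add]; simp
  have h4 := mul_le_mul_of_nonneg_right h2 (pw_pos (-((n / 50 : ℕ) : ℝ))).le
  rw [mul_assoc, h3, mul_one, mul_right_comm] at h4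
  refine h4.trans (mul_le_mul_of_nonneg_right ?_ (Nat.cast_nonneg _))
  refine le_trans (mul_le_mul_of_nonneg_right s1 (pw_pos _).le) ?_
  rw [pw_add]
  apply le_w'
  have he := (div_bounds n 20000 (by norm_num)).2
  have hg := (div_bounds n 50 (by norm_num)).1
  have hx : (0 : ℝ) ≤ n := Nat.cast_nonneg n
  rw [Nat.cast_mul]
  generalize ((n / 20000 : ℕ) : ℝ) = e at *
  generalize ((n / 50 : ℕ) : ℝ) = g at *
  push_cast at he hg ⊢
  linarith

lemma t4 (hc : Fintype.card α = n) (hq : 1 ≤ q) (hn : 1 ≤ n) :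
    ((B4 α q (n / 20000)).card : ℝ) ≤ w q n * (F n * r (n - 1)) := by
  have := card_B4 (α := α) q (n / 20000) hq
  rw [hc, I_sub n 1 hn] at this
  have he := (div_bounds n 20000 (by norm_num)).1
  generalize ((n / 20000 : ℕ) : ℝ) = e at *
  refine this.trans ?_
  have hx : (0 : ℝ) ≤ n := Nat.cast_nonneg n
  calc _ = (((n : ℝ) * (n + 1) ^ (q + 1) * (n + 1) ^ (q + 1) * 2 * (n + 2) ^ 2) *
        ((2 : ℝ) ^ (-((1 : ℕ) : ℝ) * n / 2 + ((1 : ℕ) : ℝ) ^ 2 / 4 - 2 * (1 : ℕ)) *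
          (2 : ℝ) ^ ((n : ℝ) / 2 - e))) * (F n * r (n - 1)) := by ring
    _ ≤ _ := by
      refine mul_le_mul_of_nonneg_right ?_ (mul_nonneg (F_pos _).le (r_nonneg _))
      rw [pw_add]
      refine le_w q n (1 + (q + 1) + (q + 1) + 1 + 2) _ _ (by omega) ?_ ?_
      · calc _ ≤ ((n : ℝ) + 2) * (n + 2) ^ (q + 1) * (n + 2) ^ (q + 1) * (n + 2) * (n + 2) ^ 2 := by
              gcongr <;> linarith
          _ = _ := by ring
      · push_cast at he ⊢
        nlinarith [sq_nonneg (q : ℝ)]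

lemma t5 (hc : Fintype.card α = n) (hq : 1 ≤ q) (hn : 2 ≤ n) :
    ((B5 α q (n / 20000)).card : ℝ) ≤ w q n * (F n * r (n - 2)) := by
  have := card_B5 (α := α) q (n / 20000) hq
  rw [hc, I_sub n 2 hn] at this
  have he := (div_bounds n 20000 (by norm_num)).1
  generalize ((n / 20000 : ℕ) : ℝ) = e at *
  refine this.trans ?_
  have hx : (0 : ℝ) ≤ n := Nat.cast_nonneg n
  calc _ = (((n : ℝ) ^ 2 * (n + 1) ^ (4 * q + 6) * 2 ^ 4) *
        ((2 : ℝ) ^ (-((2 : ℕ) : ℝ) * n / 2 + ((2 : ℕ) : ℝ) ^ 2 / 4 - 2 * (2 : ℕ)) *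
          (2 : ℝ) ^ ((n : ℝ) - 2 * e))) * (F n * r (n - 2)) := by ring
    _ ≤ _ := by
      refine mul_le_mul_of_nonneg_right ?_ (mul_nonneg (F_pos _).le (r_nonneg _))
      rw [pw_add]
      refine le_w q n (2 + (4 * q + 6) + 4) _ _ (by omega) ?_ ?_
      · calc _ ≤ ((n : ℝ) + 2) ^ 2 * (n + 2) ^ (4 * q + 6) * (n + 2) ^ 4 := by
              gcongr <;> linarith
          _ = _ := by ring
      · push_cast at he ⊢
        nlinarith [sq_nonneg (q : ℝ)]

lemma t6 (hc : Fintype.card α = n) :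
    ((Good α (148 * (n / 20000) + 2)).card : ℝ) ≤ fS n + w q n * F n := by
  have h1 := card_Good (α := α) (148 * (n / 20000) + 2)
  have s3 := card_small_le_exp (α := α) (148 * (n / 20000) + 2) 4
  have h2 : ((Good α (148 * (n / 20000) + 2)).card : ℝ) ≤ ∑ A : Finset α,
      ((2 : ℝ) ^ A.card + (small α (148 * (n / 20000) + 2)).card) * 2 ^ (A.card * Aᶜ.card) *
        (2 ^ A.card + 2 ^ Aᶜ.card) := by exact_mod_cast h1
  refine h2.trans ?_
  have h3 : ∑ A : Finset α,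
      ((2 : ℝ) ^ A.card + (small α (148 * (n / 20000) + 2)).card) * 2 ^ (A.card * Aᶜ.card) *
        (2 ^ A.card + 2 ^ Aᶜ.card) = fS n + (small α (148 * (n / 20000) + 2)).card *
        ∑ A : Finset α, (2 : ℝ) ^ (A.card * Aᶜ.card) * (2 ^ A.card + 2 ^ Aᶜ.card) := by
    rw [fS, ← hc, ← sum_subsets, mul_sum, ← sum_add_distrib]
    refine sum_congr rfl fun A _ => ?_
    unfold fT; ring
  rw [h3]
  have h4 := sum_small_term (α := α)
  rw [hc] at h4 s3
  refine add_le_add le_rfl ((mul_le_mul s3 h4 (by positivity) (pw_pos _).le).trans ?_)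
  rw [← mul_assoc, pw_add]
  refine mul_le_mul_of_nonneg_right ?_ (F_pos _).le
  apply le_w'
  have he := (div_bounds n 20000 (by norm_num)).2
  have hx : (0 : ℝ) ≤ n := Nat.cast_nonneg n
  rw [Nat.cast_add, Nat.cast_mul]
  generalize ((n / 20000 : ℕ) : ℝ) = e at *
  push_cast at he ⊢
  linarith

lemma recursion' (hc : Fintype.card α = n) (hq : 100000 ≤ q) (hn : q ≤ n) :
    ((idemAll α).card : ℝ) ≤ fS n + w q n * (F n + (idemAll α).card +
      F n * (3 * r (n - 1) + r (n - 2) + r (n - q))) := by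
  obtain ⟨v⟩ : Nonempty α := Fintype.card_pos_iff.1 (by omega)
  have hsub := idemAll_subset v q (n / 20000) (n / 50) (by rw [hc]; omega)
  have hcard : ((idemAll α).card : ℝ) ≤ (B0 α).card + (B1 α q (n / 20000)).card +
      (Bs1 v (16 * (n / 20000)) (n / 50)).card + (Bs2 α (16 * (n / 20000)) (n / 50)).card +
      (B4 α q (n / 20000)).card + (B5 α q (n / 20000)).card +
      (Good α (148 * (n / 20000) + 2)).card := by
    norm_cast
    refine (card_le_card hsub).trans ?_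
    refine (card_union_le _ _).trans (Nat.add_le_add_right ?_ _)
    refine (card_union_le _ _).trans (Nat.add_le_add_right ?_ _)
    refine (card_union_le _ _).trans (Nat.add_le_add_right ?_ _)
    refine (card_union_le _ _).trans (Nat.add_le_add_right ?_ _)
    refine (card_union_le _ _).trans (Nat.add_le_add_right ?_ _)
    exact card_union_le _ _
  have k0 := t0 (q := q) hc (by omega)
  have k1 := t1 hc hq hn
  have k2 := t2 (q := q) hc (by omega) v
  have k3 := t3 (q := q) hc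
  have k4 := t4 (q := q) hc (by omega) (by omega)
  have k5 := t5 (q := q) hc (by omega) (by omega)
  have k6 := t6 (q := q) hc
  linarith

lemma lower_rec' (hc : Fintype.card α = n) : fS n - w q n * F n ≤ (idemAll α).card := by
  have h1 := lower_bound (α := α)
  rw [sum_subsets fT, hc] at h1
  refine le_trans (sub_le_sub_left ?_ _) h1
  have hx : (0 : ℝ) ≤ n := Nat.cast_nonneg n
  calc _ = ((4 * (n : ℝ) + 1) * (2 : ℝ) ^ (66 / 25 - (n : ℝ) / 5)) * F n := by
        rw [pw_nat, F, mul_left_comm, pw_add, mul_assoc, pw_add]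
        congr 2; ring
    _ ≤ _ := by
        refine mul_le_mul_of_nonneg_right ?_ (F_pos _).le
        refine le_w q n 2 _ _ (by omega) ?_ ?_
        · nlinarith
        · nlinarith [sq_nonneg (q : ℝ)]

end

lemma recursion {q n : ℕ} (hq : 100000 ≤ q) (hn : q ≤ n) :
    (I n : ℝ) ≤ fS n + w q n * (F n + I n + F n * (3 * r (n - 1) + r (n - 2) + r (n - q))) := by
  rw [I_eq]; exact recursion' (Fintype.card_fin n) hq hn

lemma lower_rec (q n : ℕ) : fS n - w q n * F n ≤ I n := by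
  rw [I_eq]; exact lower_rec' (Fintype.card_fin n)

end Pool.Agent.MP_c00610_co

end
end

section

open Finset Filter Topology

noncomputable section
namespace Pool.Agent.MP_c00610_co

lemma tendsto_of_even_odd {u : ℕ → ℝ} {l : ℝ} (h0 : Tendsto (fun m => u (2 * m)) atTop (𝓝 l))
    (h1 : Tendsto (fun m => u (2 * m + 1)) atTop (𝓝 l)) : Tendsto u atTop (𝓝 l) := by
  rw [Metric.tendsto_atTop] at *
  intro ε hε
  obtain ⟨N0, k0⟩ := h0 ε hε
  obtain ⟨N1, k1⟩ := h1 ε hε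
  refine ⟨2 * N0 + 2 * N1 + 1, fun n hn => ?_⟩
  rcases Nat.even_or_odd' n with ⟨m, rfl | rfl⟩
  · exact k0 m (by omega)
  · exact k1 m (by omega)

/-- ratio of the middle binomial coefficient to its Stirling approximation -/
def cr (n : ℕ) : ℝ := n.choose (n / 2) / (2 ^ n * √(2 / (Real.pi * n)))

lemma cr_even : Tendsto (fun m => cr (2 * m)) atTop (𝓝 1) := by
  have hs := Stirling.tendsto_stirlingSeq_sqrt_pi
  have h2 : Tendsto (fun m => Stirling.stirlingSeq (2 * m)) atTop (𝓝 √Real.pi) :=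
    hs.comp (tendsto_id.const_mul_atTop' (by norm_num))
  have hpi : 0 < √Real.pi := Real.sqrt_pos.2 Real.pi_pos
  have h3 : Tendsto (fun m => Stirling.stirlingSeq (2 * m) * √Real.pi /
      (Stirling.stirlingSeq m * Stirling.stirlingSeq m)) atTop
      (𝓝 (√Real.pi * √Real.pi / (√Real.pi * √Real.pi))) :=
    (h2.mul_const _).div (hs.mul hs) (by positivity)
  rw [div_self (by positivity)] at h3
  refine h3.congr' ?_
  filter_upwards [eventually_gt_atTop 0] with m hm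
  have hm' : (0 : ℝ) < m := by exact_mod_cast hm
  unfold cr Stirling.stirlingSeq
  rw [Nat.mul_div_cancel_left m (by norm_num), Nat.cast_choose ℝ (by omega),
    show 2 * m - m = m by omega]
  push_cast
  have e1 : √(2 * (2 * (m : ℝ))) = 2 * √m := by
    rw [show 2 * (2 * (m : ℝ)) = 2 ^ 2 * m by ring, Real.sqrt_mul (by norm_num),
      Real.sqrt_sq (by norm_num)]
  have e2 : √(2 / (Real.pi * (2 * (m : ℝ)))) = 1 / (√Real.pi * √m) := by
    rw [show 2 / (Real.pi * (2 * (m : ℝ))) = 1 / (Real.pi * m) by field_simp, Real.sqrt_div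
      (by norm_num), Real.sqrt_one, Real.sqrt_mul Real.pi_pos.le]
  have e3 : √(2 * (m : ℝ)) * √(2 * (m : ℝ)) = 2 * (√m * √m) := by
    rw [Real.mul_self_sqrt (by positivity), Real.mul_self_sqrt hm'.le]
  have e4 : (2 * (m : ℝ) / Real.exp 1) ^ (2 * m) =
      2 ^ (2 * m) * ((m / Real.exp 1) ^ m * (m / Real.exp 1) ^ m) := by
    rw [← pow_add, ← two_mul, ← mul_pow, mul_div_assoc]
  have p1 : 0 < √(m : ℝ) := Real.sqrt_pos.2 hm'
  have p2 : 0 < √(2 * (m : ℝ)) := Real.sqrt_pos.2 (by positivity)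
  have p3 : (0 : ℝ) < (m / Real.exp 1) ^ m := by positivity
  have p4 : (0 : ℝ) < m.factorial := by exact_mod_cast m.factorial_pos
  rw [e1, e2, e4, div_mul_div_comm, mul_mul_mul_comm (√(2 * (m : ℝ))), e3]
  field_simp

lemma cr_odd : Tendsto (fun m => cr (2 * m + 1)) atTop (𝓝 1) := by
  have h1 : Tendsto (fun m => cr (2 * (m + 1))) atTop (𝓝 1) :=
    cr_even.comp (tendsto_add_atTop_nat 1)
  have h2 : Tendsto (fun m : ℕ => √((2 * (m : ℝ) + 1) / (2 * (m + 1)))) atTop (𝓝 1) := by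
    have h3 : Tendsto (fun m : ℕ => 1 - 1 / 2 * (1 / ((m : ℝ) + 1))) atTop (𝓝 (1 - 1 / 2 * 0)) :=
      tendsto_const_nhds.sub (tendsto_one_div_add_atTop_nhds_zero_nat.const_mul _)
    have h4 := h3.sqrt
    simp only [mul_zero, sub_zero, Real.sqrt_one] at h4
    refine h4.congr fun m => ?_
    congr 1
    field_simp
    ring
  have h5 := h1.mul h2
  rw [mul_one] at h5
  refine h5.congr fun m => ?_
  unfold cr
  have e1 : (2 * (m + 1)) / 2 = m + 1 := by omega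
  have e2 : (2 * m + 1) / 2 = m := by omega
  have e3 : (2 * (m + 1)).choose (m + 1) = 2 * (2 * m + 1).choose m := by
    rw [show 2 * (m + 1) = (2 * m + 1) + 1 by ring, Nat.choose_succ_succ', Nat.choose_symm_half]
    ring
  rw [e1, e2, e3]
  push_cast
  have hm : (0 : ℝ) ≤ m := Nat.cast_nonneg m
  have hpi := Real.pi_pos
  have e4 : √(2 / (Real.pi * (2 * ((m : ℝ) + 1)))) =
      √(2 / (Real.pi * (2 * (m : ℝ) + 1))) * √((2 * (m : ℝ) + 1) / (2 * (m + 1))) := by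
    rw [← Real.sqrt_mul (by positivity)]
    congr 1
    field_simp
  have p1 : 0 < √(2 / (Real.pi * (2 * (m : ℝ) + 1))) := Real.sqrt_pos.2 (by positivity)
  have p2 : 0 < √((2 * (m : ℝ) + 1) / (2 * (m + 1))) := Real.sqrt_pos.2 (by positivity)
  rw [e4, show 2 * (m + 1) = (2 * m + 1) + 1 by ring, pow_succ]
  field_simp

lemma cr_tendsto : Tendsto cr atTop (𝓝 1) := tendsto_of_even_odd cr_even cr_odd

/-- normalised binomial coefficient -/
def rho (n : ℕ) (k : ℤ) : ℝ := if 0 ≤ k then n.choose k.toNat / n.choose (n / 2) else 0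

lemma choose_half_pos (n : ℕ) : (0 : ℝ) < n.choose (n / 2) := by
  exact_mod_cast Nat.choose_pos (Nat.div_le_self n 2)

lemma rho_nonneg (n : ℕ) (k : ℤ) : 0 ≤ rho n k := by
  unfold rho; split_ifs <;> positivity

lemma rho_le_one (n : ℕ) (k : ℤ) : rho n k ≤ 1 := by
  unfold rho; split_ifs
  · rw [div_le_one (choose_half_pos n)]
    exact_mod_cast Nat.choose_le_middle _ _
  · norm_num

lemma half_tendsto : Tendsto (fun n : ℕ => ((n / 2 : ℕ) : ℝ) / n) atTop (𝓝 (1 / 2)) := by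
  have h1 : Tendsto (fun n : ℕ => 1 / 2 - 1 / (n : ℝ)) atTop (𝓝 (1 / 2 - 0)) :=
    tendsto_const_nhds.sub tendsto_one_div_atTop_nhds_zero_nat
  rw [sub_zero] at h1
  refine tendsto_of_tendsto_of_tendsto_of_le_of_le' h1 tendsto_const_nhds ?_ ?_
  · filter_upwards [eventually_gt_atTop 0] with n hn
    have hn' : (0 : ℝ) < n := by exact_mod_cast hn
    have := (div_bounds n 2 (by norm_num)).1
    rw [le_div_iff₀ hn', sub_mul, one_div_mul_cancel hn'.ne']
    push_cast at this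
    linarith
  · filter_upwards [eventually_gt_atTop 0] with n hn
    have hn' : (0 : ℝ) < n := by exact_mod_cast hn
    have := (div_bounds n 2 (by norm_num)).2
    rw [div_le_iff₀ hn']
    push_cast at this
    linarith

lemma tau_tendsto (j : ℤ) : Tendsto (fun n : ℕ =>
    ((n : ℝ) - (j + (n / 2 : ℕ))) / (j + (n / 2 : ℕ) + 1)) atTop (𝓝 1) := by
  have h0 : Tendsto (fun n : ℕ => 1 / (n : ℝ)) atTop (𝓝 0) := tendsto_one_div_atTop_nhds_zero_nat
  have h1 : Tendsto (fun n : ℕ => (1 - ((j : ℝ) * (1 / n) + ((n / 2 : ℕ) : ℝ) / n)) /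
      ((j : ℝ) * (1 / n) + ((n / 2 : ℕ) : ℝ) / n + 1 / n)) atTop
      (𝓝 ((1 - ((j : ℝ) * 0 + 1 / 2)) / ((j : ℝ) * 0 + 1 / 2 + 0))) :=
    (tendsto_const_nhds.sub ((h0.const_mul _).add half_tendsto)).div
      (((h0.const_mul _).add half_tendsto).add h0) (by norm_num)
  norm_num at h1
  refine h1.congr' ?_
  filter_upwards [eventually_gt_atTop 0] with n hn
  have hn' : (n : ℝ) ≠ 0 := by exact_mod_cast hn.ne'
  rw [← mul_div_mul_left _ _ hn']
  congr 1 <;> field_simp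

lemma rho_step (j : ℤ) : ∀ᶠ n : ℕ in atTop, rho n (j + 1 + (n / 2 : ℕ)) =
    rho n (j + (n / 2 : ℕ)) * (((n : ℝ) - (j + (n / 2 : ℕ))) / (j + (n / 2 : ℕ) + 1)) := by
  filter_upwards [eventually_ge_atTop (2 * j.natAbs + 2)] with n hn
  obtain ⟨k, hk⟩ : ∃ k : ℕ, (k : ℤ) = j + (n / 2 : ℕ) := ⟨(j + (n / 2 : ℕ)).toNat, by omega⟩
  have hkn : k ≤ n := by omega
  have e1 : j + 1 + (n / 2 : ℕ) = ((k + 1 : ℕ) : ℤ) := by omega
  have e2 : (j : ℝ) + (n / 2 : ℕ) = k := by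
    generalize n / 2 = m at hk
    exact_mod_cast hk.symm
  rw [e1, ← hk, e2]
  unfold rho
  rw [if_pos (by omega), if_pos (by omega), Int.toNat_natCast, Int.toNat_natCast]
  have h1 : ((n.choose (k + 1) : ℝ)) * (k + 1) = n.choose k * (n - k) := by
    have := Nat.choose_succ_right_eq n k
    rw [← Nat.cast_sub hkn]
    exact_mod_cast this
  have := choose_half_pos n
  field_simp
  linarith

lemma rho_tendsto (j : ℤ) : Tendsto (fun n : ℕ => rho n (j + (n / 2 : ℕ))) atTop (𝓝 1) := by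
  induction j using Int.induction_on with
  | zero =>
    refine tendsto_const_nhds.congr fun n => ?_
    unfold rho
    rw [zero_add, if_pos (by omega), Int.toNat_natCast, div_self (choose_half_pos n).ne']
  | succ j ih =>
    have := ih.mul (tau_tendsto j)
    rw [mul_one] at this
    exact this.congr' ((rho_step j).mono fun n hn => hn.symm)
  | pred j ih =>
    have h1 := ih.div (tau_tendsto (-(j : ℤ) - 1)) one_ne_zero
    rw [div_one] at h1
    refine h1.congr' ?_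
    filter_upwards [rho_step (-(j : ℤ) - 1),
      (tau_tendsto (-(j : ℤ) - 1)).eventually_ne one_ne_zero] with n hn hn'
    rw [sub_add_cancel] at hn
    simp only [Pi.div_apply]
    rw [hn, mul_div_cancel_right₀ _ hn']

/-- Gaussian weights -/
def gw (x : ℝ) : ℝ := (2 : ℝ) ^ (-x ^ 2)

lemma gw_pos (x : ℝ) : 0 < gw x := pw_pos _

lemma gw_le (j : ℤ) (c : ℝ) (hc : |c| ≤ 2) : gw (j + c) ≤ 8 * (1 / 2) ^ j.natAbs := by
  have e1 : (8 : ℝ) * (1 / 2) ^ j.natAbs = (2 : ℝ) ^ (3 - |(j : ℝ)|) := by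
    rw [Real.rpow_sub (by norm_num), ← Int.cast_abs, ← Int.natCast_natAbs, Int.cast_natCast,
      Real.rpow_natCast, one_div, inv_pow, div_eq_mul_inv]
    norm_num
  rw [e1]
  apply pw_le
  have h1 : |(j : ℝ)| ≤ |(j : ℝ) + c| + |c| := by
    have := abs_sub ((j : ℝ) + c) c
    rwa [add_sub_cancel_right] at this
  rw [← sq_abs]
  nlinarith [sq_nonneg (|(j : ℝ) + c| - 1 / 2)]

lemma summable_bound : Summable fun j : ℤ => (8 : ℝ) * (1 / 2) ^ j.natAbs := by
  refine Summable.mul_left _ (Summable.of_nat_of_neg ?_ ?_)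
  · simpa using summable_geometric_two
  · simpa using summable_geometric_two

lemma summable_gw (c : ℝ) (hc : |c| ≤ 2) : Summable fun j : ℤ => gw (j + c) :=
  Summable.of_nonneg_of_le (fun _ => (gw_pos _).le) (fun j => gw_le j c hc) summable_bound

/-- the theta constant -/
def theta (n : ℕ) : ℝ := ∑' k : ℤ, (2 : ℝ) ^ (-((k : ℝ) - n / 2) ^ 2)

lemma off_abs (n : ℕ) (s : ℤ) (hs : |(s : ℝ)| ≤ 1) :
    |((n / 2 : ℕ) : ℝ) - s - n / 2| ≤ 2 := by
  have h1 := div_bounds n 2 (by norm_num)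
  push_cast at h1
  rw [abs_le] at hs ⊢
  constructor <;> linarith [h1.1, h1.2]

lemma theta_eq (n : ℕ) (s : ℤ) :
    theta n = ∑' j : ℤ, gw (j + (((n / 2 : ℕ) : ℝ) - s - n / 2)) := by
  unfold theta
  rw [← (Equiv.addRight (((n / 2 : ℕ) : ℤ) - s)).tsum_eq]
  refine tsum_congr fun j => ?_
  simp only [Equiv.coe_addRight, gw]
  generalize n / 2 = m
  push_cast
  congr 2; ring

lemma theta_ge (n : ℕ) : 1 / 2 ≤ theta n := by
  rw [theta_eq n 0]
  have h1 := (summable_gw _ (off_abs n 0 (by simp))).le_tsum 0 (fun j _ => (gw_pos _).le)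
  refine le_trans ?_ h1
  have h2 : (1 / 2 : ℝ) = (2 : ℝ) ^ (-1 : ℝ) := by rw [Real.rpow_neg_one]; norm_num
  rw [h2]
  apply pw_le
  have h3 := div_bounds n 2 (by norm_num)
  push_cast at h3 ⊢
  nlinarith [h3.1, h3.2]

/-- the weighted theta sum -/
def Theta (s : ℤ) (n : ℕ) : ℝ :=
  ∑ a ∈ range (n + 1), (n.choose a : ℝ) / n.choose (n / 2) * gw (a - s - n / 2)

lemma Theta_eq (s : ℤ) (n : ℕ) : Theta s n =
    ∑' j : ℤ, rho n (j + (n / 2 : ℕ)) * gw (j + (((n / 2 : ℕ) : ℝ) - s - n / 2)) := by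
  have h1 : ∑' k : ℤ, rho n k * gw (k - s - n / 2) = Theta s n := by
    rw [tsum_eq_sum (s := (range (n + 1)).map ⟨Nat.cast, Nat.cast_injective⟩), sum_map]
    · refine sum_congr rfl fun a _ => ?_
      simp [rho]
    · intro k hk
      unfold rho
      split_ifs with h
      · have : n < k.toNat := by
          by_contra hle
          exact hk (mem_map.2 ⟨k.toNat, by simp only [mem_range]; omega, by
            simp only [Function.Embedding.coeFn_mk]; omega⟩)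
        rw [Nat.choose_eq_zero_of_lt this]; simp
      · simp
  rw [← h1, ← (Equiv.addRight (((n / 2 : ℕ) : ℤ))).tsum_eq]
  refine tsum_congr fun j => ?_
  simp only [Equiv.coe_addRight]
  generalize n / 2 = m
  push_cast
  congr 2; ring

lemma Theta_tendsto (s : ℤ) (hs : |(s : ℝ)| ≤ 1) :
    Tendsto (fun n => theta n - Theta s n) atTop (𝓝 0) := by
  have h1 := tendsto_tsum_of_dominated_convergence (𝓕 := atTop) (α := ℕ)
    (f := fun n (j : ℤ) => (1 - rho n (j + (n / 2 : ℕ))) *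
      gw (j + (((n / 2 : ℕ) : ℝ) - s - n / 2))) (g := fun _ => 0) summable_bound ?_ ?_
  · rw [tsum_zero] at h1
    refine h1.congr fun n => ?_
    have hsum := summable_gw _ (off_abs n s hs)
    rw [theta_eq n s, Theta_eq, ← Summable.tsum_sub hsum]
    · exact tsum_congr fun j => by ring
    · exact Summable.of_nonneg_of_le (fun j => mul_nonneg (rho_nonneg _ _) (gw_pos _).le)
        (fun j => mul_le_of_le_one_left (gw_pos _).le (rho_le_one _ _)) hsum
  · intro j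
    have h2 : Tendsto (fun n : ℕ => (1 - rho n (j + (n / 2 : ℕ))) * (8 * (1 / 2) ^ j.natAbs))
        atTop (𝓝 ((1 - 1) * (8 * (1 / 2) ^ j.natAbs))) :=
      (tendsto_const_nhds.sub (rho_tendsto j)).mul_const _
    rw [sub_self, zero_mul] at h2
    refine squeeze_zero (fun n => mul_nonneg (sub_nonneg.2 (rho_le_one _ _)) (gw_pos _).le)
      (fun n => ?_) h2
    exact mul_le_mul_of_nonneg_left (gw_le j _ (off_abs n s hs)) (sub_nonneg.2 (rho_le_one _ _))
  · refine Eventually.of_forall fun n j => ?_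
    rw [Real.norm_of_nonneg (mul_nonneg (sub_nonneg.2 (rho_le_one _ _)) (gw_pos _).le)]
    refine le_trans (mul_le_of_le_one_left (gw_pos _).le ?_) (gw_le j _ (off_abs n s hs))
    linarith [rho_nonneg n (j + (n / 2 : ℕ))]

lemma fS_eq (n : ℕ) : fS n = n.choose (n / 2) * (2 : ℝ) ^ ((n : ℝ) ^ 2 / 4 + n) *
    (2 * Theta 1 n + Theta 0 n) := by
  unfold fS Theta
  rw [mul_sum, ← sum_add_distrib, mul_sum]
  refine sum_congr rfl fun a ha => ?_
  have ha' : a ≤ n := by simpa [Nat.lt_succ_iff] using ha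
  have hc := choose_half_pos n
  have k1 : (2 : ℝ) ^ a * 2 ^ (a * (n - a)) * 2 ^ a =
      (2 : ℝ) ^ ((n : ℝ) ^ 2 / 4 + n) * ((2 : ℝ) ^ (1 : ℝ) * gw (a - (1 : ℤ) - n / 2)) := by
    rw [pw_nat (_ * _), pw_nat a, gw, pw_add, pw_add, pw_add, pw_add]
    push_cast [Nat.cast_sub ha']
    congr 1; ring
  have k2 : (2 : ℝ) ^ a * 2 ^ (a * (n - a)) * 2 ^ (n - a) =
      (2 : ℝ) ^ ((n : ℝ) ^ 2 / 4 + n) * gw (a - (0 : ℤ) - n / 2) := by
    rw [pw_nat (_ * _), pw_nat a, pw_nat (n - a), gw, pw_add, pw_add, pw_add]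
    push_cast [Nat.cast_sub ha']
    congr 1; ring
  rw [Real.rpow_one] at k1
  rw [fT, mul_add, k1, k2]
  field_simp

/-- intermediate comparison function -/
def H (n : ℕ) : ℝ := 3 * theta n * (n.choose (n / 2) * (2 : ℝ) ^ ((n : ℝ) ^ 2 / 4 + n))

lemma H_ge (n : ℕ) : F n ≤ (n + 1) * H n := by
  have h1 : (2 : ℝ) ^ n ≤ (n + 1) * n.choose (n / 2) := by
    have h2 := Nat.sum_range_choose n
    have h3 : ∑ m ∈ range (n + 1), n.choose m ≤ (n + 1) * n.choose (n / 2) := by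
      have := sum_le_card_nsmul (range (n + 1)) (fun m => n.choose m) (n.choose (n / 2))
        (fun m _ => Nat.choose_le_middle m n)
      simpa using this
    rw [h2] at h3
    exact_mod_cast h3
  have h2 : F n = (2 : ℝ) ^ n * (2 : ℝ) ^ ((n : ℝ) ^ 2 / 4 + n) := by
    rw [pw_nat, pw_add, F]; congr 1; ring
  have h3 := theta_ge n
  have h4 := pw_pos ((n : ℝ) ^ 2 / 4 + n)
  have h5 := choose_half_pos n
  rw [h2, H]
  calc _ ≤ ((n + 1) * n.choose (n / 2)) * (2 : ℝ) ^ ((n : ℝ) ^ 2 / 4 + n) := by gcongr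
    _ = (n + 1) * (1 * (n.choose (n / 2) * (2 : ℝ) ^ ((n : ℝ) ^ 2 / 4 + n))) := by ring
    _ ≤ _ := by gcongr; linarith

lemma H_pos (n : ℕ) : 0 < H n := by
  have h3 := theta_ge n
  have h4 := pw_pos ((n : ℝ) ^ 2 / 4 + n)
  have h5 := choose_half_pos n
  unfold H
  positivity

lemma fS_div_H : Tendsto (fun n => fS n / H n) atTop (𝓝 1) := by
  have h1 := Theta_tendsto 1 (by simp)
  have h0 := Theta_tendsto 0 (by simp)
  have h2 : Tendsto (fun n => |2 * (theta n - Theta 1 n) + (theta n - Theta 0 n)|) atTop (𝓝 0) := by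
    simpa using ((h1.const_mul 2).add h0).abs
  rw [tendsto_iff_dist_tendsto_zero]
  refine squeeze_zero (fun _ => dist_nonneg) (fun n => ?_) h2
  have h3 := theta_ge n
  have h4 := pw_pos ((n : ℝ) ^ 2 / 4 + n)
  have h5 := choose_half_pos n
  have e : fS n / H n - 1 =
      -(2 * (theta n - Theta 1 n) + (theta n - Theta 0 n)) / (3 * theta n) := by
    rw [fS_eq, H]
    field_simp
    ring
  rw [Real.dist_eq, e, abs_div, abs_neg, abs_of_pos (by linarith : 0 < 3 * theta n)]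
  exact div_le_self (abs_nonneg _) (by linarith)

end Pool.Agent.MP_c00610_co

end
end
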