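import Pool.Agent.Mg.Fc00610.G6baa9b

open Finset Filter Topology

noncomputable section
namespace Pool.Agent.MP_c00610_co

lemma w_tendsto (q : ℕ) : Tendsto (fun n : ℕ => ((n : ℝ) + 1) * w q n) atTop (𝓝 0) := by
  set ρ : ℝ := (2 : ℝ) ^ (-(1 / 20000 : ℝ)) with hρ
  have hρ0 : 0 ≤ ρ := (pw_pos _).le
  have hρ1 : ρ < 1 := Real.rpow_lt_one_of_one_lt_of_neg (by norm_num) (by norm_num)
  have h1 := tendsto_pow_const_mul_const_pow_of_lt_one (4 * q + 13) hρ0 hρ1
  have h2 := (h1.comp (tendsto_add_atTop_nat 2)).const_mul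
    ((2 : ℝ) ^ ((q : ℝ) ^ 2 / 4 + 10 + 2 / 20000))
  rw [mul_zero] at h2
  refine squeeze_zero (fun n => mul_nonneg (by positivity) (w_pos q n).le) (fun n => ?_) h2
  simp only [Function.comp]
  have e1 : ρ ^ (n + 2) = (2 : ℝ) ^ (-(1 / 20000 : ℝ) * ((n : ℝ) + 2)) := by
    rw [Real.rpow_mul (by norm_num), ← Real.rpow_natCast]; push_cast; rfl
  rw [e1, mul_left_comm, pw_add, w, ← mul_assoc]
  push_cast
  have hx : (0 : ℝ) ≤ n := Nat.cast_nonneg n
  refine mul_le_mul ?_ (pw_le (by linarith)) (pw_pos _).le (by positivity)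
  rw [show 4 * q + 13 = (4 * q + 12) + 1 by ring, pow_succ' _ (4 * q + 12)]
  gcongr
  linarith

lemma w_tendsto' (q : ℕ) : Tendsto (fun n : ℕ => w q n) atTop (𝓝 0) := by
  refine squeeze_zero (fun n => (w_pos q n).le) (fun n => ?_) (w_tendsto q)
  have := w_pos q n
  have hx : (0 : ℝ) ≤ n := Nat.cast_nonneg n
  nlinarith

lemma r_rec {q n : ℕ} (hq : 100000 ≤ q) (hn : q ≤ n) :
    r n * F n ≤ fS n + w q n * F n * (1 + r n + 3 * r (n - 1) + r (n - 2) + r (n - q)) := by
  have h1 := recursion hq hn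
  have h2 : (I n : ℝ) = r n * F n := by rw [r, div_mul_cancel₀ _ (F_pos n).ne']
  rw [h2] at h1
  linarith

lemma r_bounded : ∃ C : ℝ, 0 ≤ C ∧ ∀ n, r n ≤ C := by
  obtain ⟨q, hq⟩ : ∃ q : ℕ, 100000 ≤ q := ⟨_, le_rfl⟩
  obtain ⟨N, hN⟩ := eventually_atTop.1 (((w_tendsto' q).eventually
    (ge_mem_nhds (show (0 : ℝ) < 1 / 12 by norm_num))).and (eventually_ge_atTop q))
  have hC0 : 0 ≤ ∑ m ∈ range N, r m := sum_nonneg fun m _ => r_nonneg m
  refine ⟨8 + ∑ m ∈ range N, r m, by linarith, fun n => ?_⟩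
  induction n using Nat.strong_induction_on with
  | _ n ih =>
    by_cases hn : n < N
    · have := single_le_sum (f := r) (fun m _ => r_nonneg m) (mem_range.2 hn)
      linarith
    obtain ⟨h1, h2⟩ := hN n (by omega)
    have k1 := ih (n - 1) (by omega)
    have k2 := ih (n - 2) (by omega)
    have k3 := ih (n - q) (by omega)
    have k4 := r_rec hq h2
    have k5 := fS_le n
    have hF := F_pos n
    have k6 : r n ≤ 3 + w q n * (1 + r n + 3 * r (n - 1) + r (n - 2) + r (n - q)) := by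
      refine le_of_mul_le_mul_right ?_ hF
      linarith
    have k7 : w q n * (1 + r n + 3 * r (n - 1) + r (n - 2) + r (n - q)) ≤
        1 / 12 * (1 + r n + 3 * r (n - 1) + r (n - 2) + r (n - q)) := by
      refine mul_le_mul_of_nonneg_right h1 ?_
      linarith [r_nonneg n, r_nonneg (n - 1), r_nonneg (n - 2), r_nonneg (n - q)]
    linarith

lemma I_div_H : Tendsto (fun n => (I n : ℝ) / H n) atTop (𝓝 1) := by
  obtain ⟨q, hq⟩ : ∃ q : ℕ, 100000 ≤ q := ⟨_, le_rfl⟩
  obtain ⟨C, hC0, hC⟩ := r_bounded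
  have h1 : Tendsto (fun n => ((I n : ℝ) - fS n) / H n) atTop (𝓝 0) := by
    have h2 := (w_tendsto q).const_mul (1 + 6 * C)
    rw [mul_zero] at h2
    refine squeeze_zero_norm' ?_ h2
    filter_upwards [eventually_ge_atTop q] with n hn
    have k1 := r_rec hq hn
    have k2 := lower_rec q n
    have k3 : (I n : ℝ) = r n * F n := by rw [r, div_mul_cancel₀ _ (F_pos n).ne']
    have k4 : 0 < w q n * F n := mul_pos (w_pos q n) (F_pos n)
    have k5 : w q n * F n * (1 + r n + 3 * r (n - 1) + r (n - 2) + r (n - q)) ≤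
        w q n * F n * (1 + 6 * C) := by
      refine mul_le_mul_of_nonneg_left ?_ k4.le
      linarith [hC n, hC (n - 1), hC (n - 2), hC (n - q)]
    have k6 : |(I n : ℝ) - fS n| ≤ w q n * F n * (1 + 6 * C) := by
      rw [abs_le]
      constructor
      · nlinarith
      · linarith
    rw [Real.norm_eq_abs, abs_div, abs_of_pos (H_pos n), div_le_iff₀ (H_pos n)]
    refine k6.trans ?_
    calc w q n * F n * (1 + 6 * C) ≤ w q n * ((n + 1) * H n) * (1 + 6 * C) := by
          have := (w_pos q n).le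
          gcongr
          exact H_ge n
      _ = _ := by ring
  have h3 := h1.add fS_div_H
  rw [zero_add] at h3
  refine h3.congr fun n => ?_
  have := (H_pos n).ne'
  field_simp
  ring

lemma I_tendsto : Tendsto (fun n : ℕ => (I n : ℝ) /
    (3 * theta n * √(2 / (Real.pi * n)) * (2 : ℝ) ^ ((n : ℝ) ^ 2 / 4 + 2 * n))) atTop (𝓝 1) := by
  have h1 := I_div_H.mul cr_tendsto
  rw [mul_one] at h1
  refine h1.congr' ?_
  filter_upwards [eventually_gt_atTop 0] with n hn
  have hn' : (0 : ℝ) < n := by exact_mod_cast hn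
  have h2 : (2 : ℝ) ^ ((n : ℝ) ^ 2 / 4 + 2 * n) = 2 ^ n * (2 : ℝ) ^ ((n : ℝ) ^ 2 / 4 + n) := by
    rw [pw_nat, pw_add]; congr 1; ring
  have h3 := theta_ge n
  have h4 := pw_pos ((n : ℝ) ^ 2 / 4 + n)
  have h5 := choose_half_pos n
  have hpi := Real.pi_pos
  have p1 : 0 < √(2 / (Real.pi * n)) := Real.sqrt_pos.2 (by positivity)
  rw [h2, H, cr]
  field_simp

lemma card_idem_matrix (n : ℕ) :
    Nat.card {A : Matrix (Fin n) (Fin n) Bool //
      ∀ i j, A i j = Finset.univ.sup fun k => min (A i k) (A k j)} = I n := by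
  classical
  unfold I
  rw [← Fintype.card_subtype, ← Nat.card_eq_fintype_card]
  refine Nat.card_congr (Equiv.subtypeEquiv
    ⟨fun A i j => A i j = true, fun R => Matrix.of fun i j => decide (R i j), ?_, ?_⟩ ?_)
  · intro A; ext i j; simp
  · intro R; funext i j; simp
  · intro A
    simp only [Equiv.coe_fn_mk, Idem]
    refine forall_congr' fun i => forall_congr' fun j => ?_
    have : ((Finset.univ.sup fun k => min (A i k) (A k j)) = true) ↔
        ∃ c, A i c = true ∧ A c j = true := by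
      rw [show (true : Bool) = ⊤ from rfl, Finset.sup_eq_top_iff]
      simp
    rw [← this]
    exact Bool.eq_iff_iff

theorem main : Tendsto (fun n : ℕ =>
    (Nat.card {A : Matrix (Fin n) (Fin n) Bool //
      ∀ i j, A i j = Finset.univ.sup fun k => min (A i k) (A k j)} : ℝ) /
    (3 * (∑' k : ℤ, (2 : ℝ) ^ (-((k : ℝ) - n / 2) ^ 2)) * √(2 / (Real.pi * n)) *
      (2 : ℝ) ^ ((n : ℝ) ^ 2 / 4 + 2 * n))) atTop (𝓝 1) := by
  simp only [card_idem_matrix]
  exact I_tendsto

end Pool.Agent.MP_c00610_co
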